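import Mathlib

/-!
# Limits of bounded holomorphic functions along an ultrafilter
-/

open Topology Filter

namespace Pool.Agent.H17

variable {E : Type} [NormedAddCommGroup E] [NormedSpace ℂ E] [ProperSpace E] [CompleteSpace E]

omit [ProperSpace E] [CompleteSpace E] in
/-- A bounded holomorphic function is Lipschitz on smaller discs. -/
lemma lipschitz_of_bounded {F : ℂ → E} {a : ℂ} {r B : ℝ}
    (hF : DifferentiableOn ℂ F (Metric.ball a r)) (hB : ∀ z ∈ Metric.ball a r, ‖F z‖ ≤ B)
    {z₀ : ℂ} {ρ : ℝ} (hρ : 0 < ρ) (hz₀ : Metric.ball z₀ (2 * ρ) ⊆ Metric.ball a r)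
    {z w : ℂ} (hz : z ∈ Metric.ball z₀ ρ) (hw : w ∈ Metric.ball z₀ ρ) :
    ‖F w - F z‖ ≤ B / (ρ / 2) * ‖w - z‖ := by
  have hsub : ∀ y ∈ Metric.ball z₀ ρ, Metric.closedBall y (ρ / 2) ⊆ Metric.ball a r := by
    intro y hy x hx
    apply hz₀
    rw [Metric.mem_ball] at hy ⊢
    rw [Metric.mem_closedBall] at hx
    calc dist x z₀ ≤ dist x y + dist y z₀ := dist_triangle _ _ _
      _ < 2 * ρ := by linarith
  refine Convex.norm_image_sub_le_of_norm_deriv_le (s := Metric.ball z₀ ρ) ?_ ?_
    (convex_ball z₀ ρ) hz hw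
  · intro y hy
    have h1 : y ∈ Metric.ball a r := hsub y hy (Metric.mem_closedBall_self (by positivity))
    exact (hF y h1).differentiableAt (Metric.isOpen_ball.mem_nhds h1)
  · intro y hy
    refine Complex.norm_deriv_le_of_forall_mem_sphere_norm_le (by positivity) ?_ ?_
    · apply DifferentiableOn.diffContOnCl
      refine hF.mono ?_
      exact (Metric.closure_ball_subset_closedBall).trans (hsub y hy)
    · intro x hx
      exact hB x (hsub y hy (Metric.sphere_subset_closedBall hx))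

/-- **Montel's theorem along an ultrafilter.** -/
theorem montel_ultrafilter {κ : Type*} (𝒰 : Ultrafilter κ) {F : κ → ℂ → E} {a : ℂ} {r B : ℝ}
    (h1 : ∀ᶠ k in (𝒰 : Filter κ), DifferentiableOn ℂ (F k) (Metric.ball a r))
    (h2 : ∀ᶠ k in (𝒰 : Filter κ), ∀ z ∈ Metric.ball a r, ‖F k z‖ ≤ B) :
    ∃ h : ℂ → E, DifferentiableOn ℂ h (Metric.ball a r) ∧
      TendstoLocallyUniformlyOn F h (𝒰 : Filter κ) (Metric.ball a r) := by
  classical
  have hlim : ∀ z, ∃ l : E, z ∈ Metric.ball a r → Tendsto (fun k => F k z) (𝒰 : Filter κ) (𝓝 l) := by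
    intro z
    by_cases hz : z ∈ Metric.ball a r
    · have h3 : ∀ᶠ k in (𝒰 : Filter κ), F k z ∈ Metric.closedBall (0 : E) B := by
        filter_upwards [h2] with k hk
        rw [mem_closedBall_zero_iff]
        exact hk z hz
      obtain ⟨l, -, hl⟩ := (isCompact_closedBall (0 : E) B).ultrafilter_le_nhds
        (𝒰.map fun k => F k z) (by
          rw [le_principal_iff]
          exact h3)
      exact ⟨l, fun _ => hl⟩
    · exact ⟨0, fun h => absurd h hz⟩
  choose h hh using hlim
  have hconv : TendstoLocallyUniformlyOn F h (𝒰 : Filter κ) (Metric.ball a r) := by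
    rw [Metric.tendstoLocallyUniformlyOn_iff]
    intro ε hε z₀ hz₀
    have hrz : dist z₀ a < r := hz₀
    set ρ : ℝ := (r - dist z₀ a) / 2 with hρ
    have hρpos : 0 < ρ := by rw [hρ]; linarith
    have hsub : Metric.ball z₀ (2 * ρ) ⊆ Metric.ball a r := by
      apply Metric.ball_subset_ball'
      rw [hρ]
      linarith
    set L : ℝ := |B| / (ρ / 2) + 1 with hL
    have hLpos : 0 < L := by positivity
    set η : ℝ := min ρ (ε / (4 * L)) with hη
    have hηpos : 0 < η := by positivity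
    have hηρ : η ≤ ρ := min_le_left _ _
    have hηε : L * η ≤ ε / 4 := by
      have : η ≤ ε / (4 * L) := min_le_right _ _
      calc L * η ≤ L * (ε / (4 * L)) := by gcongr
        _ = ε / 4 := by field_simp
    have hlip : ∀ᶠ k in (𝒰 : Filter κ), ∀ z ∈ Metric.ball z₀ η, ‖F k z - F k z₀‖ ≤ ε / 4 := by
      filter_upwards [h1, h2] with k hk1 hk2 z hz
      have h3 := lipschitz_of_bounded hk1 hk2 hρpos hsub (Metric.mem_ball_self hρpos)
        (Metric.ball_subset_ball hηρ hz)
      have h4 : ‖z - z₀‖ ≤ η := by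
        rw [← dist_eq_norm]
        exact (Metric.mem_ball.mp hz).le
      calc ‖F k z - F k z₀‖ ≤ B / (ρ / 2) * ‖z - z₀‖ := h3
        _ ≤ L * η := by
          have h5 : B / (ρ / 2) ≤ L := by
            have : B / (ρ / 2) ≤ |B| / (ρ / 2) := by
              gcongr
              exact le_abs_self B
            linarith
          calc B / (ρ / 2) * ‖z - z₀‖ ≤ L * ‖z - z₀‖ := by gcongr
            _ ≤ L * η := by gcongr
        _ ≤ ε / 4 := hηε
    refine ⟨Metric.ball z₀ η, mem_nhdsWithin_of_mem_nhds (Metric.ball_mem_nhds z₀ hηpos), ?_⟩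
    have hlimlip : ∀ z ∈ Metric.ball z₀ η, ‖h z - h z₀‖ ≤ ε / 4 := by
      intro z hz
      have hza : z ∈ Metric.ball a r := hsub (Metric.ball_subset_ball (by linarith) hz)
      have h3 : Tendsto (fun k => ‖F k z - F k z₀‖) (𝒰 : Filter κ) (𝓝 ‖h z - h z₀‖) :=
        ((hh z hza).sub (hh z₀ hz₀)).norm
      exact le_of_tendsto h3 (hlip.mono fun k hk => hk z hz)
    have hz₀lim : ∀ᶠ k in (𝒰 : Filter κ), ‖F k z₀ - h z₀‖ < ε / 4 := by
      have h3 := hh z₀ hz₀
      rw [Metric.tendsto_nhds] at h3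
      filter_upwards [h3 (ε / 4) (by positivity)] with k hk
      rwa [dist_eq_norm] at hk
    filter_upwards [hlip, hz₀lim] with k hk1 hk2 z hz
    rw [dist_eq_norm]
    have e : h z - F k z = (h z - h z₀) - (F k z₀ - h z₀) - (F k z - F k z₀) := by abel
    rw [e]
    calc ‖(h z - h z₀) - (F k z₀ - h z₀) - (F k z - F k z₀)‖
        ≤ ‖(h z - h z₀) - (F k z₀ - h z₀)‖ + ‖F k z - F k z₀‖ := norm_sub_le _ _
      _ ≤ ‖h z - h z₀‖ + ‖F k z₀ - h z₀‖ + ‖F k z - F k z₀‖ := by
        gcongr
        exact norm_sub_le _ _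
      _ < ε := by
        have := hlimlip z hz
        have := hk1 z hz
        linarith
  refine ⟨h, ?_, hconv⟩
  exact hconv.differentiableOn h1 Metric.isOpen_ball

end Pool.Agent.H17
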