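import Pool.Agent.H17.BrodyLimit

/-!
# The uniform modulus of continuity of holomorphic discs
-/

open Topology Filter

namespace Pool.Agent.H17

variable {N : ℕ}

/-- Composition with a holomorphic function. -/
lemma HolomorphicInto.comp {f : ℂ → PN N} {V U : Set ℂ} (hf : HolomorphicInto f V) {u : ℂ → ℂ}
    (hu : ∀ z ∈ U, AnalyticAt ℂ u z) (hUV : ∀ z ∈ U, u z ∈ V) :
    HolomorphicInto (fun z => f (u z)) U := by
  intro z₀ hz₀
  obtain ⟨φ, hφ, he⟩ := hf (u z₀) (hUV z₀ hz₀)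
  exact ⟨fun z => φ (u z), hφ.comp (hu z₀ hz₀), (hu z₀ hz₀).continuousAt.eventually he⟩

/-- Some point at distance less than `r` of `z` is mapped to a point with separation more than
`δ`. -/
def BadAt (f : ℂ → PN N) (δ : ℝ) (z : ℂ) (r : ℝ) : Prop :=
  ∃ w ∈ Metric.ball z r, δ < sep (f w) (f z)

/-- **Point picking.** -/
lemma point_picking {f : ℂ → PN N} (hf : HolomorphicInto f (Metric.ball 0 1)) {δ : ℝ} (hδ : 0 < δ)
    {K r₀ : ℝ} (hK : 0 < K) (hr₀ : 0 < r₀) (hKr : 2 * (K + 1) * r₀ ≤ 1 / 2)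
    (hbad : BadAt f δ 0 r₀) :
    ∃ a r, ‖a‖ ≤ 2 * K * r₀ ∧ 0 < r ∧ r ≤ r₀ ∧ BadAt f δ a r ∧
      ∀ z ∈ Metric.ball a (K * r), ¬ BadAt f δ z (r / 2) := by
  by_contra hcon
  push Not at hcon
  set P : ℕ → ℂ → Prop := fun n a => ‖a‖ ≤ 2 * K * r₀ * (1 - (1 / 2) ^ n) ∧
    BadAt f δ a (r₀ * (1 / 2) ^ n) with hP
  have hstep : ∀ n a, P n a → ∃ b, P (n + 1) b ∧ dist a b ≤ K * r₀ * (1 / 2) ^ n := by
    intro n a ha
    have hpow : (0 : ℝ) < (1 / 2) ^ n := by positivity
    have hpow1 : ((1 : ℝ) / 2) ^ n ≤ 1 := pow_le_one₀ (by norm_num) (by norm_num)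
    obtain ⟨b, hb1, hb2⟩ := hcon a (r₀ * (1 / 2) ^ n) (ha.1.trans (by
      have : 0 < 2 * K * r₀ := by positivity
      nlinarith)) (by positivity) (by nlinarith) ha.2
    rw [mem_ball_iff_norm] at hb1
    refine ⟨b, ⟨?_, ?_⟩, ?_⟩
    · have h1 : ‖b‖ ≤ ‖b - a‖ + ‖a‖ := by
        have := norm_add_le (b - a) a
        simpa using this
      have h2 := ha.1
      rw [pow_succ]
      nlinarith
    · have h3 : r₀ * (1 / 2) ^ (n + 1) = r₀ * (1 / 2) ^ n / 2 := by
        rw [pow_succ]; ring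
      rw [h3]
      exact hb2
    · rw [dist_comm, dist_eq_norm]
      linarith
  choose! nxt hnxt1 hnxt2 using hstep
  set a : ℕ → ℂ := fun n => Nat.rec 0 (fun n x => nxt n x) n with ha
  have ha0 : a 0 = 0 := rfl
  have hasucc : ∀ n, a (n + 1) = nxt n (a n) := fun n => rfl
  have haP : ∀ n, P n (a n) := by
    intro n
    induction n with
    | zero =>
      rw [ha0]
      refine ⟨by simp, ?_⟩
      rw [pow_zero, mul_one]
      exact hbad
    | succ n ih =>
      rw [hasucc]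
      exact hnxt1 n (a n) ih
  have hadist : ∀ n, dist (a n) (a (n + 1)) ≤ K * r₀ * (1 / 2) ^ n := by
    intro n
    rw [hasucc]
    exact hnxt2 n (a n) (haP n)
  obtain ⟨A, hA⟩ := cauchySeq_tendsto_of_complete
    (cauchySeq_of_le_geometric (1 / 2) (K * r₀) (by norm_num) hadist)
  have hAnorm : ‖A‖ ≤ 2 * K * r₀ := by
    refine le_of_tendsto hA.norm (Eventually.of_forall fun n => (haP n).1.trans ?_)
    have hpow : (0 : ℝ) < (1 / 2) ^ n := by positivity
    have : 0 < 2 * K * r₀ := by positivity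
    nlinarith
  have hAmem : A ∈ Metric.ball (0 : ℂ) 1 := by
    rw [mem_ball_zero_iff]
    nlinarith
  choose w hw1 hw2 using fun n => (haP n).2
  have hwA : Tendsto w atTop (𝓝 A) := by
    have h1 : Tendsto (fun n => w n - a n) atTop (𝓝 0) := by
      refine squeeze_zero_norm (a := fun n => r₀ * (1 / 2) ^ n) (fun n => ?_) ?_
      · have := hw1 n
        rw [mem_ball_iff_norm] at this
        exact this.le
      · have := (tendsto_pow_atTop_nhds_zero_of_lt_one (r := (1 : ℝ) / 2) (by norm_num)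
          (by norm_num)).const_mul r₀
        simpa using this
    have h2 := h1.add hA
    simpa using h2
  have h3 := (tendsto_sep hf hAmem).comp (hwA.prodMk_nhds hA)
  have h4 := h3.eventually (gt_mem_nhds hδ)
  obtain ⟨n, hn⟩ := h4.exists
  have h5 := hw2 n
  simp only [Function.comp_apply] at hn
  linarith

/-- **The uniform modulus of continuity.** -/
theorem uniform_modulus {κ : Type} {d : κ → ℕ} {Gk : ℕ → κ → MvPolynomial (Fin (N + 1)) ℂ}
    {G : κ → MvPolynomial (Fin (N + 1)) ℂ} (hGk : ∀ k l, (Gk k l).IsHomogeneous (d l))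
    (hG : ∀ l, (G l).IsHomogeneous (d l))
    (hlim : ∀ l m, Tendsto (fun k => (Gk k l).coeff m) atTop (𝓝 ((G l).coeff m)))
    (hX : ∀ f : ℂ → PN N, HolomorphicInto f Set.univ → (∀ z, f z ∈ zeroLocus G) →
      ∀ z w, f z = f w) {δ : ℝ} (hδ : 0 < δ) (hδ2 : δ ≤ 1 / 2) :
    ∃ ρ > 0, ∀ᶠ k in atTop, ∀ f : ℂ → PN N, HolomorphicInto f (Metric.ball 0 1) →
      (∀ z ∈ Metric.ball (0 : ℂ) 1, f z ∈ zeroLocus (Gk k)) →
      ∀ z ∈ Metric.ball (0 : ℂ) ρ, sep (f z) (f 0) ≤ δ := by
  by_contra hcon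
  push Not at hcon
  set K : ℕ → ℝ := fun j => (j : ℝ) + 1 with hK
  set r₀ : ℕ → ℝ := fun j => 1 / (4 * (K j + 1)) with hr₀
  have hKpos : ∀ j, 0 < K j := fun j => by
    simp only [hK]
    positivity
  have hr₀pos : ∀ j, 0 < r₀ j := fun j => by
    have := hKpos j
    simp only [hr₀]
    positivity
  have hKr : ∀ j, 2 * (K j + 1) * r₀ j ≤ 1 / 2 := fun j => by
    have := hKpos j
    simp only [hr₀]
    apply le_of_eq
    field_simp
    norm_num
  have hex : ∀ j : ℕ, ∃ (k : ℕ) (f : ℂ → PN N), j ≤ k ∧ HolomorphicInto f (Metric.ball 0 1) ∧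
      (∀ z ∈ Metric.ball (0 : ℂ) 1, f z ∈ zeroLocus (Gk k)) ∧ BadAt f δ 0 (r₀ j) := by
    intro j
    obtain ⟨k, hk1, f, hf1, hf2, z, hz1, hz2⟩ := (frequently_atTop.mp (hcon (r₀ j) (hr₀pos j))) j
    exact ⟨k, f, hk1, hf1, hf2, z, hz1, hz2⟩
  choose k f hk hf1 hf2 hf3 using hex
  choose a r ha hr hrr hbad hgood using fun j =>
    point_picking (hf1 j) hδ (hKpos j) (hr₀pos j) (hKr j) (hf3 j)
  choose y hy1 hy2 using hbad
  have hmaps : ∀ j, ∀ ζ ∈ Metric.ball (0 : ℂ) (K j + 1), a j + r j * ζ ∈ Metric.ball (0 : ℂ) 1 := by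
    intro j ζ hζ
    rw [mem_ball_zero_iff] at hζ ⊢
    have h1 : ‖a j + r j * ζ‖ ≤ ‖a j‖ + r j * ‖ζ‖ := by
      refine (norm_add_le _ _).trans ?_
      rw [norm_mul, Complex.norm_real, Real.norm_of_nonneg (hr j).le]
    have h2 := ha j
    have h3 := hKr j
    have h4 := hrr j
    have h5 := hKpos j
    have h6 := hr₀pos j
    have h7 : r j * ‖ζ‖ ≤ r₀ j * (K j + 1) := by gcongr
    nlinarith
  obtain ⟨F, hF1, hF2, z, w, hzw⟩ := brody_limit (fun j => hGk (k j)) hG
    (fun l m => (hlim l m).comp (tendsto_atTop_mono hk tendsto_id))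
    (g := fun j ζ => f j (a j + r j * ζ)) (K := K) (δ := δ)
    (ζ₁ := fun j => (y j - a j) / r j)
    (by
      simp only [hK]
      exact tendsto_atTop_add_const_right _ _ tendsto_natCast_atTop_atTop)
    (fun j => (hf1 j).comp (fun z _ => by fun_prop) (hmaps j))
    (fun j ζ hζ => hf2 j _ (hmaps j ζ hζ))
    (by
      intro j ζ hζ w hw
      have h1 : a j + r j * ζ ∈ Metric.ball (a j) (K j * r j) := by
        rw [mem_ball_iff_norm, add_sub_cancel_left, norm_mul, Complex.norm_real,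
          Real.norm_of_nonneg (hr j).le, mul_comm]
        rw [mem_ball_zero_iff] at hζ
        have := hr j
        gcongr
      have h2 := hgood j _ h1
      unfold BadAt at h2
      push Not at h2
      refine (h2 (a j + r j * w) ?_).trans hδ2
      rw [mem_ball_iff_norm] at hw ⊢
      have h3 : a j + r j * w - (a j + r j * ζ) = r j * (w - ζ) := by ring
      rw [h3, norm_mul, Complex.norm_real, Real.norm_of_nonneg (hr j).le]
      have := hr j
      nlinarith)
    hδ
    (by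
      intro j
      have h1 := hy1 j
      rw [mem_ball_iff_norm] at h1
      rw [mem_ball_zero_iff, norm_div, Complex.norm_real, Real.norm_of_nonneg (hr j).le,
        div_lt_one (hr j)]
      exact h1)
    (by
      intro j
      have h1 := hy2 j
      have h2 : (r j : ℂ) ≠ 0 := by exact_mod_cast (hr j).ne'
      have h3 : a j + r j * ((y j - a j) / r j) = y j := by
        field_simp
        ring
      have h4 : a j + (r j : ℂ) * 0 = a j := by ring
      simp only [h3, h4]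
      exact h1)
  exact hzw (hX F hF1 hF2 z w)

end Pool.Agent.H17
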