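import Mathlib

/-!
# Restriction of a polynomial to the lines through a point
-/

open MvPolynomial

namespace Pool.Agent.H17

variable {σ : Type}

/-- The restriction of `P` to the line `τ ↦ p + τ w`, as a polynomial in `τ`. -/
noncomputable def lineP (p w : σ → ℂ) (P : MvPolynomial σ ℂ) : Polynomial ℂ :=
  aeval (fun i => Polynomial.C (p i) + Polynomial.X * Polynomial.C (w i)) P

lemma lineP_eval (p w : σ → ℂ) (P : MvPolynomial σ ℂ) (τ : ℂ) :
    (lineP p w P).eval τ = eval (fun i => p i + τ * w i) P := by
  have h : (Polynomial.evalRingHom τ).comp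
      ((aeval (fun i => Polynomial.C (p i) + Polynomial.X * Polynomial.C (w i)) :
        MvPolynomial σ ℂ →ₐ[ℂ] Polynomial ℂ) : MvPolynomial σ ℂ →+* Polynomial ℂ)
      = eval (fun i => p i + τ * w i) := by
    apply MvPolynomial.ringHom_ext
    · intro r
      simp
    · intro i
      simp
      ring
  exact DFunLike.congr_fun h P

/-- The coefficient of `τ ^ j` in `P (p + τ w)` as a polynomial in the coordinates of `w`. -/
noncomputable def lineCoeff (p : σ → ℂ) (P : MvPolynomial σ ℂ) (j : ℕ) : MvPolynomial σ ℂ :=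
  (aeval (fun i => Polynomial.C (C (p i)) + Polynomial.X * Polynomial.C (X i)) P :
    Polynomial (MvPolynomial σ ℂ)).coeff j

lemma eval_lineCoeff (p w : σ → ℂ) (P : MvPolynomial σ ℂ) (j : ℕ) :
    eval w (lineCoeff p P j) = (lineP p w P).coeff j := by
  have h : (Polynomial.mapRingHom (eval w)).comp
      ((aeval (fun i => Polynomial.C (C (p i)) + Polynomial.X * Polynomial.C (X i)) :
        MvPolynomial σ ℂ →ₐ[ℂ] Polynomial (MvPolynomial σ ℂ)) :
          MvPolynomial σ ℂ →+* Polynomial (MvPolynomial σ ℂ))
      = ((aeval (fun i => Polynomial.C (p i) + Polynomial.X * Polynomial.C (w i)) :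
        MvPolynomial σ ℂ →ₐ[ℂ] Polynomial ℂ) : MvPolynomial σ ℂ →+* Polynomial ℂ) := by
    apply MvPolynomial.ringHom_ext
    · intro r
      simp
    · intro i
      simp
  have h2 := DFunLike.congr_fun h P
  have h3 : (lineP p w P) = Polynomial.map (eval w)
      (aeval (fun i => Polynomial.C (C (p i)) + Polynomial.X * Polynomial.C (X i)) P :
        Polynomial (MvPolynomial σ ℂ)) := h2.symm
  rw [h3, Polynomial.coeff_map]
  rfl

lemma lineP_natDegree_le (p w : σ → ℂ) {P : MvPolynomial σ ℂ} {d : ℕ}
    (hP : P.totalDegree ≤ d) : (lineP p w P).natDegree ≤ d := by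
  have := aeval_natDegree_le (m := d) (n := 1) P hP
    (fun i => Polynomial.C (p i) + Polynomial.X * Polynomial.C (w i)) (by
      intro i
      refine (Polynomial.natDegree_add_le _ _).trans ?_
      simp only [Polynomial.natDegree_C, zero_le, sup_of_le_right]
      refine (Polynomial.natDegree_mul_le).trans ?_
      simp)
  simpa [lineP] using this

lemma lineP_zero_right (p : σ → ℂ) (P : MvPolynomial σ ℂ) :
    lineP p 0 P = Polynomial.C (eval p P) := by
  apply Polynomial.funext
  intro τ
  rw [lineP_eval]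
  simp

lemma lineP_coeff_zero (p w : σ → ℂ) (P : MvPolynomial σ ℂ) :
    (lineP p w P).coeff 0 = eval p P := by
  rw [Polynomial.coeff_zero_eq_eval_zero, lineP_eval]
  simp

/-- Evaluation of a homogeneous polynomial at a multiple of a vector. -/
lemma eval_smul_of_isHomogeneous {P : MvPolynomial σ ℂ} {d : ℕ} (hP : P.IsHomogeneous d)
    (c : ℂ) (x : σ → ℂ) : eval (fun i => c * x i) P = c ^ d * eval x P := by
  classical
  rw [eval_eq, eval_eq, Finset.mul_sum]
  refine Finset.sum_congr rfl ?_
  intro m hm
  have hdeg : m.degree = d := by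
    by_contra hne
    exact (mem_support_iff.mp hm) (hP.coeff_eq_zero hne)
  have : ∏ i ∈ m.support, (c * x i) ^ m i = c ^ d * ∏ i ∈ m.support, x i ^ m i := by
    simp_rw [mul_pow]
    rw [Finset.prod_mul_distrib, Finset.prod_pow_eq_pow_sum]
    congr 2
  rw [this]
  ring

end Pool.Agent.H17
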