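import Pool.Agent.H17.EntireCurves

/-!
# Separation of points and charts of projective space
-/

open Topology Filter

namespace Pool.Agent.H17

variable {N : ℕ}

/-- The vector of the `2 × 2` minors. -/
def minors (v w : Fin (N + 1) → ℂ) : Fin (N + 1) × Fin (N + 1) → ℂ :=
  fun p => v p.1 * w p.2 - v p.2 * w p.1

/-- The separation of two vectors. -/
noncomputable def sepv (v w : Fin (N + 1) → ℂ) : ℝ := ‖minors v w‖ / (‖v‖ * ‖w‖)

/-- The separation of two points of projective space. -/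
noncomputable def sep (p q : PN N) : ℝ := sepv p.rep q.rep

lemma minors_smul (a b : ℂ) (v w : Fin (N + 1) → ℂ) :
    minors (a • v) (b • w) = (a * b) • minors v w := by
  funext p
  simp only [minors, Pi.smul_apply, smul_eq_mul]
  ring

lemma sepv_smul {a b : ℂ} (ha : a ≠ 0) (hb : b ≠ 0) (v w : Fin (N + 1) → ℂ) :
    sepv (a • v) (b • w) = sepv v w := by
  unfold sepv
  rw [minors_smul, norm_smul, norm_smul, norm_smul, norm_mul]
  have h1 := norm_pos_iff.mpr ha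
  have h2 := norm_pos_iff.mpr hb
  rw [show ‖a‖ * ‖v‖ * (‖b‖ * ‖w‖) = (‖a‖ * ‖b‖) * (‖v‖ * ‖w‖) by ring]
  rw [mul_div_mul_left _ _ (by positivity)]

lemma exists_smul_rep (v : Fin (N + 1) → ℂ) (hv : v ≠ 0) :
    ∃ a : ℂ, a ≠ 0 ∧ (Projectivization.mk ℂ v hv).rep = a • v := by
  obtain ⟨a, ha⟩ := Projectivization.exists_smul_eq_mk_rep ℂ v hv
  exact ⟨a, a.ne_zero, by rw [← ha]; rfl⟩

lemma sep_mk (v w : Fin (N + 1) → ℂ) (hv : v ≠ 0) (hw : w ≠ 0) :
    sep (Projectivization.mk ℂ v hv) (Projectivization.mk ℂ w hw) = sepv v w := by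
  obtain ⟨a, ha, h1⟩ := exists_smul_rep v hv
  obtain ⟨b, hb, h2⟩ := exists_smul_rep w hw
  unfold sep
  rw [h1, h2, sepv_smul ha hb]

lemma minors_self (v : Fin (N + 1) → ℂ) : minors v v = 0 := by
  funext p
  simp only [minors, Pi.zero_apply]
  ring

lemma minors_comm (v w : Fin (N + 1) → ℂ) : minors w v = - minors v w := by
  funext p
  simp only [minors, Pi.neg_apply]
  ring

lemma sep_self (p : PN N) : sep p p = 0 := by
  unfold sep sepv
  rw [minors_self]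
  simp

lemma sep_comm (p q : PN N) : sep p q = sep q p := by
  unfold sep sepv
  rw [minors_comm, norm_neg, mul_comm ‖q.rep‖]

/-- Vectors with vanishing minors are proportional. -/
lemma mk_eq_of_minors {v w : Fin (N + 1) → ℂ} (hv : v ≠ 0) (hw : w ≠ 0) (h : minors v w = 0) :
    Projectivization.mk ℂ v hv = Projectivization.mk ℂ w hw := by
  obtain ⟨i, hi⟩ : ∃ i, w i ≠ 0 := by
    by_contra hcon
    push Not at hcon
    exact hw (funext hcon)
  have hcross : ∀ j, v i * w j = v j * w i := fun j => by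
    have := congrFun h (i, j)
    simp only [minors, Pi.zero_apply] at this
    exact sub_eq_zero.mp this
  have hvi : v i ≠ 0 := by
    intro h0
    apply hv
    funext j
    have h1 := hcross j
    rw [h0, zero_mul] at h1
    exact (mul_eq_zero.mp h1.symm).resolve_right hi
  rw [Projectivization.mk_eq_mk_iff]
  refine ⟨Units.mk0 (v i / w i) (div_ne_zero hvi hi), ?_⟩
  funext j
  change v i / w i * w j = v j
  have h1 := hcross j
  field_simp
  linear_combination h1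

lemma eq_of_sepv_eq_zero {v w : Fin (N + 1) → ℂ} (hv : v ≠ 0) (hw : w ≠ 0) (h : sepv v w = 0) :
    Projectivization.mk ℂ v hv = Projectivization.mk ℂ w hw := by
  apply mk_eq_of_minors hv hw
  unfold sepv at h
  have h1 : ‖v‖ * ‖w‖ ≠ 0 := mul_ne_zero (norm_ne_zero_iff.mpr hv) (norm_ne_zero_iff.mpr hw)
  rcases div_eq_zero_iff.mp h with h2 | h2
  · exact norm_eq_zero.mp h2
  · exact absurd h2 h1

/-- Points which are close have comparable coordinates. -/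
lemma norm_le_two_mul {v w : Fin (N + 1) → ℂ} (hw : w ≠ 0) {i : Fin (N + 1)}
    (hi : ‖v i‖ = ‖v‖) (hv : v ≠ 0) (h : sepv v w ≤ 1 / 2) : ‖w‖ ≤ 2 * ‖w i‖ := by
  have hvpos := norm_pos_iff.mpr hv
  have hwpos := norm_pos_iff.mpr hw
  obtain ⟨j, -, hj⟩ := Finset.exists_mem_eq_sup (Finset.univ : Finset (Fin (N + 1)))
    Finset.univ_nonempty (fun j => ‖w j‖₊)
  have hj' : ‖w‖ = ‖w j‖ := by
    rw [Pi.norm_def, hj]
    rfl
  have h1 : ‖v i * w j - v j * w i‖ ≤ ‖minors v w‖ := norm_le_pi_norm (minors v w) (i, j)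
  have h2 : ‖minors v w‖ ≤ 1 / 2 * (‖v‖ * ‖w‖) := by
    unfold sepv at h
    rwa [div_le_iff₀ (by positivity)] at h
  have h3 : ‖v i * w j‖ ≤ ‖v i * w j - v j * w i‖ + ‖v j * w i‖ := by
    have := norm_add_le (v i * w j - v j * w i) (v j * w i)
    simpa using this
  rw [norm_mul, norm_mul, hi, ← hj'] at h3
  have h4 : ‖v j‖ ≤ ‖v‖ := norm_le_pi_norm v j
  have h5 : ‖v‖ * ‖w‖ ≤ 1 / 2 * (‖v‖ * ‖w‖) + ‖v‖ * ‖w i‖ := by
    calc ‖v‖ * ‖w‖ ≤ ‖v i * w j - v j * w i‖ + ‖v j‖ * ‖w i‖ := h3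
      _ ≤ 1 / 2 * (‖v‖ * ‖w‖) + ‖v‖ * ‖w i‖ := by
        gcongr
        exact h1.trans h2
  have h6 : ‖v‖ * ‖w‖ ≤ ‖v‖ * (2 * ‖w i‖) := by linarith
  exact le_of_mul_le_mul_left h6 hvpos

/-- Continuity of the separation. -/
lemma continuousAt_sepv {v w : Fin (N + 1) → ℂ} (hv : v ≠ 0) (hw : w ≠ 0) :
    ContinuousAt (fun p : (Fin (N + 1) → ℂ) × (Fin (N + 1) → ℂ) => sepv p.1 p.2) (v, w) := by
  unfold sepv
  refine ContinuousAt.div ?_ ?_ ?_
  · apply Continuous.continuousAt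
    refine Continuous.norm ?_
    refine continuous_pi fun q => ?_
    unfold minors
    fun_prop
  · fun_prop
  · exact mul_ne_zero (norm_ne_zero_iff.mpr hv) (norm_ne_zero_iff.mpr hw)

/-- The affine coordinates with respect to the `i`-th coordinate hyperplane. -/
noncomputable def chart (i : Fin (N + 1)) (p : PN N) : Fin (N + 1) → ℂ := (p.rep i)⁻¹ • p.rep

lemma chart_mk (i : Fin (N + 1)) (v : Fin (N + 1) → ℂ) (hv : v ≠ 0) :
    chart i (Projectivization.mk ℂ v hv) = (v i)⁻¹ • v := by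
  obtain ⟨a, ha, h1⟩ := exists_smul_rep v hv
  unfold chart
  rw [h1, smul_smul, Pi.smul_apply, smul_eq_mul]
  congr 1
  rw [mul_inv, mul_comm (a⁻¹), mul_assoc, inv_mul_cancel₀ ha, mul_one]

lemma chart_self {i : Fin (N + 1)} {p : PN N} (h : p.rep i ≠ 0) : chart i p i = 1 := by
  unfold chart
  rw [Pi.smul_apply, smul_eq_mul, inv_mul_cancel₀ h]

lemma chart_ne_zero {i : Fin (N + 1)} {p : PN N} (h : p.rep i ≠ 0) : chart i p ≠ 0 := by
  intro h0
  have := chart_self h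
  rw [h0] at this
  simp at this

lemma mk_chart {i : Fin (N + 1)} {p : PN N} (h : p.rep i ≠ 0) :
    Projectivization.mk ℂ (chart i p) (chart_ne_zero h) = p := by
  conv_rhs => rw [← p.mk_rep]
  rw [Projectivization.mk_eq_mk_iff]
  exact ⟨(Units.mk0 _ h)⁻¹, by
    rw [Units.smul_def]
    simp [chart]⟩

lemma norm_chart_le {i : Fin (N + 1)} {p : PN N} (h : ‖p.rep‖ ≤ 2 * ‖p.rep i‖) :
    ‖chart i p‖ ≤ 2 := by
  unfold chart
  rw [norm_smul, norm_inv]
  have h1 : 0 < ‖p.rep‖ := norm_pos_iff.mpr p.rep_nonzero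
  have h2 : 0 < ‖p.rep i‖ := by linarith
  rw [inv_mul_le_iff₀ h2]
  linarith

lemma rep_ne_zero_of_norm_le {i : Fin (N + 1)} {p : PN N} (h : ‖p.rep‖ ≤ 2 * ‖p.rep i‖) :
    p.rep i ≠ 0 := by
  intro h0
  rw [h0, norm_zero, mul_zero] at h
  exact absurd (norm_pos_iff.mpr p.rep_nonzero) (not_lt.mpr h)

/-- If the `i`-th coordinate does not vanish the affine coordinates are analytic. -/
lemma analyticAt_chart {f : ℂ → PN N} {φ : ℂ → Fin (N + 1) → ℂ} {z₀ : ℂ} (hφ : AnalyticAt ℂ φ z₀)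
    (hf : ∀ᶠ z in 𝓝 z₀, ∃ h : φ z ≠ 0, f z = Projectivization.mk ℂ (φ z) h) {i : Fin (N + 1)}
    (hi : (f z₀).rep i ≠ 0) : AnalyticAt ℂ (fun z => chart i (f z)) z₀ := by
  have hφj : ∀ j, AnalyticAt ℂ (fun z => φ z j) z₀ := analyticAt_pi_iff.mp hφ
  obtain ⟨h0, h1⟩ := hf.self_of_nhds
  have hφi : φ z₀ i ≠ 0 := by
    intro h
    apply hi
    obtain ⟨a, ha, h2⟩ := exists_smul_rep (φ z₀) h0
    rw [h1, h2, Pi.smul_apply, h, smul_zero]
  have h3 : AnalyticAt ℂ (fun z => (φ z i)⁻¹ • φ z) z₀ := ((hφj i).inv hφi).smul hφ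
  refine h3.congr ?_
  filter_upwards [hf] with z hz
  obtain ⟨h4, h5⟩ := hz
  rw [h5, chart_mk]

/-- Holomorphic maps into projective space are continuous for the separation. -/
lemma tendsto_sep {f : ℂ → PN N} {U : Set ℂ} (hf : HolomorphicInto f U) {z₀ : ℂ} (hz₀ : z₀ ∈ U) :
    Tendsto (fun p : ℂ × ℂ => sep (f p.1) (f p.2)) (𝓝 (z₀, z₀)) (𝓝 0) := by
  obtain ⟨φ, hφ, he⟩ := hf z₀ hz₀
  obtain ⟨h0, -⟩ := he.self_of_nhds
  have h1 := continuousAt_sepv h0 h0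
  have h2 : Tendsto (fun p : ℂ × ℂ => (φ p.1, φ p.2)) (𝓝 (z₀, z₀)) (𝓝 (φ z₀, φ z₀)) := by
    have h3 := hφ.continuousAt
    exact (h3.tendsto.comp (continuous_fst.tendsto' (z₀, z₀) z₀ rfl)).prodMk_nhds
      (h3.tendsto.comp (continuous_snd.tendsto' (z₀, z₀) z₀ rfl))
  have h3 := h1.tendsto.comp h2
  have h4 : sepv (φ z₀) (φ z₀) = 0 := by
    unfold sepv
    rw [minors_self]
    simp
  simp only [h4] at h3
  refine h3.congr' ?_
  have h5 : ∀ᶠ p : ℂ × ℂ in 𝓝 (z₀, z₀), (∃ h : φ p.1 ≠ 0, f p.1 = Projectivization.mk ℂ (φ p.1) h) ∧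
      (∃ h : φ p.2 ≠ 0, f p.2 = Projectivization.mk ℂ (φ p.2) h) := by
    rw [nhds_prod_eq]
    exact (he.prod_mk he)
  filter_upwards [h5] with p hp
  obtain ⟨⟨h6, h7⟩, h8, h9⟩ := hp
  rw [h7, h9, sep_mk]
  rfl

end Pool.Agent.H17
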