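import Pool.Agent.H17.Montel
import Pool.Agent.H17.Projective
import Pool.Agent.H17.LinePoly

/-!
# Limits of holomorphic curves in families of projective algebraic sets
-/

open Topology Filter

namespace Pool.Agent.H17

variable {N : ℕ}

/-- The common zero locus of a family of forms. -/
def zeroLocus {κ : Type} (G : κ → MvPolynomial (Fin (N + 1)) ℂ) : Set (PN N) :=
  {x | ∀ l, VanishesAt (G l) x}

lemma exists_norm_eq (v : Fin (N + 1) → ℂ) : ∃ i, ‖v i‖ = ‖v‖ := by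
  obtain ⟨j, -, hj⟩ := Finset.exists_mem_eq_sup (Finset.univ : Finset (Fin (N + 1)))
    Finset.univ_nonempty (fun j => ‖v j‖₊)
  exact ⟨j, by rw [Pi.norm_def, hj]; rfl⟩

lemma eval_eq_sum_antidiag {P : MvPolynomial (Fin (N + 1)) ℂ} {d : ℕ} (hP : P.IsHomogeneous d)
    (v : Fin (N + 1) → ℂ) : MvPolynomial.eval v P =
      ∑ m ∈ Finset.finsuppAntidiag (Finset.univ : Finset (Fin (N + 1))) d,
        P.coeff m * ∏ i, v i ^ m i := by
  rw [MvPolynomial.eval_eq']
  apply Finset.sum_subset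
  · intro m hm
    rw [Finset.mem_finsuppAntidiag]
    refine ⟨?_, Finset.subset_univ _⟩
    have h1 := hP (MvPolynomial.mem_support_iff.mp hm)
    rw [← h1, Finsupp.weight_apply, Finsupp.sum_fintype]
    · simp
    · simp
  · intro m _ hm
    rw [MvPolynomial.notMem_support_iff.mp hm, zero_mul]

lemma tendsto_eval {α : Type*} {p : Filter α} {P : α → MvPolynomial (Fin (N + 1)) ℂ}
    {Q : MvPolynomial (Fin (N + 1)) ℂ} {d : ℕ} (hP : ∀ k, (P k).IsHomogeneous d)
    (hQ : Q.IsHomogeneous d) (hlim : ∀ m, Tendsto (fun k => (P k).coeff m) p (𝓝 (Q.coeff m)))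
    {v : α → Fin (N + 1) → ℂ} {v₀ : Fin (N + 1) → ℂ} (hv : Tendsto v p (𝓝 v₀)) :
    Tendsto (fun k => MvPolynomial.eval (v k) (P k)) p (𝓝 (MvPolynomial.eval v₀ Q)) := by
  simp_rw [fun k => eval_eq_sum_antidiag (hP k) (v k), eval_eq_sum_antidiag hQ v₀]
  refine tendsto_finsetSum _ fun m _ => (hlim m).mul ?_
  refine tendsto_finsetProd _ fun i _ => ?_
  exact (((continuous_apply i).tendsto v₀).comp hv).pow _

lemma vanishesAt_mk_iff {P : MvPolynomial (Fin (N + 1)) ℂ} {d : ℕ} (hP : P.IsHomogeneous d)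
    (v : Fin (N + 1) → ℂ) (hv : v ≠ 0) :
    VanishesAt P (Projectivization.mk ℂ v hv) ↔ MvPolynomial.eval v P = 0 := by
  obtain ⟨a, ha, h1⟩ := exists_smul_rep v hv
  unfold VanishesAt
  have h2 : (a • v) = fun k => a * v k := by
    funext k
    simp
  rw [h1, h2, eval_smul_of_isHomogeneous hP]
  constructor
  · intro h
    exact (mul_eq_zero.mp h).resolve_left (pow_ne_zero _ ha)
  · intro h
    rw [h, mul_zero]

lemma eval_chart_eq_zero {P : MvPolynomial (Fin (N + 1)) ℂ} {d : ℕ} (hP : P.IsHomogeneous d)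
    {x : PN N} (hx : VanishesAt P x) (i : Fin (N + 1)) : MvPolynomial.eval (chart i x) P = 0 := by
  unfold chart
  have h2 : ((x.rep i)⁻¹ • x.rep) = fun k => (x.rep i)⁻¹ * x.rep k := by
    funext k
    simp
  rw [h2, eval_smul_of_isHomogeneous hP]
  unfold VanishesAt at hx
  rw [hx, mul_zero]

lemma ultrafilter_exists_eq {α : Type*} (𝒰 : Ultrafilter α) {β : Type*} [Finite β] (m : α → β) :
    ∃ i, ∀ᶠ k in (𝒰 : Filter α), m k = i := by
  by_contra h
  push Not at h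
  have h2 := (eventually_all.mpr h).exists
  obtain ⟨k, hk⟩ := h2
  exact hk (m k) rfl

/-- **The limit curve.** -/
theorem brody_limit {κ : Type} {d : κ → ℕ} {Gk : ℕ → κ → MvPolynomial (Fin (N + 1)) ℂ}
    {G : κ → MvPolynomial (Fin (N + 1)) ℂ} (hGk : ∀ k l, (Gk k l).IsHomogeneous (d l))
    (hG : ∀ l, (G l).IsHomogeneous (d l))
    (hlim : ∀ l m, Tendsto (fun k => (Gk k l).coeff m) atTop (𝓝 ((G l).coeff m)))
    {g : ℕ → ℂ → PN N} {K : ℕ → ℝ} (hK : Tendsto K atTop atTop)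
    (hg : ∀ k, HolomorphicInto (g k) (Metric.ball 0 (K k + 1)))
    (hgX : ∀ k, ∀ z ∈ Metric.ball (0 : ℂ) (K k + 1), g k z ∈ zeroLocus (Gk k))
    (hsep : ∀ k, ∀ ζ ∈ Metric.ball (0 : ℂ) (K k), ∀ w ∈ Metric.ball ζ (1 / 2),
      sep (g k w) (g k ζ) ≤ 1 / 2)
    {δ : ℝ} (hδ : 0 < δ) {ζ₁ : ℕ → ℂ} (hζ : ∀ k, ζ₁ k ∈ Metric.ball (0 : ℂ) 1)
    (hfar : ∀ k, δ < sep (g k (ζ₁ k)) (g k 0)) :
    ∃ f : ℂ → PN N, HolomorphicInto f Set.univ ∧ (∀ z, f z ∈ zeroLocus G) ∧
      ∃ z w, f z ≠ f w := by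
  classical
  set 𝒰 : Ultrafilter ℕ := hyperfilter ℕ with h𝒰
  have h𝒰top : (𝒰 : Filter ℕ) ≤ atTop := by
    rw [← Nat.cofinite_eq_atTop]
    exact hyperfilter_le_cofinite
  have hKev : ∀ a : ℂ, ∀ᶠ k in (𝒰 : Filter ℕ), a ∈ Metric.ball (0 : ℂ) (K k) := by
    intro a
    have h1 : ∀ᶠ k in atTop, ‖a‖ < K k := hK.eventually_gt_atTop ‖a‖
    filter_upwards [h𝒰top h1] with k hk
    rw [mem_ball_zero_iff]
    exact hk
  -- the dominating coordinate
  have hidx : ∀ a, ∃ i, ∀ᶠ k in (𝒰 : Filter ℕ), ‖(g k a).rep i‖ = ‖(g k a).rep‖ := by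
    intro a
    choose m hm using fun k => exists_norm_eq (g k a).rep
    obtain ⟨i, hi⟩ := ultrafilter_exists_eq 𝒰 m
    refine ⟨i, ?_⟩
    filter_upwards [hi] with k hk
    rw [← hk]
    exact hm k
  choose i hi using hidx
  have hdom : ∀ a, ∀ᶠ k in (𝒰 : Filter ℕ), ∀ z ∈ Metric.ball a (1 / 2),
      ‖(g k z).rep‖ ≤ 2 * ‖(g k z).rep (i a)‖ := by
    intro a
    filter_upwards [hKev a, hi a] with k hk1 hk2 z hz
    refine norm_le_two_mul (g k z).rep_nonzero hk2 (g k a).rep_nonzero ?_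
    have h1 := hsep k a hk1 z hz
    rw [sep_comm] at h1
    exact h1
  have hmem : ∀ a, ∀ᶠ k in (𝒰 : Filter ℕ), ∀ z ∈ Metric.ball a (1 / 2),
      z ∈ Metric.ball (0 : ℂ) (K k + 1) := by
    intro a
    filter_upwards [hKev a] with k hk z hz
    rw [mem_ball_zero_iff] at hk ⊢
    rw [mem_ball_iff_norm] at hz
    have h1 : ‖z‖ ≤ ‖z - a‖ + ‖a‖ := by
      have := norm_add_le (z - a) a
      simpa using this
    linarith
  have hdiff : ∀ a, ∀ᶠ k in (𝒰 : Filter ℕ),
      DifferentiableOn ℂ (fun z => chart (i a) (g k z)) (Metric.ball a (1 / 2)) := by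
    intro a
    filter_upwards [hdom a, hmem a] with k hk1 hk2 z hz
    obtain ⟨φ, hφ, he⟩ := hg k z (hk2 z hz)
    exact (analyticAt_chart hφ he (rep_ne_zero_of_norm_le
      (hk1 z hz))).differentiableAt.differentiableWithinAt
  have hbdd : ∀ a, ∀ᶠ k in (𝒰 : Filter ℕ), ∀ z ∈ Metric.ball a (1 / 2),
      ‖chart (i a) (g k z)‖ ≤ 2 := by
    intro a
    filter_upwards [hdom a] with k hk z hz
    exact norm_chart_le (hk z hz)
  choose h hhdiff hhconv using fun a => montel_ultrafilter 𝒰 (hdiff a) (hbdd a)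
  have hpt : ∀ a, ∀ z ∈ Metric.ball a (1 / 2),
      Tendsto (fun k => chart (i a) (g k z)) (𝒰 : Filter ℕ) (𝓝 (h a z)) := fun a z hz =>
    (hhconv a).tendsto_at hz
  have hone : ∀ a, ∀ z ∈ Metric.ball a (1 / 2), h a z (i a) = 1 := by
    intro a z hz
    have h1 : Tendsto (fun k => chart (i a) (g k z) (i a)) (𝒰 : Filter ℕ) (𝓝 (h a z (i a))) :=
      ((continuous_apply (i a)).tendsto _).comp (hpt a z hz)
    have h2 : ∀ᶠ k in (𝒰 : Filter ℕ), chart (i a) (g k z) (i a) = 1 := by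
      filter_upwards [hdom a] with k hk
      exact chart_self (rep_ne_zero_of_norm_le (hk z hz))
    exact tendsto_nhds_unique h1 ((tendsto_congr' h2).mpr tendsto_const_nhds)
  have hne : ∀ a, ∀ z ∈ Metric.ball a (1 / 2), h a z ≠ 0 := by
    intro a z hz h0
    have := hone a z hz
    rw [h0] at this
    simp at this
  have hself : ∀ a : ℂ, a ∈ Metric.ball a (1 / 2) := fun a => Metric.mem_ball_self (by norm_num)
  set f : ℂ → PN N := fun z => Projectivization.mk ℂ (h z z) (hne z z (hself z)) with hf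
  have hfa : ∀ a, ∀ z, ∀ hz : z ∈ Metric.ball a (1 / 2),
      f z = Projectivization.mk ℂ (h a z) (hne a z hz) := by
    intro a z hz
    apply mk_eq_of_minors
    have h1 : Tendsto (fun k => minors (chart (i z) (g k z)) (chart (i a) (g k z)))
        (𝒰 : Filter ℕ) (𝓝 (minors (h z z) (h a z))) := by
      have hc : Continuous fun p : (Fin (N + 1) → ℂ) × (Fin (N + 1) → ℂ) => minors p.1 p.2 := by
        refine continuous_pi fun q => ?_
        unfold minors
        fun_prop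
      exact (hc.tendsto _).comp ((hpt z z (hself z)).prodMk_nhds (hpt a z hz))
    have h2 : ∀ k, minors (chart (i z) (g k z)) (chart (i a) (g k z)) = 0 := by
      intro k
      unfold chart
      rw [minors_smul, minors_self, smul_zero]
    simp only [h2] at h1
    exact tendsto_nhds_unique h1 tendsto_const_nhds
  refine ⟨f, ?_, ?_, ?_⟩
  · -- holomorphic
    intro z₀ _
    refine ⟨h z₀, (hhdiff z₀).analyticAt (Metric.isOpen_ball.mem_nhds (hself z₀)), ?_⟩
    filter_upwards [Metric.isOpen_ball.mem_nhds (hself z₀)] with z hz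
    exact ⟨hne z₀ z hz, hfa z₀ z hz⟩
  · -- in the zero locus
    intro z l
    rw [hf]
    rw [vanishesAt_mk_iff (hG l)]
    have h1 : Tendsto (fun k => MvPolynomial.eval (chart (i z) (g k z)) (Gk k l)) (𝒰 : Filter ℕ)
        (𝓝 (MvPolynomial.eval (h z z) (G l))) :=
      tendsto_eval (fun k => hGk k l) (hG l) (fun m => (hlim l m).mono_left h𝒰top)
        (hpt z z (hself z))
    have h2 : ∀ᶠ k in (𝒰 : Filter ℕ),
        MvPolynomial.eval (chart (i z) (g k z)) (Gk k l) = 0 := by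
      filter_upwards [hmem z] with k hk
      exact eval_chart_eq_zero (hGk k l) (hgX k z (hk z (hself z)) l) _
    exact tendsto_nhds_unique h1 ((tendsto_congr' h2).mpr tendsto_const_nhds)
  · -- nonconstant
    obtain ⟨ζ', hζ'mem, hζ'⟩ : ∃ ζ' ∈ Metric.closedBall (0 : ℂ) 1,
        Tendsto ζ₁ (𝒰 : Filter ℕ) (𝓝 ζ') := by
      have hmemc : ∀ᶠ k in (𝒰 : Filter ℕ), ζ₁ k ∈ Metric.closedBall (0 : ℂ) 1 :=
        Eventually.of_forall fun k => Metric.ball_subset_closedBall (hζ k)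
      obtain ⟨l, hl1, hl2⟩ := (isCompact_closedBall (0 : ℂ) 1).ultrafilter_le_nhds (𝒰.map ζ₁) (by
        rw [le_principal_iff]
        exact hmemc)
      exact ⟨l, hl1, hl2⟩
    refine ⟨ζ', 0, fun heq => ?_⟩
    have hball : ∀ᶠ k in (𝒰 : Filter ℕ), ζ₁ k ∈ Metric.ball ζ' (1 / 2) :=
      hζ'.eventually (Metric.isOpen_ball.mem_nhds (hself ζ'))
    have h1 : Tendsto (fun k => chart (i ζ') (g k (ζ₁ k))) (𝒰 : Filter ℕ) (𝓝 (h ζ' ζ')) := by
      refine (hhconv ζ').tendsto_comp ?_ (hself ζ') ?_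
      · exact (hhdiff ζ').continuousOn ζ' (hself ζ')
      · exact tendsto_nhdsWithin_iff.mpr ⟨hζ', hball⟩
    have h2 := hpt 0 0 (hself 0)
    have h3 := (continuousAt_sepv (hne ζ' ζ' (hself ζ')) (hne 0 0 (hself 0))).tendsto.comp
      (h1.prodMk_nhds h2)
    have h4 : ∀ᶠ k in (𝒰 : Filter ℕ), δ ≤ ((fun p : (Fin (N + 1) → ℂ) × (Fin (N + 1) → ℂ) =>
        sepv p.1 p.2) ∘ fun k => (chart (i ζ') (g k (ζ₁ k)), chart (i 0) (g k 0))) k := by
      filter_upwards [hdom ζ', hdom 0, hball] with k hk1 hk2 hk3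
      have h5 := rep_ne_zero_of_norm_le (hk1 (ζ₁ k) hk3)
      have h6 := rep_ne_zero_of_norm_le (hk2 0 (hself 0))
      simp only [Function.comp_apply]
      unfold chart
      rw [sepv_smul (inv_ne_zero h5) (inv_ne_zero h6)]
      exact (hfar k).le
    have h7 := ge_of_tendsto h3 h4
    have h8 : sepv (h ζ' ζ') (h 0 0) = 0 := by
      rw [← sep_mk _ _ (hne ζ' ζ' (hself ζ')) (hne 0 0 (hself 0))]
      have h9 : Projectivization.mk ℂ (h ζ' ζ') (hne ζ' ζ' (hself ζ')) =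
          Projectivization.mk ℂ (h 0 0) (hne 0 0 (hself 0)) := heq
      rw [h9, sep_self]
    simp only [h8] at h7
    linarith

end Pool.Agent.H17
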