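import Mathlib

/-!
# The pointwise inequality behind the Ahlfors–Schwarz lemma

If `Re H + α log ∑ exp (Re Lᵢ) + β log (R² - |z|²)` has a local maximum at `z₀`, with `H`, `Lᵢ`
holomorphic, then the curvature term of the middle summand is bounded by that of the last one.
-/

open Topology Filter Complex ComplexConjugate

namespace Pool.Agent.H17

/-- Second derivative test at a local maximum. -/
lemma second_deriv_nonpos {f f' : ℝ → ℝ} {c : ℝ} (h1 : ∀ᶠ s in 𝓝 (0 : ℝ), HasDerivAt f (f' s) s)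
    (h2 : HasDerivAt f' c 0) (hmax : IsLocalMax f 0) : c ≤ 0 := by
  by_contra hc
  push Not at hc
  have hd0 : f' 0 = 0 := hmax.hasDerivAt_eq_zero h1.self_of_nhds
  have hde : deriv f =ᶠ[𝓝 0] f' := h1.mono fun s hs => hs.deriv
  have hdd : deriv (deriv f) 0 = c := by
    rw [hde.deriv_eq, h2.deriv]
  have hmin : IsLocalMin f 0 := isLocalMin_of_deriv_deriv_pos (by rw [hdd]; exact hc)
    (by rw [h1.self_of_nhds.deriv, hd0]) h1.self_of_nhds.continuousAt
  have hconst : f =ᶠ[𝓝 0] fun _ => f 0 := by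
    filter_upwards [hmin, hmax] with s h3 h4
    exact le_antisymm h4 h3
  have h5 : deriv f =ᶠ[𝓝 0] fun _ => (0 : ℝ) := by
    have := hconst.deriv
    refine this.trans ?_
    refine Eventually.of_forall fun s => ?_
    simp
  have h6 : deriv (deriv f) 0 = 0 := by
    rw [h5.deriv_eq]; simp
  rw [hdd] at h6
  linarith

/-- The real part of a holomorphic function along a real line. -/
lemma hasDerivAt_re_line {L : ℂ → ℂ} {L' : ℂ} {z₀ v : ℂ} {s : ℝ}
    (h : HasDerivAt L L' (z₀ + s * v)) :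
    HasDerivAt (fun t : ℝ => (L (z₀ + t * v)).re) (L' * v).re s := by
  have hγ : HasDerivAt (fun t : ℝ => z₀ + (t : ℂ) * v) v s := by
    have h0 : HasDerivAt (fun t : ℝ => (t : ℂ)) 1 s := Complex.ofRealCLM.hasDerivAt
    simpa using (h0.mul_const v).const_add z₀
  have h1 : HasDerivAt (fun t : ℝ => L (z₀ + (t : ℂ) * v)) (v • L') s := by
    have := HasDerivAt.scomp s h hγ
    exact this
  have h2 := (Complex.reCLM.hasFDerivAt.comp_hasDerivAt s h1)
  have h3 : Complex.reCLM (v • L') = (L' * v).re := by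
    simp [mul_comm]
  rw [← h3]
  exact h2

lemma hasDerivAt_line {L : ℂ → ℂ} (z₀ v : ℂ) (hL : AnalyticAt ℂ L z₀) :
    (∀ᶠ s : ℝ in 𝓝 (0 : ℝ), HasDerivAt (fun t : ℝ => (L (z₀ + t * v)).re)
      (deriv L (z₀ + s * v) * v).re s) ∧
    HasDerivAt (fun s : ℝ => (deriv L (z₀ + s * v) * v).re) (deriv (deriv L) z₀ * v * v).re 0 := by
  constructor
  · have hev : ∀ᶠ z in 𝓝 z₀, HasDerivAt L (deriv L z) z :=
      hL.eventually_analyticAt.mono fun z hz => hz.differentiableAt.hasDerivAt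
    have hcont : Tendsto (fun s : ℝ => z₀ + (s : ℂ) * v) (𝓝 0) (𝓝 z₀) := by
      have : Continuous (fun s : ℝ => z₀ + (s : ℂ) * v) := by fun_prop
      have h := this.tendsto 0
      simpa using h
    filter_upwards [hcont.eventually hev] with s hs
    exact hasDerivAt_re_line hs
  · have h2 : HasDerivAt (fun z => deriv L z * v) (deriv (deriv L) z₀ * v) z₀ :=
      (hL.deriv.differentiableAt.hasDerivAt).mul_const v
    have h3 : HasDerivAt (fun z => deriv L z * v) (deriv (deriv L) z₀ * v) (z₀ + (0 : ℝ) * v) := by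
      simpa using h2
    exact hasDerivAt_re_line h3

/-- The second derivative along a line of the function considered in the main lemma. -/
lemma second_deriv_line {ι : Type} [Fintype ι] [Nonempty ι] {z₀ v : ℂ} {R α β : ℝ} {H : ℂ → ℂ}
    {L : ι → ℂ → ℂ}
    (hH : AnalyticAt ℂ H z₀) (hL : ∀ i, AnalyticAt ℂ (L i) z₀) (hz : ‖z₀‖ < R)
    (hmax : IsLocalMax (fun z => (H z).re + α * Real.log (∑ i, Real.exp (L i z).re) +
      β * Real.log (R ^ 2 - ‖z‖ ^ 2)) z₀) :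
    (deriv (deriv H) z₀ * v * v).re +
      α * (((∑ i, Real.exp (L i z₀).re * ((deriv (L i) z₀ * v).re ^ 2 +
          (deriv (deriv (L i)) z₀ * v * v).re)) * (∑ i, Real.exp (L i z₀).re) -
        (∑ i, Real.exp (L i z₀).re * (deriv (L i) z₀ * v).re) ^ 2) /
          (∑ i, Real.exp (L i z₀).re) ^ 2) +
      β * ((-2 * ‖v‖ ^ 2 * (R ^ 2 - ‖z₀‖ ^ 2) - (2 * (z₀ * conj v).re) ^ 2) /
        (R ^ 2 - ‖z₀‖ ^ 2) ^ 2) ≤ 0 := by
  classical
  -- the restriction to the line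
  obtain ⟨hH1, hH2⟩ := hasDerivAt_line z₀ v hH
  have hL1 : ∀ᶠ s : ℝ in 𝓝 (0 : ℝ), ∀ i, HasDerivAt (fun t : ℝ => (L i (z₀ + t * v)).re)
      (deriv (L i) (z₀ + s * v) * v).re s :=
    eventually_all.mpr fun i => (hasDerivAt_line z₀ v (hL i)).1
  have hL2 : ∀ i, HasDerivAt (fun s : ℝ => (deriv (L i) (z₀ + s * v) * v).re)
      (deriv (deriv (L i)) z₀ * v * v).re 0 := fun i => (hasDerivAt_line z₀ v (hL i)).2
  have hL0 : ∀ i, HasDerivAt (fun t : ℝ => (L i (z₀ + t * v)).re)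
      (deriv (L i) (z₀ + (0 : ℝ) * v) * v).re 0 := fun i => hL1.self_of_nhds i
  set h : ι → ℝ → ℝ := fun i t => (L i (z₀ + t * v)).re with hh
  set h' : ι → ℝ → ℝ := fun i t => (deriv (L i) (z₀ + t * v) * v).re with hh'
  set M : ℝ → ℝ := fun t => R ^ 2 - (‖z₀‖ ^ 2 + 2 * t * (z₀ * conj v).re + t ^ 2 * ‖v‖ ^ 2) with hM
  set M' : ℝ → ℝ := fun t => - (2 * (z₀ * conj v).re + 2 * t * ‖v‖ ^ 2) with hM'
  have hnorm : ∀ t : ℝ, ‖z₀ + (t : ℂ) * v‖ ^ 2 = ‖z₀‖ ^ 2 + 2 * t * (z₀ * conj v).re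
      + t ^ 2 * ‖v‖ ^ 2 := by
    intro t
    rw [Complex.sq_norm, Complex.normSq_add, Complex.sq_norm, Complex.sq_norm, Complex.normSq_mul,
      Complex.normSq_ofReal, map_mul, Complex.conj_ofReal]
    have : (z₀ * ((t : ℂ) * conj v)).re = t * (z₀ * conj v).re := by
      rw [← Complex.re_ofReal_mul]
      congr 1
      ring
    rw [this]
    ring
  have hMd : ∀ t, HasDerivAt M (M' t) t := by
    intro t
    have h1 : HasDerivAt (fun t : ℝ => 2 * t * (z₀ * conj v).re) (2 * (z₀ * conj v).re) t := by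
      simpa using ((hasDerivAt_id t).const_mul (2 : ℝ)).mul_const ((z₀ * conj v).re)
    have h2 : HasDerivAt (fun t : ℝ => t ^ 2 * ‖v‖ ^ 2) (2 * t * ‖v‖ ^ 2) t := by
      simpa using (hasDerivAt_pow 2 t).mul_const (‖v‖ ^ 2)
    have h3 := (((hasDerivAt_const t (‖z₀‖ ^ 2)).add h1).add h2).const_sub (R ^ 2)
    refine h3.congr_deriv ?_
    simp [hM']
  have hM'd : HasDerivAt M' (-(2 * ‖v‖ ^ 2)) 0 := by
    have h1 : HasDerivAt (fun t : ℝ => 2 * t * ‖v‖ ^ 2) (2 * ‖v‖ ^ 2) 0 := by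
      simpa using ((hasDerivAt_id (0 : ℝ)).const_mul (2 : ℝ)).mul_const (‖v‖ ^ 2)
    have h3 := ((hasDerivAt_const (0 : ℝ) (2 * (z₀ * conj v).re)).add h1).neg
    refine h3.congr_deriv ?_
    simp
  have hM0 : M 0 = R ^ 2 - ‖z₀‖ ^ 2 := by simp [hM]
  have hMpos : 0 < M 0 := by
    rw [hM0]
    have := norm_nonneg z₀
    nlinarith
  have hMev : ∀ᶠ t in 𝓝 (0 : ℝ), 0 < M t :=
    (hMd 0).continuousAt.eventually (lt_mem_nhds hMpos)
  set u : ℝ → ℝ := fun t => ∑ i, Real.exp (h i t) with hu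
  set u' : ℝ → ℝ := fun t => ∑ i, Real.exp (h i t) * h' i t with hu'
  have hupos : ∀ t, 0 < u t := fun t => Finset.sum_pos (fun i _ => Real.exp_pos _)
    Finset.univ_nonempty
  have hud : ∀ᶠ s in 𝓝 (0 : ℝ), HasDerivAt u (u' s) s := by
    filter_upwards [hL1] with s hs
    exact HasDerivAt.fun_sum fun i _ => (hs i).exp
  have hu'd : HasDerivAt u' (∑ i, (Real.exp (h i 0) * h' i 0 * h' i 0 +
      Real.exp (h i 0) * (deriv (deriv (L i)) z₀ * v * v).re)) 0 := by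
    exact HasDerivAt.fun_sum fun i _ => ((hL0 i).exp).mul (hL2 i)
  have hφ1 : ∀ᶠ s : ℝ in 𝓝 (0 : ℝ), HasDerivAt (fun t : ℝ => (H (z₀ + t * v)).re +
      α * Real.log (u t) + β * Real.log (M t))
      ((deriv H (z₀ + s * v) * v).re + α * (u' s / u s) + β * (M' s / M s)) s := by
    filter_upwards [hH1, hud, hMev] with s h1 h2 h3
    exact (h1.add ((h2.log (hupos s).ne').const_mul α)).add
      (((hMd s).log h3.ne').const_mul β)
  have hφ2 : HasDerivAt (fun s : ℝ => (deriv H (z₀ + s * v) * v).re + α * (u' s / u s) +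
      β * (M' s / M s)) ((deriv (deriv H) z₀ * v * v).re +
      α * (((∑ i, (Real.exp (h i 0) * h' i 0 * h' i 0 +
      Real.exp (h i 0) * (deriv (deriv (L i)) z₀ * v * v).re)) * u 0 - u' 0 * u' 0) / u 0 ^ 2) +
      β * ((-(2 * ‖v‖ ^ 2) * M 0 - M' 0 * M' 0) / M 0 ^ 2)) 0 := by
    exact (hH2.add ((hu'd.div hud.self_of_nhds (hupos 0).ne').const_mul α)).add
      ((hM'd.div (hMd 0) hMpos.ne').const_mul β)
  have hloc : IsLocalMax (fun t : ℝ => (H (z₀ + t * v)).re +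
      α * Real.log (u t) + β * Real.log (M t)) 0 := by
    have hcont : Tendsto (fun s : ℝ => z₀ + (s : ℂ) * v) (𝓝 0) (𝓝 z₀) := by
      have : Continuous (fun s : ℝ => z₀ + (s : ℂ) * v) := by fun_prop
      have h := this.tendsto 0
      simpa using h
    have h1 := hcont.eventually hmax
    filter_upwards [h1] with t ht
    have e1 : ∀ t : ℝ, M t = R ^ 2 - ‖z₀ + (t : ℂ) * v‖ ^ 2 := by
      intro t
      rw [hnorm t]
    rw [e1, e1]
    simpa [hu, hh] using ht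
  have hfin := second_deriv_nonpos hφ1 hφ2 hloc
  have e0 : ∀ i, h i 0 = (L i z₀).re := by
    intro i; simp [hh]
  have e0' : ∀ i, h' i 0 = (deriv (L i) z₀ * v).re := by
    intro i; simp [hh']
  have eu : u 0 = ∑ i, Real.exp (L i z₀).re := by simp [hu, e0]
  have eu' : u' 0 = ∑ i, Real.exp (L i z₀).re * (deriv (L i) z₀ * v).re := by
    simp only [hu', e0, e0']
  have eM' : M' 0 = - (2 * (z₀ * conj v).re) := by simp [hM']
  rw [eu, eu', eM', hM0] at hfin
  simp only [e0, e0'] at hfin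
  convert hfin using 5
  · congr 2
    · apply Finset.sum_congr rfl
      intro i _
      ring
    · ring
  · ring
  · ring

lemma split_identity (a1 a2 S1 S2 T1 T2 U m n1 n2 α β : ℝ) (h : a1 + a2 = 0) :
    α * (((S1 + S2) * U - (T1 + T2)) / U ^ 2) + β * ((n1 + n2) / m ^ 2) =
      (a1 + α * ((S1 * U - T1) / U ^ 2) + β * (n1 / m ^ 2)) +
        (a2 + α * ((S2 * U - T2) / U ^ 2) + β * (n2 / m ^ 2)) := by
  linear_combination -h

/-- **Core inequality.** -/
theorem core_inequality {ι : Type} [Fintype ι] [Nonempty ι] {z₀ : ℂ} {R α β : ℝ} {H : ℂ → ℂ}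
    {L : ι → ℂ → ℂ}
    (hH : AnalyticAt ℂ H z₀) (hL : ∀ i, AnalyticAt ℂ (L i) z₀) (hz : ‖z₀‖ < R)
    (hmax : IsLocalMax (fun z => (H z).re + α * Real.log (∑ i, Real.exp (L i z).re) +
      β * Real.log (R ^ 2 - ‖z‖ ^ 2)) z₀) :
    α * (((∑ i, Real.exp (L i z₀).re * ‖deriv (L i) z₀‖ ^ 2) * (∑ i, Real.exp (L i z₀).re) -
        ‖∑ i, (Real.exp (L i z₀).re : ℂ) * deriv (L i) z₀‖ ^ 2) /
          (∑ i, Real.exp (L i z₀).re) ^ 2) ≤
      β * (4 * R ^ 2 / (R ^ 2 - ‖z₀‖ ^ 2) ^ 2) := by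
  have h1 := second_deriv_line (v := 1) hH hL hz hmax
  have h2 := second_deriv_line (v := Complex.I) hH hL hz hmax
  have hm : 0 < R ^ 2 - ‖z₀‖ ^ 2 := by
    have := norm_nonneg z₀
    nlinarith
  set m := R ^ 2 - ‖z₀‖ ^ 2 with hmdef
  set E : ι → ℝ := fun i => Real.exp (L i z₀).re with hE
  set U : ℝ := ∑ i, E i with hU
  have hUpos : 0 < U := Finset.sum_pos (fun i _ => Real.exp_pos _) Finset.univ_nonempty
  have e1 : (deriv (deriv H) z₀ * 1 * 1).re + (deriv (deriv H) z₀ * Complex.I * Complex.I).re = 0 := by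
    simp
  have e2 : (∑ i, E i * ((deriv (L i) z₀ * 1).re ^ 2 + (deriv (deriv (L i)) z₀ * 1 * 1).re)) +
      (∑ i, E i * ((deriv (L i) z₀ * Complex.I).re ^ 2 +
        (deriv (deriv (L i)) z₀ * Complex.I * Complex.I).re)) =
      ∑ i, E i * ‖deriv (L i) z₀‖ ^ 2 := by
    rw [← Finset.sum_add_distrib]
    refine Finset.sum_congr rfl fun i _ => ?_
    rw [Complex.sq_norm, Complex.normSq_apply]
    simp
    ring
  have e3 : (∑ i, E i * (deriv (L i) z₀ * 1).re) ^ 2 +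
      (∑ i, E i * (deriv (L i) z₀ * Complex.I).re) ^ 2 =
      ‖∑ i, (E i : ℂ) * deriv (L i) z₀‖ ^ 2 := by
    rw [Complex.sq_norm, Complex.normSq_apply, Complex.re_sum, Complex.im_sum]
    have a1 : ∀ i, ((E i : ℂ) * deriv (L i) z₀).re = E i * (deriv (L i) z₀ * 1).re := by
      intro i; simp
    have a2 : ∀ i, ((E i : ℂ) * deriv (L i) z₀).im = - (E i * (deriv (L i) z₀ * Complex.I).re) := by
      intro i; simp
    simp_rw [a1, a2]
    rw [Finset.sum_neg_distrib]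
    ring
  have e4 : (2 * (z₀ * conj (1 : ℂ)).re) ^ 2 + (2 * (z₀ * conj Complex.I).re) ^ 2 = 4 * ‖z₀‖ ^ 2 := by
    rw [Complex.sq_norm, Complex.normSq_apply]
    simp
    ring
  have hsum := add_le_add h1 h2
  have key : α * (((∑ i, E i * ‖deriv (L i) z₀‖ ^ 2) * U -
        ‖∑ i, (E i : ℂ) * deriv (L i) z₀‖ ^ 2) / U ^ 2) + β * (-(4 * R ^ 2) / m ^ 2) ≤ 0 := by
    refine le_trans (le_of_eq ?_) (hsum.trans (by simp))
    rw [← e2, ← e3]
    have e5 : -(4 * R ^ 2) = (-2 * ‖(1 : ℂ)‖ ^ 2 * m - (2 * (z₀ * conj (1 : ℂ)).re) ^ 2) +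
        (-2 * ‖Complex.I‖ ^ 2 * m - (2 * (z₀ * conj Complex.I).re) ^ 2) := by
      have : R ^ 2 = m + ‖z₀‖ ^ 2 := by rw [hmdef]; ring
      rw [this]
      simp only [norm_one, Complex.norm_I]
      linear_combination e4
    rw [e5]
    exact split_identity _ _ _ _ _ _ _ _ _ _ _ _ e1
  have : β * (-(4 * R ^ 2) / m ^ 2) = - (β * (4 * R ^ 2 / m ^ 2)) := by ring
  rw [this] at key
  linarith

end Pool.Agent.H17
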