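import Pool.Agent.H17.AhlforsCore

/-!
# A vanishing theorem of Ahlfors–Schwarz type

`r i` are entire functions (without identically vanishing ones), `U = ∑ |r i|`, and `V` is the
variance of the logarithmic derivatives `r i' / r i` with weights `|r i| / U`.  If an entire
function `g` satisfies `|g|^2 U^a ≤ C ∏ |r i| V^ρ` with `a > 0`, and `V` is locally bounded, then
`g = 0`.
-/

open Topology Filter Complex

namespace Pool.Agent.H17

/-- A holomorphic logarithm near a point where the function does not vanish. -/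
lemma exists_local_log {f : ℂ → ℂ} {z₀ : ℂ} (hf : AnalyticAt ℂ f z₀) (h0 : f z₀ ≠ 0) :
    ∃ L : ℂ → ℂ, AnalyticAt ℂ L z₀ ∧ (∀ᶠ z in 𝓝 z₀, f z = Complex.exp (L z)) ∧
      deriv L z₀ = deriv f z₀ / f z₀ := by
  have h1 : AnalyticAt ℂ (fun z => Complex.log (f z / f z₀) + Complex.log (f z₀)) z₀ := by
    refine AnalyticAt.add (AnalyticAt.clog ?_ ?_) analyticAt_const
    · exact hf.div analyticAt_const h0
    · rw [div_self h0]
      exact Complex.one_mem_slitPlane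
  have h2 : ∀ᶠ z in 𝓝 z₀, f z = Complex.exp (Complex.log (f z / f z₀) + Complex.log (f z₀)) := by
    filter_upwards [hf.continuousAt.eventually_ne h0] with z hz
    rw [Complex.exp_add, Complex.exp_log (div_ne_zero hz h0), Complex.exp_log h0,
      div_mul_cancel₀ _ h0]
  refine ⟨_, h1, h2, ?_⟩
  have h3 : deriv f z₀ = deriv (fun z => Complex.exp
      (Complex.log (f z / f z₀) + Complex.log (f z₀))) z₀ :=
    Filter.EventuallyEq.deriv_eq h2
  have h4 := (h1.differentiableAt.hasDerivAt.cexp).deriv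
  rw [h4] at h3
  have h5 : Complex.exp (Complex.log (f z₀ / f z₀) + Complex.log (f z₀)) = f z₀ :=
    h2.self_of_nhds.symm
  rw [h5] at h3
  rw [h3]
  field_simp

section

variable {ι : Type} [Fintype ι]

/-- `∑ |r i|`. -/
noncomputable def sumNorm (r : ι → ℂ → ℂ) (z : ℂ) : ℝ := ∑ i, ‖r i z‖

/-- The variance of the logarithmic derivatives. -/
noncomputable def logVar (r : ι → ℂ → ℂ) (z : ℂ) : ℝ :=
  ((∑ i, ‖r i z‖ * ‖deriv (r i) z / r i z‖ ^ 2) * sumNorm r z -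
    ‖∑ i, (‖r i z‖ : ℂ) * (deriv (r i) z / r i z)‖ ^ 2) / (sumNorm r z) ^ 2

/-- `|g|^2 U^a / ∏ |r i|`. -/
noncomputable def weightFn (r : ι → ℂ → ℂ) (g : ℂ → ℂ) (a : ℕ) (z : ℂ) : ℝ :=
  ‖g z‖ ^ 2 * sumNorm r z ^ a / ∏ i, ‖r i z‖

/-- The estimate at an interior maximum. -/
lemma logVar_le_at_max [Nonempty ι] {r : ι → ℂ → ℂ} {g : ℂ → ℂ} {a k ρ : ℕ} (ha : 0 < a)
    (hk : 0 < k) {R : ℝ} {S : Finset ℂ} {z₀ : ℂ} (hr : ∀ i, AnalyticAt ℂ (r i) z₀)
    (hg : AnalyticAt ℂ g z₀) (hz : ‖z₀‖ < R) (hS : z₀ ∉ S) (hr0 : ∀ i, r i z₀ ≠ 0)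
    (hg0 : g z₀ ≠ 0)
    (hmax : IsLocalMax (fun z => weightFn r g a z ^ k * (R ^ 2 - ‖z‖ ^ 2) ^ (2 * ρ * k) *
      ∏ s ∈ S, ‖z - s‖) z₀) :
    logVar r z₀ ≤ 8 * ρ * R ^ 2 / (R ^ 2 - ‖z₀‖ ^ 2) ^ 2 := by
  classical
  choose L hL hLe hLd using fun i => exists_local_log (hr i) (hr0 i)
  obtain ⟨G, hG, hGe, -⟩ := exists_local_log hg hg0
  have hsub : ∀ s : S, AnalyticAt ℂ (fun z => z - (s : ℂ)) z₀ := fun s =>
    analyticAt_id.sub analyticAt_const
  have hsub0 : ∀ s : S, z₀ - (s : ℂ) ≠ 0 := fun s h => hS (by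
    rw [sub_eq_zero] at h; rw [h]; exact s.2)
  choose P hP hPe hPd using fun s : S => exists_local_log (hsub s) (hsub0 s)
  set H : ℂ → ℂ := fun z => 2 * k * G z - k * ∑ i, L i z + ∑ s : S, P s z with hH
  have hHan : AnalyticAt ℂ H z₀ := by
    refine ((analyticAt_const.mul hG).sub (analyticAt_const.mul ?_)).add ?_
    · exact Finset.analyticAt_fun_sum _ fun i _ => hL i
    · exact Finset.analyticAt_fun_sum _ fun s _ => hP s
  have hmpos : ∀ᶠ z in 𝓝 z₀, 0 < R ^ 2 - ‖z‖ ^ 2 := by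
    have hc : ContinuousAt (fun z : ℂ => R ^ 2 - ‖z‖ ^ 2) z₀ := by fun_prop
    refine hc.eventually (lt_mem_nhds ?_)
    have := norm_nonneg z₀
    nlinarith
  -- the function is the exponential of the function in the core inequality
  have hexp : ∀ᶠ z in 𝓝 z₀, weightFn r g a z ^ k * (R ^ 2 - ‖z‖ ^ 2) ^ (2 * ρ * k) *
      ∏ s ∈ S, ‖z - s‖ = Real.exp ((H z).re + (k * a : ℕ) * Real.log (∑ i, Real.exp (L i z).re) +
        (2 * ρ * k : ℕ) * Real.log (R ^ 2 - ‖z‖ ^ 2)) := by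
    filter_upwards [eventually_all.mpr hLe, hGe, eventually_all.mpr hPe, hmpos]
      with z h1 h2 h3 h4
    have n1 : ∀ i, ‖r i z‖ = Real.exp (L i z).re := fun i => by
      rw [h1 i, Complex.norm_exp]
    have n2 : ‖g z‖ = Real.exp (G z).re := by rw [h2, Complex.norm_exp]
    have n3 : ∀ s : S, ‖z - s‖ = Real.exp (P s z).re := fun s => by
      rw [h3 s, Complex.norm_exp]
    have hUpos : 0 < ∑ i, Real.exp (L i z).re :=
      Finset.sum_pos (fun i _ => Real.exp_pos _) Finset.univ_nonempty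
    unfold weightFn sumNorm
    simp_rw [n1]
    rw [n2, ← Finset.prod_coe_sort S]
    simp_rw [n3]
    rw [← Real.exp_sum, ← Real.exp_sum]
    have hHre : (H z).re = 2 * k * (G z).re - k * ∑ i, (L i z).re + ∑ s : S, (P s z).re := by
      simp only [hH, Complex.add_re, Complex.sub_re, Complex.re_sum]
      have c1 : ((2 : ℂ) * (k : ℂ) * G z).re = 2 * k * (G z).re := by
        have : (2 : ℂ) * (k : ℂ) = ((2 * k : ℝ) : ℂ) := by push_cast; ring
        rw [this, Complex.re_ofReal_mul]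
      have c2 : ((k : ℂ) * ∑ i, L i z).re = k * ∑ i, (L i z).re := by
        have : (k : ℂ) = ((k : ℝ) : ℂ) := by push_cast; ring
        rw [this, Complex.re_ofReal_mul, Complex.re_sum]
      rw [c1, c2]
    rw [hHre, Real.exp_add, Real.exp_add, Real.exp_add, Real.exp_sub]
    have d1 : Real.exp ((k * a : ℕ) * Real.log (∑ i, Real.exp (L i z).re)) =
        (∑ i, Real.exp (L i z).re) ^ (k * a) := by
      rw [Real.exp_nat_mul, Real.exp_log hUpos]
    have d2 : Real.exp ((2 * ρ * k : ℕ) * Real.log (R ^ 2 - ‖z‖ ^ 2)) =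
        (R ^ 2 - ‖z‖ ^ 2) ^ (2 * ρ * k) := by
      rw [Real.exp_nat_mul, Real.exp_log h4]
    have d3 : Real.exp (2 * k * (G z).re) = (Real.exp (G z).re ^ 2) ^ k := by
      rw [← pow_mul, ← Real.exp_nat_mul]
      push_cast
      ring_nf
    have d4 : Real.exp (k * ∑ i, (L i z).re) = (Real.exp (∑ i, (L i z).re)) ^ k := by
      rw [← Real.exp_nat_mul]
    rw [d1, d2, d3, d4, div_pow, mul_pow, mul_comm k a, pow_mul (∑ i, Real.exp (L i z).re) a k]
    ring
  have hmax' : IsLocalMax (fun z => (H z).re + ((k * a : ℕ) : ℝ) *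
      Real.log (∑ i, Real.exp (L i z).re) +
        ((2 * ρ * k : ℕ) : ℝ) * Real.log (R ^ 2 - ‖z‖ ^ 2)) z₀ := by
    filter_upwards [hmax, hexp] with z h1 h2
    rw [h2, hexp.self_of_nhds] at h1
    exact Real.exp_le_exp.mp h1
  have hcore := core_inequality hHan hL hz hmax'
  have q1 : ∀ i, Real.exp (L i z₀).re = ‖r i z₀‖ := fun i => by
    rw [(hLe i).self_of_nhds, Complex.norm_exp]
  simp_rw [q1, hLd] at hcore
  have hcore' : ((k * a : ℕ) : ℝ) * logVar r z₀ ≤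
      ((2 * ρ * k : ℕ) : ℝ) * (4 * R ^ 2 / (R ^ 2 - ‖z₀‖ ^ 2) ^ 2) := hcore
  by_cases hV : logVar r z₀ ≤ 0
  · refine hV.trans ?_
    positivity
  · push Not at hV
    have hkpos : (0 : ℝ) < k := by exact_mod_cast hk
    have ha1 : (1 : ℝ) ≤ a := by exact_mod_cast ha
    push_cast at hcore'
    have h5 : (k : ℝ) * logVar r z₀ ≤ k * a * logVar r z₀ := by
      have : 0 ≤ (k : ℝ) * logVar r z₀ * (a - 1) := by
        apply mul_nonneg (by positivity)
        linarith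
      linarith
    have h6 : (k : ℝ) * logVar r z₀ ≤ k * (8 * ρ * R ^ 2 / (R ^ 2 - ‖z₀‖ ^ 2) ^ 2) := by
      refine h5.trans (hcore'.trans (le_of_eq ?_))
      ring
    exact le_of_mul_le_mul_left h6 hkpos

/-- Cauchy–Schwarz. -/
lemma logVar_nonneg (r : ι → ℂ → ℂ) (z : ℂ) : 0 ≤ logVar r z := by
  unfold logVar
  apply div_nonneg _ (sq_nonneg _)
  rw [sub_nonneg]
  set x : ι → ℂ := fun i => deriv (r i) z / r i z with hx
  have h1 : ‖∑ i, (‖r i z‖ : ℂ) * x i‖ ≤ ∑ i, ‖r i z‖ * ‖x i‖ := by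
    refine (norm_sum_le _ _).trans (le_of_eq ?_)
    refine Finset.sum_congr rfl fun i _ => ?_
    rw [norm_mul, Complex.norm_real, norm_norm]
  have h2 : (∑ i, ‖r i z‖ * ‖x i‖) ^ 2 ≤ (∑ i, ‖r i z‖) * ∑ i, ‖r i z‖ * ‖x i‖ ^ 2 := by
    have h3 := Finset.sum_mul_sq_le_sq_mul_sq Finset.univ (fun i => Real.sqrt ‖r i z‖)
      (fun i => Real.sqrt ‖r i z‖ * ‖x i‖)
    have e1 : ∀ i, Real.sqrt ‖r i z‖ * (Real.sqrt ‖r i z‖ * ‖x i‖) = ‖r i z‖ * ‖x i‖ := by
      intro i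
      rw [← mul_assoc, Real.mul_self_sqrt (norm_nonneg _)]
    have e2 : ∀ i, Real.sqrt ‖r i z‖ ^ 2 = ‖r i z‖ := fun i => Real.sq_sqrt (norm_nonneg _)
    have e3 : ∀ i, (Real.sqrt ‖r i z‖ * ‖x i‖) ^ 2 = ‖r i z‖ * ‖x i‖ ^ 2 := by
      intro i
      rw [mul_pow, e2]
    simp only [e1, e2, e3] at h3
    exact h3
  calc ‖∑ i, (‖r i z‖ : ℂ) * x i‖ ^ 2 ≤ (∑ i, ‖r i z‖ * ‖x i‖) ^ 2 := by gcongr
    _ ≤ (∑ i, ‖r i z‖) * ∑ i, ‖r i z‖ * ‖x i‖ ^ 2 := h2
    _ = _ := mul_comm _ _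

lemma weightFn_nonneg (r : ι → ℂ → ℂ) (g : ℂ → ℂ) (a : ℕ) (z : ℂ) : 0 ≤ weightFn r g a z := by
  unfold weightFn sumNorm
  positivity

/-- Zeros of a nonzero entire function are isolated. -/
lemma eventually_ne_zero_of_entire {f : ℂ → ℂ} (hf : Differentiable ℂ f) (h0 : ∃ z, f z ≠ 0)
    (s : ℂ) : ∀ᶠ z in 𝓝[≠] s, f z ≠ 0 := by
  rcases (hf.analyticAt s).eventually_eq_zero_or_eventually_ne_zero with h | h
  · exfalso
    obtain ⟨z, hz⟩ := h0
    have hana : AnalyticOnNhd ℂ f Set.univ := fun z _ => hf.analyticAt z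
    exact hz (hana.eqOn_zero_of_preconnected_of_eventuallyEq_zero isPreconnected_univ
      (Set.mem_univ s) h (Set.mem_univ z))
  · exact h

lemma finite_zeros {r : ι → ℂ → ℂ} (hr : ∀ i, Differentiable ℂ (r i))
    (hr0 : ∀ i, ∃ z, r i z ≠ 0) (R : ℝ) :
    {z ∈ Metric.closedBall (0 : ℂ) R | ∃ i, r i z = 0}.Finite := by
  by_contra hinf
  obtain ⟨x, -, hx⟩ := Set.Infinite.exists_accPt_of_subset_isCompact hinf
    (isCompact_closedBall (0 : ℂ) R) (fun z hz => hz.1)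
  have h1 : ∀ᶠ z in 𝓝[≠] x, ∀ i, r i z ≠ 0 :=
    eventually_all.mpr fun i => eventually_ne_zero_of_entire (hr i) (hr0 i) x
  rw [accPt_iff_frequently_nhdsNE] at hx
  obtain ⟨z, hz1, hz2⟩ := (hx.and_eventually h1).exists
  obtain ⟨i, hi⟩ := hz1.2
  exact hz2 i hi

lemma le_of_forall_pow_mul_le {x y P Q : ℝ} (hP : 0 < P) (hy : 0 ≤ y)
    (h : ∀ k : ℕ, 0 < k → x ^ k * P ≤ y ^ k * Q) : x ≤ y := by
  by_contra hxy
  push Not at hxy
  have hx : 0 < x := hy.trans_lt hxy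
  have h1 : Tendsto (fun k : ℕ => (y / x) ^ k * Q) atTop (𝓝 (0 * Q)) := by
    apply Tendsto.mul_const
    exact tendsto_pow_atTop_nhds_zero_of_lt_one (by positivity) ((div_lt_one hx).mpr hxy)
  have h2 : ∀ᶠ k : ℕ in atTop, P ≤ (y / x) ^ k * Q := by
    filter_upwards [eventually_gt_atTop 0] with k hk
    have h3 := h k hk
    rw [div_pow, div_mul_eq_mul_div, le_div_iff₀ (by positivity), mul_comm P]
    exact h3
  have h3 := ge_of_tendsto h1 h2
  rw [zero_mul] at h3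
  linarith

lemma weightFn_continuousAt {r : ι → ℂ → ℂ} {g : ℂ → ℂ} (hr : ∀ i, Differentiable ℂ (r i))
    (hg : Differentiable ℂ g) (a : ℕ) {z : ℂ} (hz : ∀ i, r i z ≠ 0) :
    ContinuousAt (weightFn r g a) z := by
  unfold weightFn sumNorm
  have h1 : ∀ i, Continuous (fun z => ‖r i z‖) := fun i => (hr i).continuous.norm
  have h2 : Continuous (fun z => ‖g z‖) := hg.continuous.norm
  refine ContinuousAt.div ?_ ?_ ?_
  · exact ((h2.pow 2).mul ((continuous_finsetSum _ fun i _ => h1 i).pow a)).continuousAt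
  · exact (continuous_finsetProd _ fun i _ => h1 i).continuousAt
  · exact Finset.prod_ne_zero_iff.mpr fun i _ => norm_ne_zero_iff.mpr (hz i)

/-- **Vanishing theorem.** -/
theorem vanishing_of_bound [Nonempty ι] {r : ι → ℂ → ℂ} {g : ℂ → ℂ} {a ρ : ℕ} (ha : 0 < a)
    (hρ : 0 < ρ) (hr : ∀ i, Differentiable ℂ (r i)) (hr0 : ∀ i, ∃ z, r i z ≠ 0)
    (hg : Differentiable ℂ g) {C : ℝ} (hC : 0 ≤ C)
    (hbound : ∀ z, (∀ i, r i z ≠ 0) →
      ‖g z‖ ^ 2 * sumNorm r z ^ a ≤ C * (∏ i, ‖r i z‖) * logVar r z ^ ρ)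
    (hloc : ∀ s, ∃ B, ∀ᶠ z in 𝓝[≠] s, logVar r z ≤ B) (z : ℂ) : g z = 0 := by
  classical
  by_contra hgz
  -- a good point
  obtain ⟨z₀, hz₀g, hz₀r⟩ : ∃ z₀, g z₀ ≠ 0 ∧ ∀ i, r i z₀ ≠ 0 := by
    have h1 := eventually_ne_zero_of_entire hg ⟨z, hgz⟩ z
    have h2 : ∀ᶠ w in 𝓝[≠] z, ∀ i, r i w ≠ 0 :=
      eventually_all.mpr fun i => eventually_ne_zero_of_entire (hr i) (hr0 i) z
    exact (h1.and h2).exists
  have hprod : ∀ z, (∀ i, r i z ≠ 0) → 0 < ∏ i, ‖r i z‖ := fun z hz =>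
    Finset.prod_pos fun i _ => norm_pos_iff.mpr (hz i)
  have hwb : ∀ z, (∀ i, r i z ≠ 0) → weightFn r g a z ≤ C * logVar r z ^ ρ := by
    intro z hz
    unfold weightFn
    rw [div_le_iff₀ (hprod z hz)]
    refine (hbound z hz).trans (le_of_eq ?_)
    ring
  set w₀ := weightFn r g a z₀ with hw₀
  have hw₀pos : 0 < w₀ := by
    rw [hw₀]
    unfold weightFn
    apply div_pos _ (hprod z₀ hz₀r)
    apply mul_pos (pow_pos (norm_pos_iff.mpr hz₀g) 2)
    apply pow_pos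
    exact Finset.sum_pos (fun i _ => norm_pos_iff.mpr (hz₀r i)) Finset.univ_nonempty
  -- the estimate for every radius
  have key : ∀ R : ℝ, ‖z₀‖ < R → w₀ * (R ^ 2 - ‖z₀‖ ^ 2) ^ (2 * ρ) ≤ C * (8 * ρ * R ^ 2) ^ ρ := by
    intro R hR
    have hRpos : 0 < R := (norm_nonneg _).trans_lt hR
    set S : Finset ℂ := (finite_zeros hr hr0 R).toFinset with hS
    have hSmem : ∀ z, z ∈ S ↔ z ∈ Metric.closedBall (0 : ℂ) R ∧ ∃ i, r i z = 0 := by
      intro z
      rw [hS, Set.Finite.mem_toFinset]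
      rfl
    have hnotS : ∀ z, z ∈ Metric.closedBall (0 : ℂ) R → z ∉ S → ∀ i, r i z ≠ 0 := by
      intro z hz hzS i hi
      exact hzS ((hSmem z).mpr ⟨hz, i, hi⟩)
    have hz₀S : z₀ ∉ S := by
      intro h
      obtain ⟨i, hi⟩ := ((hSmem z₀).mp h).2
      exact hz₀r i hi
    have hz₀ball : z₀ ∈ Metric.closedBall (0 : ℂ) R := by
      rw [mem_closedBall_zero_iff]; exact hR.le
    have hPpos : ∀ z, z ∉ S → 0 < ∏ s ∈ S, ‖z - s‖ := by
      intro z hz
      refine Finset.prod_pos fun s hs => norm_pos_iff.mpr (sub_ne_zero.mpr ?_)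
      rintro rfl
      exact hz hs
    have hm0 : 0 < R ^ 2 - ‖z₀‖ ^ 2 := by
      have := norm_nonneg z₀
      nlinarith
    refine le_of_forall_pow_mul_le (hPpos z₀ hz₀S) (Q := (2 * R) ^ S.card) (by positivity) ?_
    intro k hk
    set Φ : ℂ → ℝ := fun z => weightFn r g a z ^ k * (R ^ 2 - ‖z‖ ^ 2) ^ (2 * ρ * k) *
      ∏ s ∈ S, ‖z - s‖ with hΦ
    have hΦcont : ContinuousOn Φ (Metric.closedBall (0 : ℂ) R) := by
      intro z hz
      apply ContinuousAt.continuousWithinAt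
      have hc1 : Continuous fun z : ℂ => (R ^ 2 - ‖z‖ ^ 2) ^ (2 * ρ * k) := by fun_prop
      by_cases hzS : z ∈ S
      · rw [continuousAt_iff_punctured_nhds]
        have hΦz : Φ z = 0 := by
          simp only [hΦ]
          rw [Finset.prod_eq_zero hzS (by simp), mul_zero]
        rw [hΦz]
        obtain ⟨B, hB⟩ := hloc z
        have hne : ∀ᶠ w in 𝓝[≠] z, ∀ i, r i w ≠ 0 :=
          eventually_all.mpr fun i => eventually_ne_zero_of_entire (hr i) (hr0 i) z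
        have hrest : Tendsto (fun w : ℂ => (R ^ 2 - ‖w‖ ^ 2) ^ (2 * ρ * k) *
            ∏ s ∈ S.erase z, ‖w - s‖) (𝓝[≠] z) (𝓝 ((R ^ 2 - ‖z‖ ^ 2) ^ (2 * ρ * k) *
            ∏ s ∈ S.erase z, ‖z - s‖)) := by
          have : Continuous fun w : ℂ => (R ^ 2 - ‖w‖ ^ 2) ^ (2 * ρ * k) *
            ∏ s ∈ S.erase z, ‖w - s‖ := by
            refine hc1.mul (continuous_finsetProd _ fun s _ => ?_)
            fun_prop
          exact (this.tendsto z).mono_left nhdsWithin_le_nhds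
        have hmain : Tendsto (fun w => weightFn r g a w ^ k * ‖w - z‖) (𝓝[≠] z) (𝓝 0) := by
          have h1 : Tendsto (fun w : ℂ => (C * (max B 0) ^ ρ) ^ k * ‖w - z‖) (𝓝[≠] z)
              (𝓝 0) := by
            have : Continuous fun w : ℂ => (C * (max B 0) ^ ρ) ^ k * ‖w - z‖ := by fun_prop
            have h2 := (this.tendsto z).mono_left (nhdsWithin_le_nhds (s := {z}ᶜ))
            simpa using h2
          refine squeeze_zero' ?_ ?_ h1
          · filter_upwards with w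
            have := weightFn_nonneg r g a w
            positivity
          · filter_upwards [hB, hne] with w hw1 hw2
            have h3 : weightFn r g a w ≤ C * (max B 0) ^ ρ := by
              refine (hwb w hw2).trans ?_
              have := logVar_nonneg r w
              gcongr
              exact hw1.trans (le_max_left _ _)
            have := weightFn_nonneg r g a w
            gcongr
        have h4 := hmain.mul hrest
        rw [zero_mul] at h4
        refine h4.congr ?_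
        intro w
        simp only [hΦ]
        rw [← Finset.mul_prod_erase S _ hzS]
        ring
      · have h1 := weightFn_continuousAt hr hg a (hnotS z hz hzS)
        have hc2 : Continuous fun w : ℂ => ∏ s ∈ S, ‖w - s‖ := by
          refine continuous_finsetProd _ fun s _ => ?_
          fun_prop
        exact ((h1.pow k).mul hc1.continuousAt).mul hc2.continuousAt
    obtain ⟨zm, hzm, hmax⟩ := (isCompact_closedBall (0 : ℂ) R).exists_isMaxOn
      ⟨z₀, hz₀ball⟩ hΦcont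
    have hΦ₀pos : 0 < Φ z₀ := by
      simp only [hΦ]
      have := hPpos z₀ hz₀S
      positivity
    have hΦm : Φ z₀ ≤ Φ zm := hmax hz₀ball
    have hΦmpos : 0 < Φ zm := hΦ₀pos.trans_le hΦm
    have hkρ : 2 * ρ * k ≠ 0 := by positivity
    have hzmS : zm ∉ S := by
      intro h
      have : Φ zm = 0 := by
        simp only [hΦ]
        rw [Finset.prod_eq_zero h (by simp), mul_zero]
      linarith
    have hzmR : ‖zm‖ < R := by
      rcases lt_or_eq_of_le (mem_closedBall_zero_iff.mp hzm) with h | h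
      · exact h
      · exfalso
        have : Φ zm = 0 := by
          simp only [hΦ]
          rw [h, sub_self, zero_pow hkρ]
          ring
        linarith
    have hzmr : ∀ i, r i zm ≠ 0 := hnotS zm hzm hzmS
    have hzmg : g zm ≠ 0 := by
      intro h
      have : Φ zm = 0 := by
        simp only [hΦ, weightFn, h]
        simp [hk.ne']
      linarith
    have hlocmax : IsLocalMax Φ zm := by
      refine hmax.isLocalMax ?_
      exact Filter.mem_of_superset (Metric.isOpen_ball.mem_nhds (by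
        rw [mem_ball_zero_iff]; exact hzmR)) Metric.ball_subset_closedBall
    have hV := logVar_le_at_max (ρ := ρ) ha hk (fun i => (hr i).analyticAt zm) (hg.analyticAt zm) hzmR
      hzmS hzmr hzmg hlocmax
    have hVnn := logVar_nonneg r zm
    have hmm : 0 < R ^ 2 - ‖zm‖ ^ 2 := by
      have := norm_nonneg zm
      nlinarith
    have hw1 : weightFn r g a zm * (R ^ 2 - ‖zm‖ ^ 2) ^ (2 * ρ) ≤ C * (8 * ρ * R ^ 2) ^ ρ := by
      calc weightFn r g a zm * (R ^ 2 - ‖zm‖ ^ 2) ^ (2 * ρ)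
          ≤ (C * (8 * ρ * R ^ 2 / (R ^ 2 - ‖zm‖ ^ 2) ^ 2) ^ ρ) * (R ^ 2 - ‖zm‖ ^ 2) ^ (2 * ρ) := by
            gcongr
            refine (hwb zm hzmr).trans ?_
            gcongr
        _ = C * (8 * ρ * R ^ 2) ^ ρ := by
            rw [div_pow, ← pow_mul]
            field_simp
    have hprodle : ∏ s ∈ S, ‖zm - s‖ ≤ (2 * R) ^ S.card := by
      rw [← Finset.prod_const]
      refine Finset.prod_le_prod (fun s _ => norm_nonneg _) fun s hs => ?_
      have h1 := ((hSmem s).mp hs).1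
      rw [mem_closedBall_zero_iff] at h1
      refine (norm_sub_le _ _).trans ?_
      linarith
    have e0 : Φ z₀ = (w₀ * (R ^ 2 - ‖z₀‖ ^ 2) ^ (2 * ρ)) ^ k * ∏ s ∈ S, ‖z₀ - s‖ := by
      simp only [hΦ]
      rw [mul_pow, ← pow_mul]
    have em : Φ zm = (weightFn r g a zm * (R ^ 2 - ‖zm‖ ^ 2) ^ (2 * ρ)) ^ k *
        ∏ s ∈ S, ‖zm - s‖ := by
      simp only [hΦ]
      rw [mul_pow, ← pow_mul]
    rw [← e0]
    refine hΦm.trans ?_
    rw [em]
    have hnn := weightFn_nonneg r g a zm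
    have := (hPpos zm hzmS).le
    gcongr
  -- let the radius tend to infinity
  have h2 : ∀ R : ℝ, 1 ≤ R → 2 * ‖z₀‖ ^ 2 + 1 ≤ R → w₀ * (R ^ 2) ^ ρ ≤ C * (32 * ρ) ^ ρ := by
    intro R hR1 hR2
    have hRR : R ≤ R ^ 2 := by nlinarith
    have h3 : ‖z₀‖ < R := by
      have := norm_nonneg z₀
      nlinarith [sq_nonneg (‖z₀‖ - 1)]
    have h4 := key R h3
    have h5 : R ^ 2 / 2 ≤ R ^ 2 - ‖z₀‖ ^ 2 := by linarith
    have h6 : w₀ * (R ^ 2 / 2) ^ (2 * ρ) ≤ C * (8 * ρ * R ^ 2) ^ ρ := by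
      refine le_trans ?_ h4
      gcongr
    have hRpos : 0 < (R ^ 2) ^ ρ := by positivity
    have h7 : (w₀ * (R ^ 2) ^ ρ) * (R ^ 2) ^ ρ ≤ (C * (32 * ρ) ^ ρ) * (R ^ 2) ^ ρ := by
      have e1 : (w₀ * (R ^ 2) ^ ρ) * (R ^ 2) ^ ρ = 4 ^ ρ * (w₀ * (R ^ 2 / 2) ^ (2 * ρ)) := by
        rw [pow_mul (R ^ 2 / 2) 2 ρ, div_pow, div_pow]
        have : ((2 : ℝ) ^ 2) ^ ρ = 4 ^ ρ := by norm_num
        rw [this]
        have h8 : ((R ^ 2) ^ 2) ^ ρ = (R ^ 2) ^ ρ * (R ^ 2) ^ ρ := by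
          rw [← mul_pow]
          congr 1
          ring
        rw [h8]
        field_simp
      have e2 : (C * (32 * ρ) ^ ρ) * (R ^ 2) ^ ρ = 4 ^ ρ * (C * (8 * ρ * R ^ 2) ^ ρ) := by
        have : (32 * (ρ : ℝ)) ^ ρ * (R ^ 2) ^ ρ = 4 ^ ρ * (8 * ρ * R ^ 2) ^ ρ := by
          rw [← mul_pow, ← mul_pow]
          congr 1
          ring
        linear_combination C * this
      rw [e1, e2]
      gcongr
    exact le_of_mul_le_mul_right h7 hRpos
  have h3 : Tendsto (fun R : ℝ => w₀ * (R ^ 2) ^ ρ) atTop atTop := by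
    apply Tendsto.const_mul_atTop hw₀pos
    exact (tendsto_pow_atTop hρ.ne').comp (tendsto_pow_atTop (by norm_num))
  obtain ⟨R, hR⟩ := ((h3.eventually_gt_atTop (C * (32 * ρ) ^ ρ)).and
    ((eventually_ge_atTop (1 : ℝ)).and (eventually_ge_atTop (2 * ‖z₀‖ ^ 2 + 1)))).exists
  exact absurd (h2 R hR.2.1 hR.2.2) (not_le.mpr hR.1)

end

end Pool.Agent.H17
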