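import Mathlib

/-!
# Weighted variance of complex numbers
-/

open Complex ComplexConjugate

namespace Pool.Agent.H17

variable {ι : Type} [Fintype ι]

/-- The variance of the complex numbers `x i` with weights `w i / ∑ w`. -/
noncomputable def wVar (w : ι → ℝ) (x : ι → ℂ) : ℝ :=
  ((∑ i, w i * ‖x i‖ ^ 2) * (∑ i, w i) - ‖∑ i, (w i : ℂ) * x i‖ ^ 2) / (∑ i, w i) ^ 2

lemma norm_sub_sq_expand (a b : ℂ) : ‖a - b‖ ^ 2 = ‖a‖ ^ 2 - 2 * (a * conj b).re + ‖b‖ ^ 2 := by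
  rw [Complex.sq_norm, Complex.sq_norm, Complex.sq_norm, Complex.normSq_sub]
  ring

lemma wVar_identity (w : ι → ℝ) (x : ι → ℂ) (c : ℂ) :
    (∑ i, w i * ‖x i - c‖ ^ 2) * (∑ i, w i) =
      ((∑ i, w i * ‖x i‖ ^ 2) * (∑ i, w i) - ‖∑ i, (w i : ℂ) * x i‖ ^ 2) +
        ‖∑ i, (w i : ℂ) * x i - (∑ i, w i : ℝ) * c‖ ^ 2 := by
  have h1 : ∑ i, w i * ‖x i - c‖ ^ 2 = ∑ i, w i * ‖x i‖ ^ 2 -
      2 * ((∑ i, (w i : ℂ) * x i) * conj c).re + (∑ i, w i) * ‖c‖ ^ 2 := by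
    rw [Finset.sum_mul, Complex.re_sum, Finset.mul_sum, Finset.sum_mul, ← Finset.sum_sub_distrib,
      ← Finset.sum_add_distrib]
    refine Finset.sum_congr rfl fun i _ => ?_
    rw [norm_sub_sq_expand]
    have : ((w i : ℂ) * x i * conj c).re = w i * (x i * conj c).re := by
      rw [mul_assoc, Complex.re_ofReal_mul]
    rw [this]
    ring
  rw [h1, norm_sub_sq_expand, norm_mul, Complex.norm_real]
  have h2 : ((∑ i, (w i : ℂ) * x i) * conj ((∑ i, w i : ℝ) * c)).re =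
      (∑ i, w i) * ((∑ i, (w i : ℂ) * x i) * conj c).re := by
    rw [map_mul, Complex.conj_ofReal, ← Complex.re_ofReal_mul]
    congr 1
    ring
  have h3 : ‖(∑ i, w i : ℝ)‖ ^ 2 = (∑ i, w i) ^ 2 := by
    rw [Real.norm_eq_abs, sq_abs]
  rw [h2, mul_pow, h3]
  ring

lemma wVar_eq {w : ι → ℝ} (x : ι → ℂ) (hw : (∑ i, w i) ≠ 0) :
    wVar w x = (∑ i, w i * ‖x i - (∑ i, (w i : ℂ) * x i) / (∑ i, w i : ℝ)‖ ^ 2) / (∑ i, w i) := by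
  have h1 := wVar_identity w x ((∑ i, (w i : ℂ) * x i) / (∑ i, w i : ℝ))
  have hw' : ((∑ i, w i : ℝ) : ℂ) ≠ 0 := by exact_mod_cast hw
  rw [mul_div_cancel₀ _ hw', sub_self] at h1
  simp only [norm_zero] at h1
  unfold wVar
  rw [div_eq_div_iff (pow_ne_zero 2 hw) hw]
  linear_combination -(∑ i, w i) * h1

lemma wVar_le {w : ι → ℝ} (x : ι → ℂ) (hw : 0 < ∑ i, w i) (c : ℂ) :
    wVar w x ≤ (∑ i, w i * ‖x i - c‖ ^ 2) / (∑ i, w i) := by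
  have h1 := wVar_identity w x c
  unfold wVar
  rw [div_le_div_iff₀ (by positivity) hw]
  have h2 := sq_nonneg ‖∑ i, (w i : ℂ) * x i - (∑ i, w i : ℝ) * c‖
  have h3 : (∑ i, w i * ‖x i‖ ^ 2) * (∑ i, w i) - ‖∑ i, (w i : ℂ) * x i‖ ^ 2 ≤
      (∑ i, w i * ‖x i - c‖ ^ 2) * (∑ i, w i) := by linarith
  calc ((∑ i, w i * ‖x i‖ ^ 2) * (∑ i, w i) - ‖∑ i, (w i : ℂ) * x i‖ ^ 2) * (∑ i, w i)
      ≤ ((∑ i, w i * ‖x i - c‖ ^ 2) * (∑ i, w i)) * (∑ i, w i) := by gcongr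
    _ = _ := by ring

/-- Every weighted deviation is bounded by the variance. -/
lemma exists_center (w : ι → ℝ) (x : ι → ℂ) (hw0 : ∀ i, 0 ≤ w i) (hw : 0 < ∑ i, w i) :
    ∃ c : ℂ, ∀ i, w i * ‖x i - c‖ ^ 2 ≤ (∑ i, w i) * wVar w x := by
  refine ⟨(∑ i, (w i : ℂ) * x i) / (∑ i, w i : ℝ), fun i => ?_⟩
  rw [wVar_eq x hw.ne', mul_div_cancel₀ _ hw.ne']
  exact Finset.single_le_sum (f := fun i => w i * ‖x i -
    (∑ i, (w i : ℂ) * x i) / (∑ i, w i : ℝ)‖ ^ 2)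
    (fun i _ => mul_nonneg (hw0 i) (sq_nonneg _)) (Finset.mem_univ i)

lemma wVar_nonneg {w : ι → ℝ} (x : ι → ℂ) (hw0 : ∀ i, 0 ≤ w i) (hw : 0 < ∑ i, w i) :
    0 ≤ wVar w x := by
  rw [wVar_eq x hw.ne']
  apply div_nonneg (Finset.sum_nonneg fun i _ => mul_nonneg (hw0 i) (sq_nonneg _)) hw.le

end Pool.Agent.H17
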