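import Pool.Agent.H17.AhlforsGlobal

/-!
# The ring of entire functions
-/

open Polynomial Topology Filter

namespace Pool.Agent.H17

/-- The algebra of entire functions. -/
def entire : Subalgebra ℂ (ℂ → ℂ) where
  carrier := {f | Differentiable ℂ f}
  mul_mem' hf hg := hf.mul hg
  add_mem' hf hg := hf.add hg
  algebraMap_mem' c := differentiable_const c

/-- Entire functions. -/
abbrev EntFun : Type := ↥entire

namespace EntFun

lemma diff (f : EntFun) : Differentiable ℂ (f : ℂ → ℂ) := f.2

lemma analyticAt (f : EntFun) (z : ℂ) : AnalyticAt ℂ (f : ℂ → ℂ) z := f.2.analyticAt z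

@[ext] lemma ext' {f g : EntFun} (h : ∀ z, (f : ℂ → ℂ) z = (g : ℂ → ℂ) z) : f = g :=
  Subtype.ext (funext h)

lemma ne_zero_iff (f : EntFun) : f ≠ 0 ↔ ∃ z, (f : ℂ → ℂ) z ≠ 0 := by
  constructor
  · intro h
    by_contra h1
    push Not at h1
    exact h (ext' fun z => by simpa using h1 z)
  · rintro ⟨z, hz⟩ rfl
    exact hz rfl

instance : Nontrivial EntFun := ⟨⟨0, 1, fun h => by
  have := congrArg (fun f : EntFun => (f : ℂ → ℂ) 0) h
  simp at this⟩⟩

instance : NoZeroDivisors EntFun := ⟨by
  intro f g hfg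
  by_contra h
  push Not at h
  have h1 := eventually_ne_zero_of_entire f.2 ((ne_zero_iff f).mp h.1) 0
  have h2 := eventually_ne_zero_of_entire g.2 ((ne_zero_iff g).mp h.2) 0
  obtain ⟨z, hz1, hz2⟩ := (h1.and h2).exists
  have h3 : (f * g : EntFun).1 z = 0 := by rw [hfg]; rfl
  have h4 : (f : ℂ → ℂ) z * (g : ℂ → ℂ) z = 0 := h3
  rcases mul_eq_zero.mp h4 with h | h
  · exact hz1 h
  · exact hz2 h⟩

instance : IsDomain EntFun := NoZeroDivisors.to_isDomain _

/-- Evaluation at a point. -/
def ev (z : ℂ) : EntFun →+* ℂ := (Pi.evalRingHom (fun _ : ℂ => ℂ) z).comp entire.subtype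

@[simp] lemma ev_apply (z : ℂ) (f : EntFun) : ev z f = (f : ℂ → ℂ) z := rfl

@[simp] lemma ev_algebraMap (z c : ℂ) : ev z (algebraMap ℂ EntFun c) = c := rfl

@[simp] lemma coe_algebraMap (c z : ℂ) : ((algebraMap ℂ EntFun c : EntFun) : ℂ → ℂ) z = c := rfl

/-- Two entire functions with the same values at all points where a third one does not vanish are
equal. -/
lemma ext_of_ne_zero {f g h : EntFun} (hh : h ≠ 0)
    (hfg : ∀ z, (h : ℂ → ℂ) z ≠ 0 → (f : ℂ → ℂ) z = (g : ℂ → ℂ) z) : f = g := by
  have : h * (f - g) = 0 := by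
    ext z
    by_cases hz : (h : ℂ → ℂ) z = 0
    · simp [hz]
    · simp [hfg z hz]
  rcases mul_eq_zero.mp this with h1 | h1
  · exact absurd h1 hh
  · exact sub_eq_zero.mp h1

lemma diff_deriv (f : EntFun) : Differentiable ℂ (deriv (f : ℂ → ℂ)) := fun z =>
  (f.analyticAt z).deriv.differentiableAt

/-- The derivation. -/
noncomputable instance : Differential EntFun where
  deriv := Derivation.mk'
    { toFun := fun f => ⟨deriv (f : ℂ → ℂ), diff_deriv f⟩
      map_add' := fun f g => by
        ext z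
        exact deriv_add (f.diff z) (g.diff z)
      map_smul' := fun n f => by
        ext z
        have h1 : ((n • f : EntFun) : ℂ → ℂ) = n • (f : ℂ → ℂ) := rfl
        have h2 : deriv (n • (f : ℂ → ℂ)) z = n • deriv (f : ℂ → ℂ) z :=
          deriv_const_smul n (f.diff z)
        exact h2 } (fun f g => by
        ext z
        have h : deriv ((f : ℂ → ℂ) * (g : ℂ → ℂ)) z = _ := deriv_mul (f.diff z) (g.diff z)
        have h2 : (f : ℂ → ℂ) z * deriv (g : ℂ → ℂ) z + (g : ℂ → ℂ) z * deriv (f : ℂ → ℂ) z =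
            deriv (f : ℂ → ℂ) z * (g : ℂ → ℂ) z + (f : ℂ → ℂ) z * deriv (g : ℂ → ℂ) z := by ring
        exact h.trans h2.symm)

open Differential

@[simp] lemma coe_deriv (f : EntFun) (z : ℂ) : ((f′ : EntFun) : ℂ → ℂ) z = _root_.deriv (f : ℂ → ℂ) z := rfl

@[simp] lemma deriv_algebraMap (c : ℂ) : (algebraMap ℂ EntFun c)′ = 0 := by
  ext z
  exact deriv_const z c

/-- The coordinate function centred at `s`. -/
def coord (s : ℂ) : EntFun := ⟨fun z => z - s, by
  change Differentiable ℂ fun z : ℂ => z - s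
  fun_prop⟩

@[simp] lemma coord_apply (s z : ℂ) : ((coord s : EntFun) : ℂ → ℂ) z = z - s := rfl

lemma coord_ne_zero (s : ℂ) : coord s ≠ 0 := (ne_zero_iff _).mpr ⟨s + 1, by simp⟩

/-- Division by the coordinate function. -/
lemma exists_coord_mul {f : EntFun} {s : ℂ} (h : (f : ℂ → ℂ) s = 0) : ∃ g, f = coord s * g := by
  refine ⟨⟨dslope (f : ℂ → ℂ) s, ?_⟩, ?_⟩
  · intro z
    have h1 : DifferentiableOn ℂ (dslope (f : ℂ → ℂ) s) Set.univ :=
      (Complex.differentiableOn_dslope Filter.univ_mem).mpr f.diff.differentiableOn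
    exact (h1 z (Set.mem_univ z)).differentiableAt Filter.univ_mem
  · ext z
    have h2 := sub_smul_dslope (f : ℂ → ℂ) s z
    rw [h, sub_zero, smul_eq_mul] at h2
    exact h2.symm

/-- The order of a nonzero entire function is finite. -/
lemma order_ne_top {f : EntFun} (hf : f ≠ 0) (s : ℂ) : analyticOrderAt (f : ℂ → ℂ) s ≠ ⊤ := by
  intro h
  rw [analyticOrderAt_eq_top] at h
  have h1 := eventually_ne_zero_of_entire f.2 ((ne_zero_iff f).mp hf) s
  obtain ⟨z, hz1, hz2⟩ := ((h.filter_mono nhdsWithin_le_nhds).and h1).exists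
  exact hz2 hz1

lemma order_mul (f g : EntFun) (s : ℂ) : analyticOrderAt ((f * g : EntFun) : ℂ → ℂ) s =
    analyticOrderAt (f : ℂ → ℂ) s + analyticOrderAt (g : ℂ → ℂ) s :=
  analyticOrderAt_mul (f.analyticAt s) (g.analyticAt s)

lemma order_pow (f : EntFun) (n : ℕ) (s : ℂ) : analyticOrderAt ((f ^ n : EntFun) : ℂ → ℂ) s =
    n * analyticOrderAt (f : ℂ → ℂ) s := by
  have h : ((f ^ n : EntFun) : ℂ → ℂ) = (f : ℂ → ℂ) ^ n := rfl
  rw [h, analyticOrderAt_pow (f.analyticAt s), nsmul_eq_mul]

lemma order_prod {ι : Type*} (S : Finset ι) (f : ι → EntFun) (s : ℂ) :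
    analyticOrderAt ((∏ i ∈ S, f i : EntFun) : ℂ → ℂ) s =
      ∑ i ∈ S, analyticOrderAt ((f i : EntFun) : ℂ → ℂ) s := by
  classical
  induction S using Finset.induction_on with
  | empty =>
    rw [Finset.prod_empty, Finset.sum_empty, analyticOrderAt_eq_zero]
    right
    simp
  | insert a S ha ih => rw [Finset.prod_insert ha, Finset.sum_insert ha, order_mul, ih]

lemma order_eq_zero_iff (f : EntFun) (s : ℂ) :
    analyticOrderAt (f : ℂ → ℂ) s = 0 ↔ (f : ℂ → ℂ) s ≠ 0 :=
  (f.analyticAt s).analyticOrderAt_eq_zero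

lemma order_coord (s : ℂ) : analyticOrderAt ((coord s : EntFun) : ℂ → ℂ) s = 1 :=
  analyticOrderAt_id_sub_const_self

end EntFun

open EntFun

/-- Every nonzero polynomial over the entire functions is a power of `z - s` times one which does
not vanish identically at `s`. -/
lemma exists_coord_pow_mul (s : ℂ) {F : EntFun[X]} (hF : F ≠ 0) :
    ∃ (c : ℕ) (G : EntFun[X]), F = C (coord s ^ c) * G ∧ G.map (ev s) ≠ 0 := by
  -- induction on the order of a nonzero coefficient
  obtain ⟨k, hk⟩ : ∃ k, F.coeff k ≠ 0 := by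
    by_contra h
    push Not at h
    exact hF (Polynomial.ext fun k => by rw [h k, coeff_zero])
  obtain ⟨N, hN⟩ : ∃ N : ℕ, analyticOrderAt ((F.coeff k : EntFun) : ℂ → ℂ) s = N :=
    ⟨_, (Nat.cast_analyticOrderNatAt (order_ne_top hk s)).symm⟩
  induction N using Nat.strong_induction_on generalizing F with
  | _ N ih =>
    by_cases h : F.map (ev s) = 0
    · -- divide by the coordinate function
      have h1 : ∀ j, ∃ g : EntFun, F.coeff j = coord s * g := by
        intro j
        apply exists_coord_mul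
        have := congrArg (fun P => Polynomial.coeff P j) h
        simpa using this
      choose g hg using h1
      set G : EntFun[X] := ∑ j ∈ F.support, monomial j (g j) with hG
      have hFG : F = C (coord s) * G := by
        conv_lhs => rw [F.as_sum_support]
        rw [hG, Finset.mul_sum]
        refine Finset.sum_congr rfl fun j _ => ?_
        rw [C_mul_monomial, ← hg j]
      have hG0 : G ≠ 0 := by
        rintro hG0
        rw [hG0, mul_zero] at hFG
        exact hF hFG
      have hcoeff : F.coeff k = coord s * G.coeff k := by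
        conv_lhs => rw [hFG]
        rw [coeff_C_mul]
      have hGk : G.coeff k ≠ 0 := by
        intro h2
        rw [h2, mul_zero] at hcoeff
        exact hk hcoeff
      obtain ⟨N', hN'⟩ : ∃ N : ℕ, analyticOrderAt ((G.coeff k : EntFun) : ℂ → ℂ) s = N :=
        ⟨_, (Nat.cast_analyticOrderNatAt (order_ne_top hGk s)).symm⟩
      have hlt : N' < N := by
        rw [hcoeff, order_mul, order_coord, hN'] at hN
        have : 1 + N' = N := by exact_mod_cast hN
        omega
      obtain ⟨c, G', hG', hG'0⟩ := ih N' hlt hG0 hGk hN'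
      refine ⟨c + 1, G', ?_, hG'0⟩
      rw [hFG, hG', pow_succ', C_mul, mul_assoc]
    · exact ⟨0, F, by simp, h⟩

/-- Uniqueness of the decomposition. -/
lemma coord_pow_mul_unique {s : ℂ} {a b : ℕ} {F G : EntFun[X]}
    (hF : F.map (ev s) ≠ 0) (hG : G.map (ev s) ≠ 0)
    (h : C (coord s ^ a) * F = C (coord s ^ b) * G) : a = b ∧ F = G := by
  have key : ∀ {a b : ℕ} {F G : EntFun[X]}, F.map (ev s) ≠ 0 →
      C (coord s ^ a) * F = C (coord s ^ b) * G → a ≤ b → a = b ∧ F = G := by
    intro a b F G hF h hab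
    obtain ⟨k, rfl⟩ := Nat.exists_eq_add_of_le hab
    rw [pow_add, C_mul, mul_assoc] at h
    have hne : (C (coord s ^ a) : EntFun[X]) ≠ 0 := by
      rw [Ne, C_eq_zero]
      exact pow_ne_zero _ (coord_ne_zero s)
    have h1 : F = C (coord s ^ k) * G := mul_left_cancel₀ hne h
    rcases Nat.eq_zero_or_pos k with rfl | hk
    · refine ⟨rfl, ?_⟩
      rw [h1]; simp
    · exfalso
      apply hF
      rw [h1, Polynomial.map_mul, map_C]
      have : ev s (coord s ^ k) = 0 := by
        rw [map_pow]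
        simp [hk.ne']
      rw [this]
      simp
  rcases le_total a b with hab | hab
  · exact key hF h hab
  · obtain ⟨h1, h2⟩ := key hG h.symm hab
    exact ⟨h1.symm, h2.symm⟩

end Pool.Agent.H17
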