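import Mathlib

/-!
# Factorisation of polynomials over a field into monic irreducible factors
-/

open Polynomial UniqueFactorizationMonoid

namespace Pool.Agent.H17

variable {K : Type*} [Field K]

lemma Monic.eq_of_dvd_irreducible {p q : K[X]} (hp : p.Monic) (hq : q.Monic) (hpi : Irreducible p)
    (hqi : Irreducible q) (h : p ∣ q) : p = q :=
  eq_of_monic_of_associated hp hq (hpi.associated_of_dvd hqi h)

/-- Factorisation into monic irreducible polynomials. -/
lemma exists_monic_factorization (F : K[X]) (hF : F ≠ 0) :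
    ∃ (S : Finset K[X]) (m : K[X] → ℕ), (∀ q ∈ S, q.Monic ∧ Irreducible q ∧ 0 < m q) ∧
      F = C F.leadingCoeff * ∏ q ∈ S, q ^ m q := by
  classical
  refine ⟨(normalizedFactors F).toFinset, fun q => (normalizedFactors F).count q, ?_, ?_⟩
  · intro q hq
    rw [Multiset.mem_toFinset] at hq
    have h1 := irreducible_of_normalized_factor q hq
    have h2 := normalize_normalized_factor q hq
    refine ⟨?_, h1, Multiset.count_pos.mpr hq⟩
    rw [← h2]
    exact monic_normalize h1.ne_zero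
  · rw [← Finset.prod_multiset_count, prod_normalizedFactors_eq hF, normalize_apply,
      coe_normUnit_of_ne_zero hF, mul_comm, mul_assoc, ← C_mul,
      inv_mul_cancel₀ (leadingCoeff_ne_zero.mpr hF), C_1, mul_one]

lemma not_dvd_prod_erase [DecidableEq K[X]] {S : Finset K[X]} {m : K[X] → ℕ}
    (hS : ∀ q ∈ S, q.Monic ∧ Irreducible q) {q : K[X]} (hq : q ∈ S) :
    ¬ q ∣ ∏ p ∈ S.erase q, p ^ m p := by
  intro h
  rw [Prime.dvd_finsetProd_iff (hS q hq).2.prime] at h
  obtain ⟨p, hp, hqp⟩ := h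
  have h1 := (hS q hq).2.prime.dvd_of_dvd_pow hqp
  have hp' := Finset.mem_erase.mp hp
  have h2 := Monic.eq_of_dvd_irreducible (hS q hq).1 (hS p hp'.2).1 (hS q hq).2 (hS p hp'.2).2 h1
  exact hp'.1 h2.symm

/-- The exponents are the multiplicities. -/
lemma multiplicity_of_factorization {S : Finset K[X]} {m : K[X] → ℕ}
    (hS : ∀ q ∈ S, q.Monic ∧ Irreducible q ∧ 0 < m q) {c : K} (hc : c ≠ 0) {p G : K[X]} {k : ℕ}
    (hp : Irreducible p) (hk : 0 < k) (hpG : ¬ p ∣ G)
    (h : C c * ∏ q ∈ S, q ^ m q = p ^ k * G) : ∃ q ∈ S, Associated p q ∧ m q = k := by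
  classical
  have hcu : IsUnit (C c : K[X]) := isUnit_C.mpr hc.isUnit
  have h1 : p ∣ C c * ∏ q ∈ S, q ^ m q := by
    rw [h]
    exact dvd_mul_of_dvd_left (dvd_pow_self p hk.ne') _
  have h2 : p ∣ ∏ q ∈ S, q ^ m q := (hcu.dvd_mul_left).mp h1
  rw [Prime.dvd_finsetProd_iff hp.prime] at h2
  obtain ⟨q, hq, hpq⟩ := h2
  have hpq' : p ∣ q := hp.prime.dvd_of_dvd_pow hpq
  have hassoc : Associated p q := hp.associated_of_dvd (hS q hq).2.1 hpq'
  refine ⟨q, hq, hassoc, ?_⟩
  have hS' : ∀ q ∈ S, q.Monic ∧ Irreducible q := fun q hq => ⟨(hS q hq).1, (hS q hq).2.1⟩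
  have h3 := not_dvd_prod_erase (m := m) hS' hq
  have h4 : ¬ p ∣ C c * ∏ p ∈ S.erase q, p ^ m p := by
    rw [hcu.dvd_mul_left, hassoc.dvd_iff_dvd_left]
    exact h3
  have e1 : emultiplicity p (p ^ k * G) = k := emultiplicity_eq_of_dvd_of_not_dvd
    (Dvd.intro _ rfl) (fun h5 => by
      rw [pow_succ] at h5
      exact hpG ((mul_dvd_mul_iff_left (pow_ne_zero k hp.ne_zero)).mp h5))
  obtain ⟨u, hu⟩ := hassoc
  have e2 : emultiplicity p (C c * ∏ q ∈ S, q ^ m q) = m q := by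
    have hun : IsUnit ((u : K[X]) ^ m q) := u.isUnit.pow _
    have h6 : C c * ∏ q ∈ S, q ^ m q =
        p ^ m q * ((u : K[X]) ^ m q * (C c * ∏ p ∈ S.erase q, p ^ m p)) := by
      rw [← Finset.mul_prod_erase S (fun q => q ^ m q) hq]
      conv_lhs => rw [show q ^ m q = (p * u) ^ m q by rw [hu]]
      rw [mul_pow]
      ring
    rw [h6]
    refine emultiplicity_eq_of_dvd_of_not_dvd (Dvd.intro _ rfl) (fun h5 => ?_)
    rw [pow_succ] at h5
    have h7 := (mul_dvd_mul_iff_left (pow_ne_zero (m q) hp.ne_zero)).mp h5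
    rw [hun.dvd_mul_left] at h7
    exact h4 h7
  rw [h, e1] at e2
  exact_mod_cast e2.symm

end Pool.Agent.H17
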