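import Pool.Agent.H17.GeneralPosition

/-!
# Complete intersections of diagonal hypersurfaces
-/

open Polynomial

namespace Pool.Agent.H17

/-- The polynomial with given coefficients. -/
noncomputable def polyOf {A : Type*} [CommRing A] {n : ℕ} (a : Fin (n + 1) → A) : A[X] :=
  ∑ k : Fin (n + 1), monomial (k : ℕ) (a k)

lemma polyOf_coeff {A : Type*} [CommRing A] {n : ℕ} (a : Fin (n + 1) → A) (k : Fin (n + 1)) :
    (polyOf a).coeff k = a k := by
  unfold polyOf
  rw [finsetSum_coeff]
  simp only [coeff_monomial, Fin.val_inj]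
  rw [Finset.sum_ite_eq' Finset.univ k]
  simp

lemma natDegree_polyOf {A : Type*} [CommRing A] {n : ℕ} (a : Fin (n + 1) → A) :
    (polyOf a).natDegree ≤ n := by
  unfold polyOf
  refine natDegree_sum_le_of_forall_le _ _ fun k _ => ?_
  exact (natDegree_monomial_le _).trans (Nat.lt_succ_iff.mp k.2)

lemma polyOf_map {A B : Type*} [CommRing A] [CommRing B] (φ : A →+* B) {n : ℕ}
    (a : Fin (n + 1) → A) : (polyOf a).map φ = polyOf (fun k => φ (a k)) := by
  unfold polyOf
  rw [Polynomial.map_sum]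
  simp only [map_monomial]

lemma lam_polyOf {A : Type*} [CommRing A] (M j : ℕ) {n : ℕ} (a : Fin (n + 1) → A) :
    lam M j (polyOf a) = ∑ k : Fin (n + 1), a k * wt A M j k := by
  rw [lam_eq_sum M j (natDegree_polyOf a), ← Fin.sum_univ_eq_sum_range
    (fun k => (polyOf a).coeff k * wt A M j k)]
  exact Finset.sum_congr rfl fun k _ => by rw [polyOf_coeff]

lemma lam_C_mul {A : Type*} [CommRing A] (M j : ℕ) (u : A) (P : A[X]) :
    lam M j (C u * P) = u * lam M j P := by
  unfold lam
  split_ifs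
  · rw [eval_mul, eval_C]
  · unfold eulerOp
    rw [show X * (C u * P) = C u * (X * P) by ring, derivative_C_mul, eval_mul, eval_C]

/-- The values of the functionals. -/
noncomputable def valMap (n N M : ℕ) : (Fin (n + 1) → ℂ) →ₗ[ℂ] (Fin (N + 1) → ℂ) where
  toFun a := fun j => lam M j (polyOf a)
  map_add' a b := by
    funext j
    simp only [lam_polyOf, Pi.add_apply, add_mul, Finset.sum_add_distrib]
  map_smul' c a := by
    funext j
    simp only [lam_polyOf, Pi.smul_apply, smul_eq_mul, RingHom.id_apply, Finset.mul_sum, mul_assoc]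

lemma valMap_apply (n N M : ℕ) (a : Fin (n + 1) → ℂ) (j : Fin (N + 1)) :
    valMap n N M a j = lam M j (polyOf a) := rfl

/-- General position, in terms of `valMap`. -/
lemma valMap_general_position {n N M : ℕ} {a : Fin (n + 1) → ℂ} {J : Finset (Fin (N + 1))}
    (hJ : n + 1 ≤ J.card) (h : ∀ j ∈ J, valMap n N M a j = 0) : a = 0 := by
  classical
  have h1 : polyOf a = 0 := by
    refine lam_general_position (M := M) (natDegree_polyOf a) (J := J.map Fin.valEmbedding) ?_ ?_
    · rwa [Finset.card_map]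
    · intro j hj
      obtain ⟨i, hi, rfl⟩ := Finset.mem_map.mp hj
      exact h i hi
  funext k
  rw [← polyOf_coeff a k, h1]
  simp

lemma valMap_injective {n N M : ℕ} (hnN : n ≤ N) : Function.Injective (valMap n N M) := by
  rw [← LinearMap.ker_eq_bot, LinearMap.ker_eq_bot']
  intro a ha
  refine valMap_general_position (M := M) (J := (Finset.univ : Finset (Fin (N + 1)))) ?_ ?_
  · rw [Finset.card_univ, Fintype.card_fin]
    omega
  · intro j _
    rw [ha]
    rfl

/-- The relations between the functionals. -/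
lemma exists_relations {n N : ℕ} (M : ℕ) (hnN : n ≤ N) :
    ∃ c : Fin (N - n) → Fin (N + 1) → ℂ,
      (∀ α : Fin (N - n) → ℂ, (∀ j, ∑ l, α l * c l j = 0) → α = 0) ∧
      ∀ w : Fin (N + 1) → ℂ, (∀ l, ∑ j, c l j * w j = 0) ↔ ∃ a, valMap n N M a = w := by
  classical
  set W := LinearMap.range (valMap n N M) with hW
  have hWdim : Module.finrank ℂ W = n + 1 := by
    rw [hW, LinearMap.finrank_range_of_inj (valMap_injective hnN)]
    simp
  have hQdim : Module.finrank ℂ ((Fin (N + 1) → ℂ) ⧸ W) = Module.finrank ℂ (Fin (N - n) → ℂ) := by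
    have h1 := Submodule.finrank_quotient_add_finrank W
    rw [hWdim, Module.finrank_fin_fun] at h1
    rw [Module.finrank_fin_fun]
    omega
  set e : ((Fin (N + 1) → ℂ) ⧸ W) ≃ₗ[ℂ] (Fin (N - n) → ℂ) := LinearEquiv.ofFinrankEq _ _ hQdim
  set π : (Fin (N + 1) → ℂ) →ₗ[ℂ] (Fin (N - n) → ℂ) := e.toLinearMap ∘ₗ W.mkQ with hπ
  have hπs : Function.Surjective π := e.surjective.comp W.mkQ_surjective
  have hπk : ∀ w, π w = 0 ↔ w ∈ W := by
    intro w
    rw [hπ]
    simp
  have hexp : ∀ w l, π w l = ∑ j, π (Pi.single j 1) l * w j := by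
    intro w l
    have h1 : w = ∑ j, w j • (Pi.single j (1 : ℂ) : Fin (N + 1) → ℂ) := by
      conv_lhs => rw [← Finset.univ_sum_single w]
      refine Finset.sum_congr rfl fun j _ => ?_
      rw [← Pi.single_smul, smul_eq_mul, mul_one]
    conv_lhs => rw [h1]
    rw [map_sum, Finset.sum_apply]
    refine Finset.sum_congr rfl fun j _ => ?_
    rw [map_smul, Pi.smul_apply, smul_eq_mul, mul_comm]
  refine ⟨fun l j => π (Pi.single j 1) l, ?_, ?_⟩
  · intro α hα
    have h1 : ∀ w, ∑ l, α l * π w l = 0 := by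
      intro w
      simp_rw [hexp w, Finset.mul_sum]
      rw [Finset.sum_comm]
      apply Finset.sum_eq_zero
      intro j _
      have : ∑ l, α l * (π (Pi.single j 1) l * w j) = (∑ l, α l * π (Pi.single j 1) l) * w j := by
        rw [Finset.sum_mul]
        exact Finset.sum_congr rfl fun l _ => by ring
      rw [this, hα, zero_mul]
    funext l₀
    obtain ⟨w, hw⟩ := hπs (Pi.single l₀ 1)
    have h2 := h1 w
    rw [hw] at h2
    simpa [Pi.single_apply] using h2
  · intro w
    have h1 : (∀ l, ∑ j, π (Pi.single j 1) l * w j = 0) ↔ π w = 0 := by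
      constructor
      · intro h
        funext l
        rw [hexp, h]
        rfl
      · intro h l
        rw [← hexp, h]
        rfl
    rw [h1, hπk, hW, LinearMap.mem_range]

/-- The Jacobian criterion for the diagonal complete intersection. -/
lemma fermat_smooth {n N M d : ℕ} (hnN : n ≤ N) (hd : 0 < d) {c : Fin (N - n) → Fin (N + 1) → ℂ}
    (hc1 : ∀ α : Fin (N - n) → ℂ, (∀ j, ∑ l, α l * c l j = 0) → α = 0)
    (hc2 : ∀ w : Fin (N + 1) → ℂ, (∀ l, ∑ j, c l j * w j = 0) ↔ ∃ a, valMap n N M a = w)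
    {x : Fin (N + 1) → ℂ} (hx : x ≠ 0) (hxX : ∀ l, ∑ j, c l j * x j ^ d = 0)
    (α : Fin (N - n) → ℂ) (hα : ∀ j, ∑ l, α l * (c l j * x j ^ (d - 1)) = 0) : α = 0 := by
  classical
  obtain ⟨a, ha⟩ := (hc2 fun j => x j ^ d).mp hxX
  have ha' : ∀ j, valMap n N M a j = x j ^ d := fun j => congrFun ha j
  have ha0 : a ≠ 0 := by
    rintro rfl
    apply hx
    funext j
    have := ha' j
    rw [map_zero, Pi.zero_apply] at this
    exact pow_eq_zero_iff hd.ne' |>.mp this.symm
  set Z : Finset (Fin (N + 1)) := Finset.univ.filter fun j => x j = 0 with hZ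
  have hZcard : Z.card ≤ n := by
    by_contra h
    push Not at h
    exact ha0 (valMap_general_position (M := M) h fun j hj => by
      rw [ha' j, (Finset.mem_filter.mp hj).2, zero_pow hd.ne'])
  set v : Fin (N + 1) → ℂ := fun j => ∑ l, α l * c l j with hv
  have hvZ : ∀ j, j ∉ Z → v j = 0 := by
    intro j hj
    have hxj : x j ≠ 0 := fun h => hj (Finset.mem_filter.mpr ⟨Finset.mem_univ _, h⟩)
    have h1 := hα j
    have h2 : ∑ l, α l * (c l j * x j ^ (d - 1)) = v j * x j ^ (d - 1) := by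
      rw [hv, Finset.sum_mul]
      exact Finset.sum_congr rfl fun l _ => by ring
    rw [h2] at h1
    exact (mul_eq_zero.mp h1).resolve_right (pow_ne_zero _ hxj)
  have hvorth : ∀ b, ∑ j, v j * valMap n N M b j = 0 := by
    intro b
    have h1 := (hc2 (valMap n N M b)).mpr ⟨b, rfl⟩
    simp only [hv, Finset.sum_mul]
    rw [Finset.sum_comm]
    apply Finset.sum_eq_zero
    intro l _
    have : ∑ j, α l * c l j * valMap n N M b j = α l * ∑ j, c l j * valMap n N M b j := by
      rw [Finset.mul_sum]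
      exact Finset.sum_congr rfl fun j _ => by ring
    rw [this, h1, mul_zero]
  apply hc1
  intro j₀
  change v j₀ = 0
  by_cases hj₀ : j₀ ∈ Z
  · obtain ⟨Z', hZZ', hZ'card⟩ := Finset.exists_superset_card_eq (s := Z) (n := n + 1)
      (by omega) (by rw [Fintype.card_fin]; omega)
    -- a polynomial with prescribed values on `Z'`
    set ρ : (Fin (n + 1) → ℂ) →ₗ[ℂ] (Z' → ℂ) :=
      { toFun := fun b j => valMap n N M b j
        map_add' := fun b b' => by funext j; simp
        map_smul' := fun r b => by funext j; simp } with hρ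
    have hρinj : Function.Injective ρ := by
      rw [← LinearMap.ker_eq_bot, LinearMap.ker_eq_bot']
      intro b hb
      exact valMap_general_position (M := M) (J := Z') hZ'card.ge fun j hj =>
        congrFun hb ⟨j, hj⟩
    have hρsurj : Function.Surjective ρ := by
      rw [← LinearMap.injective_iff_surjective_of_finrank_eq_finrank]
      · exact hρinj
      · rw [Module.finrank_fin_fun, Module.finrank_fintype_fun_eq_card, Fintype.card_coe, hZ'card]
    obtain ⟨b, hb⟩ := hρsurj (Pi.single ⟨j₀, hZZ' hj₀⟩ 1)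
    have hb' : ∀ j ∈ Z', valMap n N M b j = if j = j₀ then 1 else 0 := by
      intro j hj
      have h1 := congrFun hb ⟨j, hj⟩
      rw [Pi.single_apply] at h1
      simp only [Subtype.mk.injEq] at h1
      exact h1
    have h1 := hvorth b
    rw [Finset.sum_eq_single j₀] at h1
    · rw [hb' j₀ (hZZ' hj₀), if_pos rfl, mul_one] at h1
      exact h1
    · intro j _ hj
      by_cases hjZ : j ∈ Z
      · rw [hb' j (hZZ' hjZ), if_neg hj, mul_zero]
      · rw [hvZ j hjZ, zero_mul]
    · intro h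
      exact absurd (Finset.mem_univ _) h
  · exact hvZ j₀ hj₀

/-- An entire function with constant `d`-th power is constant. -/
lemma const_of_pow_const {h : ℂ → ℂ} (hh : Differentiable ℂ h) {d : ℕ} (hd : 0 < d) {c : ℂ}
    (hc : ∀ z, h z ^ d = c) (z w : ℂ) : h z = h w := by
  by_cases hc0 : c = 0
  · have h1 : ∀ z, h z = 0 := fun z => (pow_eq_zero_iff hd.ne').mp ((hc z).trans hc0)
    rw [h1, h1]
  · apply is_const_of_deriv_eq_zero hh
    intro z
    have h1 : HasDerivAt (fun z => h z ^ d) ((d : ℂ) * h z ^ (d - 1) * deriv h z) z :=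
      (hh z).hasDerivAt.fun_pow d
    have h2 : (fun z => h z ^ d) = fun _ => c := funext hc
    rw [h2] at h1
    have h3 := h1.unique (hasDerivAt_const z c)
    have h4 : h z ≠ 0 := by
      intro h0
      apply hc0
      rw [← hc z, h0, zero_pow hd.ne']
    rcases mul_eq_zero.mp h3 with h5 | h5
    · exfalso
      rcases mul_eq_zero.mp h5 with h6 | h6
      · exact hd.ne' (by exact_mod_cast h6)
      · exact pow_ne_zero _ h4 h6
    · exact h5

open EntFun in
/-- Entire curves in the diagonal complete intersection, given by global lifts, are constant. -/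
theorem fermat_rigid {n N M d : ℕ} (hd : 2 ≤ d) (hM : 4 * n + 1 ≤ M)
    (hMN : M + (4 * n + 1) ≤ N + 1) (x : Fin (N + 1) → EntFun)
    (h0 : ∀ z, ∃ j, (x j : ℂ → ℂ) z ≠ 0)
    (hX : ∀ z, ∃ a, ∀ j, valMap n N M a j = (x j : ℂ → ℂ) z ^ d) (z w : ℂ) :
    ∃ μ : ℂ, μ ≠ 0 ∧ ∀ j, (x j : ℂ → ℂ) z = μ * (x j : ℂ → ℂ) w := by
  classical
  have hnN : n ≤ N := by omega
  obtain ⟨B, hB⟩ := LinearMap.exists_leftInverse_of_injective (valMap n N M)
    (LinearMap.ker_eq_bot.mpr (valMap_injective hnN))
  have hB' : ∀ a, B (valMap n N M a) = a := fun a => LinearMap.congr_fun hB a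
  set Fc : Fin (n + 1) → EntFun := fun k => ∑ j, algebraMap ℂ EntFun (B (Pi.single j 1) k) * x j ^ d
    with hFc
  have hBexp : ∀ (v : Fin (N + 1) → ℂ) k, B v k = ∑ j, B (Pi.single j 1) k * v j := by
    intro v k
    have h1 : v = ∑ j, v j • (Pi.single j (1 : ℂ) : Fin (N + 1) → ℂ) := by
      conv_lhs => rw [← Finset.univ_sum_single v]
      refine Finset.sum_congr rfl fun j _ => ?_
      rw [← Pi.single_smul, smul_eq_mul, mul_one]
    conv_lhs => rw [h1]
    rw [map_sum, Finset.sum_apply]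
    refine Finset.sum_congr rfl fun j _ => ?_
    rw [map_smul, Pi.smul_apply, smul_eq_mul, mul_comm]
  have hFcz : ∀ (z : ℂ) (a : Fin (n + 1) → ℂ), (∀ j, valMap n N M a j = (x j : ℂ → ℂ) z ^ d) →
      ∀ k, ev z (Fc k) = a k := by
    intro z a ha k
    have h1 : B (fun j => (x j : ℂ → ℂ) z ^ d) = a := by
      rw [← hB' a]
      congr 1
      funext j
      exact (ha j).symm
    rw [← h1, hBexp, hFc, map_sum]
    refine Finset.sum_congr rfl fun j _ => ?_
    rw [map_mul, map_pow, ev_algebraMap, ev_apply]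
  set F : EntFun[X] := polyOf Fc with hF
  have hFmap : ∀ (z : ℂ) (a : Fin (n + 1) → ℂ), (∀ j, valMap n N M a j = (x j : ℂ → ℂ) z ^ d) →
      F.map (ev z) = polyOf a := by
    intro z a ha
    rw [hF, polyOf_map]
    congr 1
    funext k
    exact hFcz z a ha k
  have hF0 : F ≠ 0 := by
    intro h
    obtain ⟨a, ha⟩ := hX 0
    obtain ⟨j, hj⟩ := h0 0
    have h1 := hFmap 0 a ha
    rw [h, Polynomial.map_zero] at h1
    have h2 : a = 0 := by
      funext k
      rw [← polyOf_coeff a k, ← h1]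
      simp
    have h3 := ha j
    rw [h2, map_zero, Pi.zero_apply] at h3
    exact pow_ne_zero d hj h3.symm
  have hlam : ∀ (z : ℂ) (j : Fin (N + 1)), lam M j (F.map (ev z)) = (x j : ℂ → ℂ) z ^ d := by
    intro z j
    obtain ⟨a, ha⟩ := hX z
    rw [hFmap z a ha, ← ha j, valMap_apply]
  have hinj : Function.Injective fun j : ℕ => (j : ℂ) + 1 := by
    intro a b hab
    have : (a : ℂ) = b := by simpa using hab
    exact_mod_cast this
  have h1card : (Finset.univ.filter fun j : Fin (N + 1) => (j : ℕ) < M).card = M := by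
    rw [Fin.card_filter_val_lt]
    omega
  have c1 : 4 * n + 1 ≤ Fintype.card {j : Fin (N + 1) // (j : ℕ) < M} := by
    rw [Fintype.card_subtype, h1card]
    exact hM
  have c2 : 4 * n + 1 ≤ Fintype.card {j : Fin (N + 1) // ¬ (j : ℕ) < M} := by
    rw [Fintype.card_subtype_compl, Fintype.card_subtype, Fintype.card_fin, h1card]
    omega
  have e1 : ∀ i : {j : Fin (N + 1) // (j : ℕ) < M}, evC (((i.1 : ℕ) : ℂ) + 1) F = x i.1 ^ d := by
    rintro ⟨j, hj⟩
    ext z
    rw [evC_apply]
    have h1 := hlam z j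
    unfold lam at h1
    rw [if_pos hj] at h1
    exact h1
  have e2 : ∀ i : {j : Fin (N + 1) // ¬ (j : ℕ) < M},
      evC (((i.1 : ℕ) : ℂ) + 1) (eulerOp F) = x i.1 ^ d := by
    rintro ⟨j, hj⟩
    ext z
    rw [evC_apply, ← eulerOp_map]
    have h1 := hlam z j
    unfold lam at h1
    rw [if_neg hj] at h1
    exact h1
  obtain ⟨u, P, huP⟩ := exists_eq_C_mul_map (ι := {j : Fin (N + 1) // (j : ℕ) < M})
    (κ := {j : Fin (N + 1) // ¬ (j : ℕ) < M})
    (fun j => ((j.1 : ℕ) : ℂ) + 1)
    (fun i j h => Subtype.ext (Fin.ext (hinj h)))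
    (fun j => ((j.1 : ℕ) : ℂ) + 1)
    (fun i j h => Subtype.ext (Fin.ext (hinj h)))
    hd (n := n) c1 c2 F hF0 (natDegree_polyOf _) (fun j => x j.1) e1 (fun j => x j.1) e2
  set lamP : Fin (N + 1) → ℂ := fun j => lam M j P with hlamP
  have hpow : ∀ z j, (x j : ℂ → ℂ) z ^ d = (u : ℂ → ℂ) z * lamP j := by
    intro z j
    rw [← hlam z j, huP, Polynomial.map_mul, map_C, ev_apply, Polynomial.map_map]
    have h1 : (ev z).comp (algebraMap ℂ EntFun) = RingHom.id ℂ := by
      ext c
      simp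
    rw [h1, Polynomial.map_id, lam_C_mul]
  have hu : ∀ z, (u : ℂ → ℂ) z ≠ 0 := by
    intro z hz
    obtain ⟨j, hj⟩ := h0 z
    have h1 := hpow z j
    rw [hz, zero_mul] at h1
    exact pow_ne_zero d hj h1
  obtain ⟨j₀, hj₀⟩ := h0 0
  have hlam0 : lamP j₀ ≠ 0 := by
    intro h
    have h1 := hpow 0 j₀
    rw [h, mul_zero] at h1
    exact pow_ne_zero d hj₀ h1
  have hx0 : ∀ z, (x j₀ : ℂ → ℂ) z ≠ 0 := by
    intro z hz
    have h1 := hpow z j₀
    rw [hz, zero_pow (by omega)] at h1
    exact mul_ne_zero (hu z) hlam0 h1.symm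
  refine ⟨(x j₀ : ℂ → ℂ) z / (x j₀ : ℂ → ℂ) w, div_ne_zero (hx0 z) (hx0 w), fun j => ?_⟩
  have h1 := const_of_pow_const (h := fun z => (x j : ℂ → ℂ) z / (x j₀ : ℂ → ℂ) z) (d := d)
    (c := lamP j / lamP j₀) (fun z => ((x j).diff z).div ((x j₀).diff z) (hx0 z)) (by omega)
    (fun z => by
      rw [div_pow, hpow, hpow]
      have := hu z
      field_simp) z w
  have h2 := hx0 z
  have h3 := hx0 w
  rw [div_eq_div_iff h2 h3] at h1
  field_simp
  linear_combination h1

end Pool.Agent.H17
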