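import Pool.Agent.H17.Rigidity

/-!
# General position of the evaluation functionals
-/

open Polynomial

namespace Pool.Agent.H17

/-- The functionals `P ↦ P (j + 1)` for `j < M` and `P ↦ (X P)' (j + 1)` for `j ≥ M`. -/
noncomputable def lam {A : Type*} [CommRing A] (M j : ℕ) (P : A[X]) : A :=
  if j < M then P.eval ((j : A) + 1) else (eulerOp P).eval ((j : A) + 1)

/-- The weights of the coefficients in `lam`. -/
def wt (A : Type*) [CommRing A] (M j k : ℕ) : A :=
  if j < M then ((j : A) + 1) ^ k else ((k : A) + 1) * ((j : A) + 1) ^ k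

lemma eulerOp_coeff {A : Type*} [CommRing A] (P : A[X]) (k : ℕ) :
    (eulerOp P).coeff k = P.coeff k * ((k : A) + 1) := by
  unfold eulerOp
  rw [coeff_derivative, coeff_X_mul]

lemma lam_eq_sum {A : Type*} [CommRing A] (M j : ℕ) {n : ℕ} {P : A[X]} (hP : P.natDegree ≤ n) :
    lam M j P = ∑ k ∈ Finset.range (n + 1), P.coeff k * wt A M j k := by
  unfold lam wt
  split_ifs with h
  · rw [eval_eq_sum_range' (Nat.lt_succ_of_le hP)]
  · rw [eval_eq_sum_range' (Nat.lt_succ_of_le ((natDegree_eulerOp_le P).trans hP))]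
    refine Finset.sum_congr rfl fun k _ => ?_
    rw [eulerOp_coeff]
    ring

/-- General position over the reals (Rolle's theorem). -/
lemma lam_general_position_real {n M : ℕ} {P : ℝ[X]} (hP : P.natDegree ≤ n) {J : Finset ℕ}
    (hJ : n + 1 ≤ J.card) (h : ∀ j ∈ J, lam M j P = 0) : P = 0 := by
  classical
  by_contra hP0
  set D : ℝ[X] := eulerOp P with hD
  have hXP : X * P ≠ 0 := mul_ne_zero X_ne_zero hP0
  have hD0 : D ≠ 0 := by
    intro h0
    have h1 := derivative_eq_zero.mp h0
    rw [natDegree_X_mul hP0] at h1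
    omega
  set J₁ := J.filter (· < M) with hJ₁
  set J₂ := J.filter (fun j => ¬ j < M) with hJ₂
  have hJcard : J₁.card + J₂.card = J.card := by
    rw [hJ₁, hJ₂]
    exact Finset.card_filter_add_card_filter_not _
  have hinj : Function.Injective (fun j : ℕ => (j : ℝ) + 1) := by
    intro a b hab
    have : (a : ℝ) = b := by simpa using hab
    exact_mod_cast this
  set s : Finset ℝ := insert 0 (J₁.image fun j : ℕ => (j : ℝ) + 1) with hs
  have hscard : s.card = J₁.card + 1 := by
    rw [hs, Finset.card_insert_of_notMem, Finset.card_image_of_injective _ hinj]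
    intro h0
    obtain ⟨j, _, hj⟩ := Finset.mem_image.mp h0
    have : (0 : ℝ) < (j : ℝ) + 1 := by positivity
    linarith
  have hsroot : ∀ x ∈ s, (X * P).eval x = 0 := by
    intro x hx
    rcases Finset.mem_insert.mp hx with rfl | hx
    · simp
    · obtain ⟨j, hj, rfl⟩ := Finset.mem_image.mp hx
      have h1 := h j (Finset.mem_filter.mp hj).1
      unfold lam at h1
      rw [if_pos (Finset.mem_filter.mp hj).2] at h1
      rw [eval_mul, h1, mul_zero]
  have hsM : ∀ x ∈ s, x ≤ M := by
    intro x hx
    rcases Finset.mem_insert.mp hx with rfl | hx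
    · positivity
    · obtain ⟨j, hj, rfl⟩ := Finset.mem_image.mp hx
      have h1 := (Finset.mem_filter.mp hj).2
      exact_mod_cast h1
  set t : Finset ℝ := D.roots.toFinset.filter (· < (M : ℝ)) with ht
  have hinter : ∀ x ∈ s, ∀ y ∈ s, x < y → (∀ z ∈ s, z ∉ Set.Ioo x y) → ∃ z ∈ t, x < z ∧ z < y := by
    intro x hx y hy hxy _
    obtain ⟨z, hz, hz0⟩ := exists_deriv_eq_zero hxy
      (f := fun z => (X * P).eval z) (X * P).continuous.continuousOn
      (by simp only [hsroot x hx, hsroot y hy])
    refine ⟨z, ?_, hz.1, hz.2⟩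
    rw [ht, Finset.mem_filter, Multiset.mem_toFinset, mem_roots hD0]
    refine ⟨?_, hz.2.trans_le (hsM y hy)⟩
    rw [Polynomial.deriv] at hz0
    exact hz0
  have h1 := Finset.card_le_sdiff_of_interleaved hinter
  have h2 : (t \ s).card ≤ t.card := Finset.card_le_card Finset.sdiff_subset
  set t₂ : Finset ℝ := J₂.image fun j : ℕ => (j : ℝ) + 1 with ht₂
  have ht₂card : t₂.card = J₂.card := Finset.card_image_of_injective _ hinj
  have hsub : t ∪ t₂ ⊆ D.roots.toFinset := by
    apply Finset.union_subset (Finset.filter_subset _ _)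
    intro x hx
    obtain ⟨j, hj, rfl⟩ := Finset.mem_image.mp hx
    have h3 := h j (Finset.mem_filter.mp hj).1
    unfold lam at h3
    rw [if_neg (Finset.mem_filter.mp hj).2] at h3
    rw [Multiset.mem_toFinset, mem_roots hD0]
    exact h3
  have hdisj : Disjoint t t₂ := by
    rw [Finset.disjoint_left]
    intro x hx hx2
    obtain ⟨j, hj, rfl⟩ := Finset.mem_image.mp hx2
    have h3 := (Finset.mem_filter.mp hx).2
    have h4 := (Finset.mem_filter.mp hj).2
    apply h4
    have : (j : ℝ) < M := by linarith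
    exact_mod_cast this
  have h5 := Finset.card_le_card hsub
  rw [Finset.card_union_of_disjoint hdisj] at h5
  have h6 : D.roots.toFinset.card ≤ n :=
    (Multiset.toFinset_card_le _).trans ((card_roots' D).trans ((natDegree_eulerOp_le P).trans hP))
  omega

/-- **General position.** -/
lemma lam_general_position {n M : ℕ} {P : ℂ[X]} (hP : P.natDegree ≤ n) {J : Finset ℕ}
    (hJ : n + 1 ≤ J.card) (h : ∀ j ∈ J, lam M j P = 0) : P = 0 := by
  have key : ∀ (φ : ℂ →ₗ[ℝ] ℝ), ∀ k, φ (P.coeff k) = 0 := by
    intro φ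
    set Q : ℝ[X] := ∑ k ∈ Finset.range (n + 1), monomial k (φ (P.coeff k)) with hQ
    have hcoeff : ∀ k, Q.coeff k = if k ≤ n then φ (P.coeff k) else 0 := by
      intro k
      rw [hQ, finsetSum_coeff]
      simp only [coeff_monomial]
      rw [Finset.sum_ite_eq' (Finset.range (n + 1)) k]
      simp only [Finset.mem_range, Nat.lt_succ_iff]
    have hQdeg : Q.natDegree ≤ n := by
      refine natDegree_le_iff_coeff_eq_zero.mpr fun k hk => ?_
      rw [hcoeff, if_neg (by omega)]
    have hwt : ∀ j k, wt ℂ M j k = ((wt ℝ M j k : ℝ) : ℂ) := by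
      intro j k
      unfold wt
      split_ifs <;> push_cast <;> rfl
    have hQ0 : Q = 0 := by
      refine lam_general_position_real (M := M) hQdeg hJ fun j hj => ?_
      have h1 := congrArg φ (h j hj)
      rw [lam_eq_sum M j hP, map_sum, map_zero] at h1
      rw [lam_eq_sum M j hQdeg, ← h1]
      refine Finset.sum_congr rfl fun k hk => ?_
      rw [hcoeff, if_pos (by have := Finset.mem_range.mp hk; omega), hwt]
      have h2 : P.coeff k * ((wt ℝ M j k : ℝ) : ℂ) = (wt ℝ M j k) • P.coeff k := by
        rw [Complex.real_smul, mul_comm]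
      rw [h2, map_smul, smul_eq_mul, mul_comm]
    intro k
    by_cases hk : k ≤ n
    · have h1 := hcoeff k
      rw [hQ0, if_pos hk, coeff_zero] at h1
      exact h1.symm
    · rw [coeff_eq_zero_of_natDegree_lt (by omega), map_zero]
  ext k
  rw [coeff_zero]
  apply Complex.ext
  · exact key Complex.reLm k
  · exact key Complex.imLm k

end Pool.Agent.H17
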