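import Pool.Agent.H17.VanishPoly
import Pool.Agent.H17.Factor

/-!
# Multiplicities of the non-constant factors

Let `F` be a polynomial over the ring of entire functions such that `F (t i)` is a `d`-th power for
many complex numbers `t i`.  Then the multiplicity of every irreducible factor of `F` (over the
field of fractions) without a complex root is divisible by `d`.
-/

open Polynomial Topology Filter

namespace Pool.Agent.H17

open EntFun Differential

variable {K : Type} [Field K] [Algebra EntFun K] [IsFractionRing EntFun K]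

/-- Complex numbers as elements of the field of fractions. -/
noncomputable def cK (K : Type) [Field K] [Algebra EntFun K] (a : ℂ) : K :=
  algebraMap EntFun K (algebraMap ℂ EntFun a)

lemma cK_injective : Function.Injective (cK K) := by
  intro a b h
  have h1 : algebraMap ℂ EntFun a = algebraMap ℂ EntFun b := IsFractionRing.injective EntFun K h
  have h2 := congrArg (fun f : EntFun => (f : ℂ → ℂ) 0) h1
  simpa using h2

/-- The polynomial with coefficients in the field of fractions. -/
noncomputable def toK (K : Type) [Field K] [Algebra EntFun K] (F : EntFun[X]) : K[X] :=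
  F.map (algebraMap EntFun K)

lemma toK_injective : Function.Injective (toK K) :=
  Polynomial.map_injective _ (IsFractionRing.injective EntFun K)

omit [IsFractionRing EntFun K] in
lemma toK_mul (F G : EntFun[X]) : toK K (F * G) = toK K F * toK K G := Polynomial.map_mul _

omit [IsFractionRing EntFun K] in
lemma toK_C (f : EntFun) : toK K (C f) = C (algebraMap EntFun K f) := Polynomial.map_C _

omit [IsFractionRing EntFun K] in
lemma toK_pow (F : EntFun[X]) (n : ℕ) : toK K (F ^ n) = toK K F ^ n := Polynomial.map_pow _ _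

omit [IsFractionRing EntFun K] in
lemma toK_prod {κ : Type*} (S : Finset κ) (P : κ → EntFun[X]) :
    toK K (∏ i ∈ S, P i) = ∏ i ∈ S, toK K (P i) := Polynomial.map_prod _ _ _

lemma toK_ne_zero {F : EntFun[X]} (hF : F ≠ 0) : toK K F ≠ 0 := fun h =>
  hF (toK_injective (by rw [h]; simp [toK]))

lemma natDegree_toK (F : EntFun[X]) : (toK K F).natDegree = F.natDegree :=
  natDegree_map_eq_of_injective (IsFractionRing.injective EntFun K) F

omit [IsFractionRing EntFun K] in
lemma toK_eval (F : EntFun[X]) (a : ℂ) : (toK K F).eval (cK K a) = algebraMap EntFun K (evC a F) := by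
  unfold toK cK evC
  rw [eval_map_apply]

/-- Clearing denominators. -/
lemma exists_clear (q : K[X]) : ∃ (c : EntFun) (Q : EntFun[X]), c ≠ 0 ∧
    toK K Q = C (algebraMap EntFun K c) * q := by
  obtain ⟨b, hb, h⟩ := IsLocalization.integerNormalization_spec (nonZeroDivisors EntFun) q
  refine ⟨b, IsLocalization.integerNormalization (nonZeroDivisors EntFun) q,
    nonZeroDivisors.ne_zero hb, ?_⟩
  unfold toK
  rw [h, ← smul_eq_C_mul, algebraMap_smul]

/-- Functions with the same logarithmic derivative are proportional. -/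
lemma exists_const_mul {a b u v : EntFun} (hv : v ≠ 0) (ha : a ≠ 0) (h1 : v * a′ = u * a)
    (h2 : v * b′ = u * b) : ∃ c : ℂ, b = algebraMap ℂ EntFun c * a := by
  have hW : b′ * a = b * a′ := by
    have : v * (b′ * a - b * a′) = 0 := by linear_combination a * h2 - b * h1
    rcases mul_eq_zero.mp this with h | h
    · exact absurd h hv
    · exact sub_eq_zero.mp h
  obtain ⟨z₀, hz₀⟩ := (ne_zero_iff a).mp ha
  set c : ℂ := (b : ℂ → ℂ) z₀ / (a : ℂ → ℂ) z₀ with hc
  refine ⟨c, ?_⟩
  by_contra hne
  set b' : EntFun := b - algebraMap ℂ EntFun c * a with hb'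
  have hb'0 : b' ≠ 0 := sub_ne_zero.mpr hne
  have hb'z : (b' : ℂ → ℂ) z₀ = 0 := by
    have : (b' : ℂ → ℂ) z₀ = (b : ℂ → ℂ) z₀ - c * (a : ℂ → ℂ) z₀ := rfl
    rw [this, hc, div_mul_cancel₀ _ hz₀, sub_self]
  have hder : (b')′ = b′ - algebraMap ℂ EntFun c * a′ := by
    rw [hb', map_sub, Derivation.leibniz, EntFun.deriv_algebraMap]
    simp
  have hW' : (b')′ * a = b' * a′ := by
    rw [hder, hb']
    linear_combination hW
  have h3 : analyticOrderAt (deriv (b' : ℂ → ℂ)) z₀ + 1 = analyticOrderAt (b' : ℂ → ℂ) z₀ := by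
    have := (b'.analyticAt z₀).analyticOrderAt_deriv_add_one
    simpa [hb'z] using this
  have h4 := congrArg (fun f : EntFun => analyticOrderAt (f : ℂ → ℂ) z₀) hW'
  simp only [order_mul] at h4
  rw [(order_eq_zero_iff a z₀).mpr hz₀, add_zero] at h4
  have h5 : analyticOrderAt (((b')′ : EntFun) : ℂ → ℂ) z₀ + 1 =
    analyticOrderAt (b' : ℂ → ℂ) z₀ := h3
  have h6 := order_ne_top hb'0 z₀
  obtain ⟨N, hN⟩ := ENat.ne_top_iff_exists.mp h6
  rw [← hN] at h5 h4
  have h7 : analyticOrderAt (((b')′ : EntFun) : ℂ → ℂ) z₀ ≠ ⊤ := by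
    intro h
    rw [h] at h5
    simp at h5
  obtain ⟨N', hN'⟩ := ENat.ne_top_iff_exists.mp h7
  rw [← hN'] at h5 h4
  have h8 : N' + 1 = N := by exact_mod_cast h5
  have h9 : (N : ℕ∞) ≤ N' := by
    rw [h4]
    exact le_self_add
  have h10 : N ≤ N' := by exact_mod_cast h9
  omega

/-- An irreducible polynomial dividing its coefficientwise derivative has a complex root. -/
lemma exists_root_of_dvd_deriv {q : K[X]} (hq : Irreducible q) {c : EntFun} (hc : c ≠ 0)
    {Q : EntFun[X]} (hQ : toK K Q = C (algebraMap EntFun K c) * q)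
    (hdvd : q ∣ toK K (mapCoeffs Q)) : ∃ a : ℂ, q.eval (cK K a) = 0 := by
  have hc' : algebraMap EntFun K c ≠ 0 := by
    intro h
    exact hc (IsFractionRing.injective EntFun K (by rw [h, map_zero]))
  have hQ0 : Q ≠ 0 := by
    rintro rfl
    have : C (algebraMap EntFun K c) * q = 0 := by rw [← hQ]; simp [toK]
    rcases mul_eq_zero.mp this with h | h
    · exact hc' (C_eq_zero.mp h)
    · exact hq.ne_zero h
  have hdeg : Q.natDegree = q.natDegree := by
    rw [← natDegree_toK (K := K), hQ, natDegree_C_mul hc']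
  have hqdeg : 0 < q.natDegree := hq.natDegree_pos
  -- `v ∂Q = u Q`
  obtain ⟨u, v, hv, huv⟩ : ∃ u v : EntFun, v ≠ 0 ∧ C v * mapCoeffs Q = C u * Q := by
    by_cases h0 : mapCoeffs Q = 0
    · exact ⟨0, 1, one_ne_zero, by rw [h0]; simp⟩
    obtain ⟨w, hw⟩ := hdvd
    have hdeg2 : (mapCoeffs Q).natDegree ≤ Q.natDegree := by
      refine natDegree_le_iff_coeff_eq_zero.mpr fun k hk => ?_
      rw [coeff_mapCoeffs, coeff_eq_zero_of_natDegree_lt hk, map_zero]
    have hw0 : w ≠ 0 := by
      rintro rfl
      rw [mul_zero] at hw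
      exact toK_ne_zero h0 hw
    have hwdeg : w.natDegree = 0 := by
      have h1 := congrArg natDegree hw
      rw [natDegree_toK, natDegree_mul hq.ne_zero hw0] at h1
      omega
    obtain ⟨lam, rfl⟩ := natDegree_eq_zero.mp hwdeg
    obtain ⟨u, v, hv, huv⟩ := IsFractionRing.div_surjective (A := EntFun) lam
    have hv0 : v ≠ 0 := nonZeroDivisors.ne_zero hv
    have hv' : algebraMap EntFun K v ≠ 0 := by
      intro h
      exact hv0 (IsFractionRing.injective EntFun K (by rw [h, map_zero]))
    refine ⟨u, v * c, mul_ne_zero hv0 hc, ?_⟩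
    apply toK_injective (K := K)
    rw [toK_mul, toK_mul, toK_C, toK_C, hQ, hw, map_mul]
    have h2 : algebraMap EntFun K u = algebraMap EntFun K v * lam := by
      rw [← huv]
      field_simp
    rw [h2]
    simp only [C_mul]
    ring
  have hcoef : ∀ k, v * (Q.coeff k)′ = u * Q.coeff k := by
    intro k
    have := congrArg (fun P => coeff P k) huv
    simpa using this
  set a := Q.leadingCoeff with ha
  have ha0 : a ≠ 0 := leadingCoeff_ne_zero.mpr hQ0
  have hex : ∀ k, ∃ c : ℂ, Q.coeff k = algebraMap ℂ EntFun c * a := fun k =>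
    exists_const_mul hv ha0 (hcoef _) (hcoef k)
  choose f hf using hex
  set P : ℂ[X] := ∑ k ∈ Q.support, monomial k (f k) with hP
  have hQP : Q = C a * P.map (algebraMap ℂ EntFun) := by
    conv_lhs => rw [Q.as_sum_support]
    rw [hP, Polynomial.map_sum, Finset.mul_sum]
    refine Finset.sum_congr rfl fun k _ => ?_
    rw [map_monomial, C_mul_monomial, hf k, mul_comm]
  have hPdeg : P.natDegree = Q.natDegree := by
    have h1 := congrArg natDegree hQP
    rw [natDegree_C_mul ha0] at h1
    rw [h1, natDegree_map_eq_of_injective]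
    exact (algebraMap ℂ EntFun).injective
  obtain ⟨x, hx⟩ := IsAlgClosed.exists_root P (by
    intro h
    have := natDegree_eq_of_degree_eq_some (n := 0) h
    omega)
  refine ⟨x, ?_⟩
  have h3 : evC x Q = 0 := by
    rw [hQP, evC_mul]
    have : evC x (P.map (algebraMap ℂ EntFun)) = 0 := by
      unfold evC
      rw [eval_map_apply, hx.eq_zero, map_zero]
    rw [this, mul_zero]
  have h4 : (toK K Q).eval (cK K x) = 0 := by rw [toK_eval, h3, map_zero]
  rw [hQ, eval_mul, eval_C] at h4
  exact (mul_eq_zero.mp h4).resolve_left hc'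

end Pool.Agent.H17
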