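import Pool.Agent.H17.Multiplicity

/-!
# The multiplicity theorem
-/

open Polynomial Topology Filter

namespace Pool.Agent.H17

open EntFun Differential

variable {K : Type} [Field K] [Algebra EntFun K] [IsFractionRing EntFun K]

/-- A nonzero entire function is a power of `z - s` times one which does not vanish at `s`. -/
lemma exists_coord_pow_mul_fun (s : ℂ) {f : EntFun} (hf : f ≠ 0) :
    ∃ (c : ℕ) (g : EntFun), f = coord s ^ c * g ∧ (g : ℂ → ℂ) s ≠ 0 := by
  obtain ⟨c, G, hG, hG0⟩ := exists_coord_pow_mul s (F := C f) (by rwa [Ne, C_eq_zero])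
  have h1 : ∀ j, (C f : EntFun[X]).coeff j = coord s ^ c * G.coeff j := by
    intro j
    conv_lhs => rw [hG]
    rw [coeff_C_mul]
  refine ⟨c, G.coeff 0, by simpa using h1 0, ?_⟩
  intro h0
  apply hG0
  ext j
  rcases j with _ | j
  · simpa using h0
  · have h2 := h1 (j + 1)
    rw [coeff_C_succ] at h2
    have h3 : G.coeff (j + 1) = 0 := by
      rcases mul_eq_zero.mp h2.symm with h | h
      · exact absurd h (pow_ne_zero _ (coord_ne_zero s))
      · exact h
    rw [coeff_map, h3]
    simp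

lemma coeff_natDegree_toK_ne_zero {R : EntFun[X]} (hR : R ≠ 0) :
    (toK K R).coeff R.natDegree ≠ 0 := by
  rw [← natDegree_toK (K := K)]
  exact leadingCoeff_ne_zero.mpr (toK_ne_zero hR)

/-- If the resultant vanishes, some irreducible polynomial divides both polynomials. -/
lemma exists_common_factor {R : EntFun[X]} (hR : R ≠ 0) (h : resultant R (mapCoeffs R) R.natDegree R.natDegree = 0) :
    ∃ p : K[X], Irreducible p ∧ p ∣ toK K R ∧ p ∣ toK K (mapCoeffs R) := by
  have hdR : (mapCoeffs R).natDegree ≤ R.natDegree := by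
    refine natDegree_le_iff_coeff_eq_zero.mpr fun k hk => ?_
    rw [coeff_mapCoeffs, coeff_eq_zero_of_natDegree_lt hk, map_zero]
  obtain ⟨k, hk⟩ := Nat.exists_eq_add_of_le hdR
  have h1 : resultant (toK K R) (toK K (mapCoeffs R)) R.natDegree R.natDegree = 0 := by
    unfold toK
    rw [resultant_map_map, h, map_zero]
  have h2 : resultant (toK K R) (toK K (mapCoeffs R)) R.natDegree
      ((mapCoeffs R).natDegree + k) = 0 := by rw [← hk]; exact h1
  rw [resultant_add_right_deg _ _ _ _ _ (natDegree_toK (K := K) _).le] at h2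
  have h3 : resultant (toK K R) (toK K (mapCoeffs R)) = 0 := by
    rcases mul_eq_zero.mp h2 with h | h
    · exact absurd h (pow_ne_zero _ (coeff_natDegree_toK_ne_zero hR))
    · rw [natDegree_toK, natDegree_toK]
      exact h
  rw [resultant_eq_zero_iff] at h3
  by_contra hcon
  push Not at hcon
  apply h3.2
  apply isCoprime_of_irreducible_dvd
  · rintro ⟨h4, -⟩
    exact toK_ne_zero hR h4
  · exact fun p hp h5 h6 => hcon p hp h5 h6

/-- The resultant of a product of distinct irreducible polynomials without complex roots and its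
coefficientwise derivative does not vanish. -/
lemma exists_root_of_resultant_eq_zero {A : Finset K[X]} (hA : ∀ q ∈ A, q.Monic ∧ Irreducible q)
    {c : K[X] → EntFun} {Q : K[X] → EntFun[X]} (hc : ∀ q, c q ≠ 0)
    (hQ : ∀ q, toK K (Q q) = C (algebraMap EntFun K (c q)) * q)
    (h : resultant (∏ q ∈ A, Q q) (mapCoeffs (∏ q ∈ A, Q q)) (∏ q ∈ A, Q q).natDegree
      (∏ q ∈ A, Q q).natDegree = 0) : ∃ q ∈ A, ∃ a : ℂ, q.eval (cK K a) = 0 := by
  classical
  have hcK : ∀ q, algebraMap EntFun K (c q) ≠ 0 := fun q h0 =>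
    hc q (IsFractionRing.injective EntFun K (by rw [h0, map_zero]))
  have hQ0 : ∀ q ∈ A, Q q ≠ 0 := by
    intro q hq h0
    have h1 := hQ q
    rw [h0] at h1
    have h2 : C (algebraMap EntFun K (c q)) * q = 0 := by rw [← h1]; simp [toK]
    rcases mul_eq_zero.mp h2 with h3 | h3
    · exact hcK q (C_eq_zero.mp h3)
    · exact (hA q hq).2.ne_zero h3
  obtain ⟨p, hp, hp1, hp2⟩ := exists_common_factor (K := K) (Finset.prod_ne_zero_iff.mpr hQ0) h
  have hdvd : ∀ q ∈ A, ∀ q' : K[X], Irreducible q' → q' ∣ toK K (Q q) → q' ∣ q := by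
    intro q _ q' _ h1
    rw [hQ] at h1
    exact (isUnit_C.mpr (hcK q).isUnit).dvd_mul_left.mp h1
  rw [toK_prod, Prime.dvd_finsetProd_iff hp.prime] at hp1
  obtain ⟨q, hq, hpq⟩ := hp1
  have hassoc : Associated p q := hp.associated_of_dvd (hA q hq).2 (hdvd q hq p hp hpq)
  refine ⟨q, hq, ?_⟩
  apply exists_root_of_dvd_deriv (hA q hq).2 (hc q) (hQ q)
  -- `q` divides the derivative of `Q q`
  have h1 : q ∣ toK K (mapCoeffs (∏ q ∈ A, Q q)) := (hassoc.dvd_iff_dvd_left).mp hp2
  rw [← Finset.mul_prod_erase A Q hq, Derivation.leibniz] at h1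
  have h2 : toK K (Q q • mapCoeffs (∏ x ∈ A.erase q, Q x) +
      (∏ x ∈ A.erase q, Q x) • mapCoeffs (Q q)) =
      q * (C (algebraMap EntFun K (c q)) * toK K (mapCoeffs (∏ x ∈ A.erase q, Q x))) +
      toK K (∏ x ∈ A.erase q, Q x) * toK K (mapCoeffs (Q q)) := by
    have : toK K (Q q • mapCoeffs (∏ x ∈ A.erase q, Q x) +
      (∏ x ∈ A.erase q, Q x) • mapCoeffs (Q q)) =
      toK K (Q q) * toK K (mapCoeffs (∏ x ∈ A.erase q, Q x)) +
      toK K (∏ x ∈ A.erase q, Q x) * toK K (mapCoeffs (Q q)) := by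
      rw [smul_eq_mul, smul_eq_mul]
      unfold toK
      rw [Polynomial.map_add, Polynomial.map_mul, Polynomial.map_mul]
    rw [this, hQ]
    ring
  rw [h2, dvd_add_right (Dvd.intro _ rfl)] at h1
  rcases (hA q hq).2.prime.dvd_or_dvd h1 with h3 | h3
  · exfalso
    rw [toK_prod, Prime.dvd_finsetProd_iff (hA q hq).2.prime] at h3
    obtain ⟨q', hq', h4⟩ := h3
    have hq'' := Finset.mem_erase.mp hq'
    have h5 := hdvd q' hq''.2 q (hA q hq).2 h4
    exact hq''.1 (Monic.eq_of_dvd_irreducible (hA q hq).1 (hA q' hq''.2).1 (hA q hq).2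
      (hA q' hq''.2).2 h5).symm
  · exact h3

omit [Algebra EntFun K] [IsFractionRing EntFun K] in
/-- A monic irreducible polynomial with a root is linear. -/
lemma eq_X_sub_C_of_root {q : K[X]} (hq : q.Monic) (hqi : Irreducible q) {a : K}
    (h : q.eval a = 0) : q = X - C a :=
  (Monic.eq_of_dvd_irreducible (monic_X_sub_C a) hq (irreducible_X_sub_C a) hqi
    (dvd_iff_isRoot.mpr h)).symm

omit [Algebra EntFun K] [IsFractionRing EntFun K] in
/-- Orders at `s` of the values of the factors. -/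
lemma local_orders {S : Finset K[X]} {m : K[X] → ℕ} {a b : EntFun} (ha : a ≠ 0) (hb : b ≠ 0)
    {F : EntFun[X]} (hF : F ≠ 0) {Q : K[X] → EntFun[X]} (hQ0 : ∀ q ∈ S, Q q ≠ 0)
    (hfac : C b * F = C a * ∏ q ∈ S, Q q ^ m q) (s : ℂ) :
    ∃ (c : ℕ) (G : EntFun[X]) (e : K[X] → ℕ) (P : K[X] → EntFun[X]),
      F = C (coord s ^ c) * G ∧ G.map (ev s) ≠ 0 ∧
      (∀ q ∈ S, Q q = C (coord s ^ e q) * P q ∧ (P q).map (ev s) ≠ 0) ∧
      ∀ t, analyticOrderAt ((evC t G : EntFun) : ℂ → ℂ) s =
        ∑ q ∈ S, m q * analyticOrderAt ((evC t (P q) : EntFun) : ℂ → ℂ) s := by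
  classical
  have hex : ∀ q, ∃ (e : ℕ) (P : EntFun[X]), q ∈ S →
      (Q q = C (coord s ^ e) * P ∧ P.map (ev s) ≠ 0) := by
    intro q
    by_cases hq : q ∈ S
    · obtain ⟨e, P, h1, h2⟩ := exists_coord_pow_mul s (hQ0 q hq)
      exact ⟨e, P, fun _ => ⟨h1, h2⟩⟩
    · exact ⟨0, 0, fun h => absurd h hq⟩
  choose e P hP using hex
  obtain ⟨c, G, hG, hG0⟩ := exists_coord_pow_mul s hF
  obtain ⟨α, a', ha', ha'0⟩ := exists_coord_pow_mul_fun s ha
  obtain ⟨β, b', hb', hb'0⟩ := exists_coord_pow_mul_fun s hb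
  refine ⟨c, G, e, P, hG, hG0, hP, ?_⟩
  have hprod : ∏ q ∈ S, Q q ^ m q =
      C (coord s ^ (∑ q ∈ S, e q * m q)) * ∏ q ∈ S, P q ^ m q := by
    have h1 : ∀ q ∈ S, Q q ^ m q = C (coord s ^ (e q * m q)) * P q ^ m q := by
      intro q hq
      conv_lhs => rw [(hP q hq).1]
      rw [mul_pow, ← C_pow, ← pow_mul]
    rw [Finset.prod_congr rfl h1, Finset.prod_mul_distrib]
    congr 1
    rw [← Finset.prod_pow_eq_pow_sum, map_prod]
  have hid : C (coord s ^ (β + c)) * (C b' * G) =
      C (coord s ^ (α + ∑ q ∈ S, e q * m q)) * (C a' * ∏ q ∈ S, P q ^ m q) := by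
    have h1 := hfac
    rw [hprod, hG, ha', hb'] at h1
    simp only [pow_add, C_mul] at h1 ⊢
    calc C (coord s ^ β) * C (coord s ^ c) * (C b' * G)
        = C (coord s ^ β) * C b' * (C (coord s ^ c) * G) := by ring
      _ = _ := h1
      _ = _ := by ring
  have hl : (C b' * G).map (ev s) ≠ 0 := by
    rw [Polynomial.map_mul, map_C]
    exact mul_ne_zero (by rw [Ne, C_eq_zero]; exact hb'0) hG0
  have hr : (C a' * ∏ q ∈ S, P q ^ m q).map (ev s) ≠ 0 := by
    rw [Polynomial.map_mul, map_C, Polynomial.map_prod]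
    refine mul_ne_zero (by rw [Ne, C_eq_zero]; exact ha'0) (Finset.prod_ne_zero_iff.mpr ?_)
    intro q hq
    rw [Polynomial.map_pow]
    exact pow_ne_zero _ (hP q hq).2
  obtain ⟨-, heq⟩ := coord_pow_mul_unique hl hr hid
  intro t
  have h2 := congrArg (fun R => analyticOrderAt ((evC t R : EntFun) : ℂ → ℂ) s) heq
  simp only [evC_mul, evC_C, evC_prod, evC_pow, order_mul, order_prod, order_pow] at h2
  rw [(order_eq_zero_iff _ _).mpr ha'0, (order_eq_zero_iff _ _).mpr hb'0, zero_add, zero_add] at h2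
  exact h2

/-- **The multiplicity theorem.** -/
theorem dvd_multiplicity {ι : Type} [Fintype ι] (t : ι → ℂ) (ht : Function.Injective t) {n d : ℕ}
    (hd : 0 < d) (hcard : 4 * n + 1 ≤ Fintype.card ι) (F : EntFun[X]) (hF : F ≠ 0)
    (hn : F.natDegree ≤ n) (x : ι → EntFun) (hx : ∀ i, evC (t i) F = x i ^ d)
    {p G : K[X]} (hp : Irreducible p) (hmov : ∀ a : ℂ, p.eval (cK K a) ≠ 0) {k : ℕ} (hk : 0 < k)
    (hG : toK K F = p ^ k * G) (hpG : ¬ p ∣ G) : d ∣ k := by
  classical
  by_contra hdk
  obtain ⟨S, m, hS, hfac⟩ := exists_monic_factorization (toK K F) (toK_ne_zero hF)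
  have hS' : ∀ q ∈ S, q.Monic ∧ Irreducible q := fun q hq => ⟨(hS q hq).1, (hS q hq).2.1⟩
  have hlc : (toK K F).leadingCoeff ≠ 0 := leadingCoeff_ne_zero.mpr (toK_ne_zero hF)
  obtain ⟨p₀, hp₀S, hassoc, hmp₀⟩ := multiplicity_of_factorization hS hlc hp hk hpG
    (by rw [← hfac, hG])
  set Mov : K[X] → Prop := fun q => ∀ a : ℂ, q.eval (cK K a) ≠ 0 with hMov
  have hp₀mov : Mov p₀ := by
    intro a h
    obtain ⟨u, hu⟩ := hassoc
    apply hmov a
    rw [← hu, eval_mul] at h
    rcases mul_eq_zero.mp h with h | h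
    · exact h
    · exfalso
      have h1 : IsUnit ((u : K[X]).eval (cK K a)) := (u.isUnit).map (evalRingHom (cK K a))
      exact h1.ne_zero h
  set A : Finset K[X] := S.filter (fun q => Mov q ∧ ¬ d ∣ m q) with hA
  have hp₀A : p₀ ∈ A := Finset.mem_filter.mpr ⟨hp₀S, hp₀mov, by rw [hmp₀]; exact hdk⟩
  have hAS : ∀ q ∈ A, q ∈ S := fun q hq => (Finset.mem_filter.mp hq).1
  -- clearing denominators
  have hclear : ∀ q, ∃ (c : EntFun) (Q : EntFun[X]), c ≠ 0 ∧
      toK K Q = C (algebraMap EntFun K c) * q ∧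
      (q ∈ S → ∀ a : ℂ, q.eval (cK K a) = 0 → Q = X - C (algebraMap ℂ EntFun a)) := by
    intro q
    by_cases h : q ∈ S ∧ ∃ a : ℂ, q.eval (cK K a) = 0
    · obtain ⟨hq, a, ha⟩ := h
      have h1 := eq_X_sub_C_of_root (hS' q hq).1 (hS' q hq).2 ha
      refine ⟨1, X - C (algebraMap ℂ EntFun a), one_ne_zero, ?_, ?_⟩
      · rw [map_one, C_1, one_mul, h1]
        unfold toK cK
        simp
      · intro _ a' ha'
        rw [h1] at ha'
        simp only [eval_sub, eval_X, eval_C] at ha'
        rw [cK_injective (sub_eq_zero.mp ha')]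
    · obtain ⟨c, Q, hc, hQ⟩ := exists_clear q
      exact ⟨c, Q, hc, hQ, fun hq a ha => absurd ⟨hq, a, ha⟩ h⟩
  choose c Q hc hQ hQc using hclear
  have hcK : ∀ q, algebraMap EntFun K (c q) ≠ 0 := fun q h0 =>
    hc q (IsFractionRing.injective EntFun K (by rw [h0, map_zero]))
  have hQ0 : ∀ q ∈ S, Q q ≠ 0 := by
    intro q hq h0
    have h1 := hQ q
    rw [h0] at h1
    have h2 : C (algebraMap EntFun K (c q)) * q = 0 := by rw [← h1]; simp [toK]
    rcases mul_eq_zero.mp h2 with h3 | h3
    · exact hcK q (C_eq_zero.mp h3)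
    · exact (hS' q hq).2.ne_zero h3
  have hQdeg : ∀ q, (Q q).natDegree = q.natDegree := by
    intro q
    rw [← natDegree_toK (K := K), hQ, natDegree_C_mul (hcK q)]
  have hfac' : C (∏ q ∈ S, c q ^ m q) * F = C F.leadingCoeff * ∏ q ∈ S, Q q ^ m q := by
    apply toK_injective (K := K)
    rw [toK_mul, toK_mul, toK_C, toK_C, toK_prod]
    have h1 : ∀ q ∈ S, toK K (Q q ^ m q) = C (algebraMap EntFun K (c q ^ m q)) * q ^ m q := by
      intro q _
      rw [toK_pow, hQ, mul_pow, map_pow, C_pow]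
    have h2 : (toK K F).leadingCoeff = algebraMap EntFun K F.leadingCoeff :=
      leadingCoeff_map_of_injective (IsFractionRing.injective EntFun K) F
    rw [Finset.prod_congr rfl h1, Finset.prod_mul_distrib, map_prod, map_prod, ← h2]
    conv_lhs => rw [hfac]
    ring
  -- degrees
  have hdegF : F.natDegree = ∑ q ∈ S, m q * q.natDegree := by
    rw [← natDegree_toK (K := K), hfac, natDegree_C_mul hlc, natDegree_prod _ _
      (fun q hq => pow_ne_zero _ (hS' q hq).2.ne_zero)]
    exact Finset.sum_congr rfl fun q _ => natDegree_pow _ _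
  set R : EntFun[X] := ∏ q ∈ A, Q q with hR
  have hRdeg : R.natDegree = ∑ q ∈ A, q.natDegree := by
    rw [hR, natDegree_prod _ _ (fun q hq => hQ0 q (hAS q hq))]
    exact Finset.sum_congr rfl fun q _ => hQdeg q
  have hR0 : R ≠ 0 := Finset.prod_ne_zero_iff.mpr fun q hq => hQ0 q (hAS q hq)
  have hρ : 0 < R.natDegree := by
    rw [hRdeg]
    exact (hS' p₀ hp₀S).2.natDegree_pos.trans_le
      (Finset.single_le_sum (f := fun q : K[X] => q.natDegree) (fun _ _ => Nat.zero_le _) hp₀A)
  -- bad nodes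
  set B : Finset ι := Finset.univ.filter (fun i => evC (t i) F = 0) with hB
  set Sc : Finset K[X] := S.filter (fun q => ¬ Mov q) with hSc
  have hBSc : B.card ≤ Sc.card := by
    refine Finset.card_le_card_of_injOn (fun i => X - C (cK K (t i))) ?_ ?_
    · intro i hi
      have h1 : evC (t i) F = 0 := (Finset.mem_filter.mp hi).2
      have h2 : (toK K F).eval (cK K (t i)) = 0 := by rw [toK_eval, h1, map_zero]
      rw [hfac, eval_mul, eval_C, eval_prod] at h2
      obtain ⟨q, hq, hq2⟩ := Finset.prod_eq_zero_iff.mp ((mul_eq_zero.mp h2).resolve_left hlc)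
      rw [eval_pow] at hq2
      have h3 : q.eval (cK K (t i)) = 0 := by
        by_contra h
        exact pow_ne_zero _ h hq2
      have h4 := eq_X_sub_C_of_root (hS' q hq).1 (hS' q hq).2 h3
      have h5 : q ∈ Sc := Finset.mem_filter.mpr ⟨hq, fun h => h _ h3⟩
      rw [Finset.mem_coe]
      rw [h4] at h5
      exact h5
    · intro i _ j _ hij
      have h1 : cK K (t i) = cK K (t j) := by
        have h2 := sub_right_injective hij
        exact C_injective h2
      exact ht (cK_injective h1)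
  have hcount : B.card + R.natDegree ≤ n := by
    refine le_trans ?_ hn
    have hdisj : Disjoint Sc A := by
      rw [Finset.disjoint_left]
      intro q h1 h2
      exact (Finset.mem_filter.mp h1).2 (Finset.mem_filter.mp h2).2.1
    have hsub : Sc ∪ A ⊆ S := Finset.union_subset (Finset.filter_subset _ _)
      (Finset.filter_subset _ _)
    have h1 : ∑ q ∈ Sc ∪ A, m q * q.natDegree ≤ ∑ q ∈ S, m q * q.natDegree :=
      Finset.sum_le_sum_of_subset hsub
    rw [Finset.sum_union hdisj] at h1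
    have hpos : ∀ q ∈ S, q.natDegree ≤ m q * q.natDegree := fun q hq =>
      Nat.le_mul_of_pos_left _ (hS q hq).2.2
    have h2 : Sc.card ≤ ∑ q ∈ Sc, m q * q.natDegree := by
      rw [Finset.card_eq_sum_ones]
      refine Finset.sum_le_sum fun q hq => ?_
      have hq' := (Finset.mem_filter.mp hq).1
      exact (hS' q hq').2.natDegree_pos.trans_le (hpos q hq')
    have h3 : ∑ q ∈ A, q.natDegree ≤ ∑ q ∈ A, m q * q.natDegree :=
      Finset.sum_le_sum fun q hq => hpos q (hAS q hq)
    omega
  -- the good nodes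
  have hcard' : 4 * R.natDegree + 1 ≤ Fintype.card {i // evC (t i) F ≠ 0} := by
    have h1 : Fintype.card {i // evC (t i) F ≠ 0} = Fintype.card ι - B.card := by
      rw [Fintype.card_subtype_compl, Fintype.card_subtype]
    omega
  have : Nonempty {i // evC (t i) F ≠ 0} := Fintype.card_pos_iff.mp (by omega)
  have hgoodQ : ∀ (i : ι), evC (t i) F ≠ 0 → ∀ q ∈ S, evC (t i) (Q q) ≠ 0 := by
    intro i hi q hq h0
    apply hi
    have h1 := congrArg (evC (t i)) hfac'
    rw [evC_mul, evC_mul, evC_C, evC_C, evC_prod] at h1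
    have h2 : ∏ q ∈ S, evC (t i) (Q q ^ m q) = 0 := by
      apply Finset.prod_eq_zero hq
      rw [evC_pow, h0, zero_pow (hS q hq).2.2.ne']
    rw [h2, mul_zero] at h1
    exact (mul_eq_zero.mp h1).resolve_left
      (Finset.prod_ne_zero_iff.mpr fun q _ => pow_ne_zero _ (hc q))
  have hres := resultant_eq_zero (fun i : {i // evC (t i) F ≠ 0} => t i.1)
    (fun i j h => Subtype.ext (ht h)) hρ hcard' R le_rfl ?_ ?_
  · obtain ⟨q, hq, a, ha⟩ := exists_root_of_resultant_eq_zero (fun q hq => hS' q (hAS q hq))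
      hc hQ hres
    exact (Finset.mem_filter.mp hq).2.1 a ha
  · rintro ⟨i, hi⟩
    rw [hR, evC_prod]
    exact Finset.prod_ne_zero_iff.mpr fun q hq => hgoodQ i hi q (hAS q hq)
  · -- the local condition
    intro s
    obtain ⟨cF, G', e, P, hFG, hG'0, hP, hord⟩ := local_orders
      (leadingCoeff_ne_zero.mpr hF) (Finset.prod_ne_zero_iff.mpr fun q _ => pow_ne_zero _ (hc q))
      hF hQ0 hfac' s
    refine ⟨∑ q ∈ A, e q, ∏ q ∈ A, P q, ?_, ?_, ?_⟩
    · rw [hR, ← Finset.prod_pow_eq_pow_sum, map_prod, ← Finset.prod_mul_distrib]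
      exact Finset.prod_congr rfl fun q hq => (hP q (hAS q hq)).1
    · rw [Polynomial.map_prod]
      exact Finset.prod_ne_zero_iff.mpr fun q hq => (hP q (hAS q hq)).2
    -- the power condition for the content
    have hcF : d ∣ cF := by
      obtain ⟨i₀, hi₀⟩ : ∃ i₀, (G'.map (ev s)).eval (t i₀) ≠ 0 := by
        by_contra h
        push Not at h
        apply hG'0
        apply eq_zero_of_natDegree_lt_card_of_eval_eq_zero _ ht h
        have hGdeg : G'.natDegree ≤ n := by
          have h1 : F.natDegree = G'.natDegree := by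
            rw [hFG, natDegree_C_mul (pow_ne_zero _ (coord_ne_zero s))]
          omega
        have := (natDegree_map_le (f := ev s) (p := G')).trans hGdeg
        omega
      have h1 : evC (t i₀) F = coord s ^ cF * evC (t i₀) G' := by
        rw [hFG, evC_mul, evC_C]
      rw [hx] at h1
      have h2 := congrArg (fun f : EntFun => analyticOrderAt (f : ℂ → ℂ) s) h1
      simp only [order_mul, order_pow, order_coord, mul_one] at h2
      rw [(order_eq_zero_iff (evC (t i₀) G') s).mpr (by rw [evC_apply]; exact hi₀), add_zero] at h2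
      have h3 : analyticOrderAt ((x i₀ : EntFun) : ℂ → ℂ) s ≠ ⊤ := by
        intro h
        rw [h] at h2
        rw [ENat.mul_top (by exact_mod_cast hd.ne')] at h2
        exact ENat.natCast_ne_top _ h2.symm
      obtain ⟨N, hN⟩ := ENat.ne_top_iff_exists.mp h3
      rw [← hN] at h2
      exact ⟨N, by exact_mod_cast h2.symm⟩
    rintro ⟨i, hi⟩ hone
    -- natural number valued orders
    have hPne : ∀ q ∈ S, evC (t i) (P q) ≠ 0 := by
      intro q hq h0
      apply hgoodQ i hi q hq
      rw [(hP q hq).1, evC_mul, h0, mul_zero]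
    have hex : ∀ q, ∃ o : ℕ, q ∈ S →
        analyticOrderAt ((evC (t i) (P q) : EntFun) : ℂ → ℂ) s = o := by
      intro q
      by_cases hq : q ∈ S
      · obtain ⟨N, hN⟩ := ENat.ne_top_iff_exists.mp (order_ne_top (hPne q hq) s)
        exact ⟨N, fun _ => hN.symm⟩
      · exact ⟨0, fun h => absurd h hq⟩
    choose o ho using hex
    have hsumF : d ∣ ∑ q ∈ S, m q * o q := by
      have h1 : evC (t i) F = coord s ^ cF * evC (t i) G' := by
        rw [hFG, evC_mul, evC_C]
      rw [hx] at h1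
      have h2 := congrArg (fun f : EntFun => analyticOrderAt (f : ℂ → ℂ) s) h1
      simp only [order_mul, order_pow, order_coord, mul_one] at h2
      rw [hord] at h2
      have h4 : ∑ q ∈ S, (m q : ℕ∞) * analyticOrderAt ((evC (t i) (P q) : EntFun) : ℂ → ℂ) s =
          ((∑ q ∈ S, m q * o q : ℕ) : ℕ∞) := by
        push_cast
        exact Finset.sum_congr rfl fun q hq => by rw [ho q hq]
      rw [h4] at h2
      have hxne : x i ≠ 0 := by
        intro h0
        apply hi
        rw [hx, h0, zero_pow hd.ne']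
      obtain ⟨N, hN⟩ := ENat.ne_top_iff_exists.mp (order_ne_top hxne s)
      rw [← hN] at h2
      have h5 : d * N = cF + ∑ q ∈ S, m q * o q := by exact_mod_cast h2
      exact (Nat.dvd_add_right hcF).mp ⟨N, h5.symm⟩
    have honeA : ∑ q ∈ A, o q = 1 := by
      have h1 := hone
      simp only [evC_prod, order_prod] at h1
      have h2 : ∑ q ∈ A, analyticOrderAt ((evC (t i) (P q) : EntFun) : ℂ → ℂ) s =
          ((∑ q ∈ A, o q : ℕ) : ℕ∞) := by
        push_cast
        exact Finset.sum_congr rfl fun q hq => by rw [ho q (hAS q hq)]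
      rw [h2] at h1
      exact_mod_cast h1
    -- exactly one factor vanishes
    obtain ⟨q₁, hq₁, hq₁o⟩ : ∃ q₁ ∈ A, o q₁ ≠ 0 := by
      by_contra h
      push Not at h
      rw [Finset.sum_eq_zero h] at honeA
      omega
    have herase := Finset.add_sum_erase A o hq₁
    have hq₁one : o q₁ = 1 := by omega
    have hrest : ∑ q ∈ A.erase q₁, o q = 0 := by omega
    have hsumA : ∑ q ∈ A, m q * o q = m q₁ := by
      rw [← Finset.add_sum_erase A (fun q => m q * o q) hq₁, hq₁one, mul_one]
      have : ∑ q ∈ A.erase q₁, m q * o q = 0 := by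
        apply Finset.sum_eq_zero
        intro q hq
        rw [Finset.sum_eq_zero_iff] at hrest
        rw [hrest q hq, mul_zero]
      rw [this, add_zero]
    have hsumS : ∑ q ∈ S \ A, m q * o q + ∑ q ∈ A, m q * o q = ∑ q ∈ S, m q * o q :=
      Finset.sum_sdiff (Finset.filter_subset _ _)
    have hdiv : d ∣ ∑ q ∈ S \ A, m q * o q := by
      apply Finset.dvd_sum
      intro q hq
      obtain ⟨hqS, hqA⟩ := Finset.mem_sdiff.mp hq
      by_cases hmovq : Mov q
      · have : d ∣ m q := by
          by_contra h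
          exact hqA (Finset.mem_filter.mpr ⟨hqS, hmovq, h⟩)
        exact Dvd.dvd.mul_right this _
      · -- a factor with a complex root
        simp only [hMov, not_forall, not_not] at hmovq
        obtain ⟨a, ha⟩ := hmovq
        have h1 := hQc q hqS a ha
        have h2 : (Q q).map (ev s) ≠ 0 := by
          rw [h1]
          simp only [Polynomial.map_sub, map_X, map_C, ev_algebraMap]
          exact X_sub_C_ne_zero a
        have h3 : C (coord s ^ e q) * P q = C (coord s ^ 0) * Q q := by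
          rw [← (hP q hqS).1]
          simp
        obtain ⟨-, h4⟩ := coord_pow_mul_unique (hP q hqS).2 h2 h3
        have h5 : evC (t i) (P q) = algebraMap ℂ EntFun (t i - a) := by
          rw [h4, h1]
          unfold evC
          simp
        have h6 : t i - a ≠ 0 := by
          intro h0
          apply hPne q hqS
          rw [h5, h0, map_zero]
        have h7 := ho q hqS
        rw [h5, (order_eq_zero_iff _ _).mpr (by simpa using h6)] at h7
        have h8 : o q = 0 := by exact_mod_cast h7.symm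
        rw [h8, mul_zero]
        exact dvd_zero d
    rw [← hsumS, hsumA] at hsumF
    exact (Finset.mem_filter.mp hq₁).2.2 ((Nat.dvd_add_right hdiv).mp hsumF)

end Pool.Agent.H17
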