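import Pool.Agent.H17.WeightedVar

/-!
# A bound for the resultant by the values at many nodes
-/

open Polynomial

namespace Pool.Agent.H17

/-- A determinant bound. -/
lemma norm_det_le_of_le {n : ℕ} (A : Matrix (Fin n) (Fin n) ℂ) (y γ : Fin n → ℝ)
    (h : ∀ i j, ‖A i j‖ ≤ y i * γ j) :
    ‖A.det‖ ≤ (n.factorial : ℝ) * ((∏ i, y i) * ∏ j, γ j) := by
  rw [Matrix.det_apply]
  refine (norm_sum_le _ _).trans ?_
  have h1 : ∀ σ ∈ (Finset.univ : Finset (Equiv.Perm (Fin n))),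
      ‖Equiv.Perm.sign σ • ∏ i, A (σ i) i‖ ≤ (∏ i, y i) * ∏ j, γ j := by
    intro σ _
    have h2 : ‖Equiv.Perm.sign σ • ∏ i, A (σ i) i‖ = ∏ i, ‖A (σ i) i‖ := by
      rw [← norm_prod]
      rcases Int.units_eq_one_or (Equiv.Perm.sign σ) with h | h <;> rw [h] <;> simp
    rw [h2]
    calc ∏ i, ‖A (σ i) i‖ ≤ ∏ i, (y (σ i) * γ i) :=
          Finset.prod_le_prod (fun i _ => norm_nonneg _) fun i _ => h _ _
      _ = (∏ i, y i) * ∏ j, γ j := by
          rw [Finset.prod_mul_distrib, Equiv.prod_comp σ y]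
  refine (Finset.sum_le_card_nsmul _ _ _ h1).trans (le_of_eq ?_)
  rw [Finset.card_univ, Fintype.card_perm, Fintype.card_fin, nsmul_eq_mul]

/-- Sylvester's matrix, multiplied with a Vandermonde matrix. -/
lemma vandermonde_mul_sylvester {ρ : ℕ} (P Q : ℂ[X]) (hP : P.natDegree ≤ ρ) (hQ : Q.natDegree ≤ ρ)
    (v : Fin (ρ + ρ) → ℂ) :
    Matrix.vandermonde v * sylvester P Q ρ ρ =
      Matrix.of fun i j => Fin.addCases (motive := fun _ => ℂ)
        (fun j₁ : Fin ρ => v i ^ (j₁ : ℕ) * Q.eval (v i))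
        (fun j₁ : Fin ρ => v i ^ (j₁ : ℕ) * P.eval (v i)) j := by
  have key : ∀ (G : ℂ[X]) (hG : G.natDegree ≤ ρ) (x : ℂ) (j₁ : Fin ρ),
      ∑ k : Fin (ρ + ρ), x ^ (k : ℕ) *
        (if (k : ℕ) ∈ Set.Icc (j₁ : ℕ) (j₁ + ρ) then G.coeff (k - j₁) else 0) =
      x ^ (j₁ : ℕ) * G.eval x := by
    intro G hG x j₁
    have h1 : x ^ (j₁ : ℕ) * G.eval x = (X ^ (j₁ : ℕ) * G).eval x := by
      rw [eval_mul, eval_pow, eval_X]
    have hdeg : (X ^ (j₁ : ℕ) * G).natDegree < ρ + ρ := by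
      refine (natDegree_mul_le).trans_lt ?_
      rw [natDegree_X_pow]
      have := j₁.2
      omega
    have h0 := Fin.sum_univ_eq_sum_range (fun k => (X ^ (j₁ : ℕ) * G).coeff k * x ^ k) (ρ + ρ)
    rw [h1, eval_eq_sum_range' hdeg, ← h0]
    refine Finset.sum_congr rfl fun k _ => ?_
    rw [mul_comm]
    congr 1
    rw [coeff_X_pow_mul']
    simp only [Set.mem_Icc]
    by_cases h2 : (j₁ : ℕ) ≤ k
    · rw [if_pos h2]
      by_cases h3 : (k : ℕ) ≤ j₁ + ρ
      · rw [if_pos ⟨h2, h3⟩]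
      · rw [if_neg (fun h => h3 h.2), coeff_eq_zero_of_natDegree_lt]
        omega
    · rw [if_neg h2, if_neg (fun h => h2 h.1)]
  ext i j
  rw [Matrix.mul_apply]
  induction j using Fin.addCases with
  | left j =>
    simp only [sylvester, Matrix.vandermonde_apply, Matrix.of_apply, Fin.addCases_left]
    exact key Q hQ (v i) j
  | right j =>
    simp only [sylvester, Matrix.vandermonde_apply, Matrix.of_apply, Fin.addCases_right]
    exact key P hP (v i) j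

variable {ι : Type} [Fintype ι]

/-- Lagrange interpolation: few of the values are small. -/
lemma exists_small_card_le [DecidableEq ι] (t : ι → ℂ) (ht : Function.Injective t) (ρ : ℕ) :
    ∃ c : ℝ, 0 < c ∧ c ≤ 1 ∧ ∀ P : ℂ[X], P.natDegree ≤ ρ → (∃ i, P.eval (t i) ≠ 0) →
      (Finset.univ.filter fun i => ‖P.eval (t i)‖ < c * ∑ j, ‖P.eval (t j)‖).card ≤ ρ := by
  classical
  obtain ⟨B, hB1, hBle⟩ : ∃ B : ℝ, 1 ≤ B ∧ ∀ (J : Finset ι) (j i : ι),
      ‖(Lagrange.basis J t j).eval (t i)‖ ≤ B := by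
    obtain ⟨B, hB⟩ := (Set.finite_range (fun q : Finset ι × ι × ι =>
      ‖(Lagrange.basis q.1 t q.2.1).eval (t q.2.2)‖)).bddAbove
    refine ⟨max 1 B, le_max_left _ _, fun J j i => le_trans ?_ (le_max_right _ _)⟩
    exact hB ⟨(J, j, i), rfl⟩
  set M : ℝ := (Fintype.card ι : ℝ) with hM
  have hMnn : 0 ≤ M := by positivity
  refine ⟨1 / ((M + 1) * (ρ + 1) * B), by positivity, ?_, ?_⟩
  · rw [div_le_one (by positivity)]
    have : (1 : ℝ) ≤ (M + 1) * (ρ + 1) := by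
      have : (0 : ℝ) ≤ ρ := by positivity
      nlinarith
    nlinarith
  intro P hP hne
  by_contra hcard
  push Not at hcard
  set c : ℝ := 1 / ((M + 1) * (ρ + 1) * B) with hc
  set U : ℝ := ∑ j, ‖P.eval (t j)‖ with hU
  have hUpos : 0 < U := by
    obtain ⟨i, hi⟩ := hne
    refine (norm_pos_iff.mpr hi).trans_le ?_
    exact Finset.single_le_sum (f := fun i => ‖P.eval (t i)‖) (fun i _ => norm_nonneg _)
      (Finset.mem_univ i)
  obtain ⟨J, hJsub, hJcard⟩ := Finset.exists_subset_card_eq hcard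
  have hinterp : P = Lagrange.interpolate J t (fun i => P.eval (t i)) := by
    apply Lagrange.eq_interpolate (ht.injOn)
    rw [hJcard]
    exact (degree_le_natDegree).trans_lt (by exact_mod_cast Nat.lt_succ_of_le hP)
  have hval : ∀ i, ‖P.eval (t i)‖ ≤ (ρ + 1) * (c * U * B) := by
    intro i
    have h1 : P.eval (t i) = ∑ j ∈ J, P.eval (t j) * (Lagrange.basis J t j).eval (t i) := by
      conv_lhs => rw [hinterp]
      rw [Lagrange.interpolate_apply, eval_finsetSum]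
      refine Finset.sum_congr rfl fun j _ => ?_
      rw [eval_mul, eval_C]
    rw [h1]
    refine (norm_sum_le _ _).trans ?_
    have h2 : ∀ j ∈ J, ‖P.eval (t j) * (Lagrange.basis J t j).eval (t i)‖ ≤ c * U * B := by
      intro j hj
      rw [norm_mul]
      have h3 := (Finset.mem_filter.mp (hJsub hj)).2
      have h4 := hBle J j i
      gcongr
    refine (Finset.sum_le_card_nsmul _ _ _ h2).trans (le_of_eq ?_)
    rw [hJcard, nsmul_eq_mul]
    push_cast
    ring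
  have h5 : U ≤ M * ((ρ + 1) * (c * U * B)) := by
    rw [hU]
    refine (Finset.sum_le_card_nsmul _ _ _ fun i _ => hval i).trans (le_of_eq ?_)
    rw [Finset.card_univ, nsmul_eq_mul]
  have h6 : M * ((ρ + 1) * (c * U * B)) = M / (M + 1) * U := by
    rw [hc]
    field_simp
  rw [h6] at h5
  have h7 : M / (M + 1) < 1 := by
    rw [div_lt_one (by positivity)]
    linarith
  nlinarith

lemma prod_natCard_pow (ρ : ℕ) (a b : ℝ) :
    ∏ j : Fin (ρ + ρ), Fin.addCases (motive := fun _ => ℝ) (fun _ : Fin ρ => a)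
      (fun _ : Fin ρ => b) j = a ^ ρ * b ^ ρ := by
  rw [Fin.prod_univ_add]
  simp only [Fin.addCases_left, Fin.addCases_right, Finset.prod_const, Finset.card_univ,
    Fintype.card_fin]

/-- **The resultant bound.** -/
theorem resultant_bound [DecidableEq ι] [Nonempty ι] (t : ι → ℂ) (ht : Function.Injective t) {ρ a : ℕ}
    (hcard : Fintype.card ι = 4 * ρ + a) :
    ∃ C : ℝ, 0 ≤ C ∧ ∀ P Q : ℂ[X], P.natDegree ≤ ρ → Q.natDegree ≤ ρ →
      (∀ i, P.eval (t i) ≠ 0) →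
      ‖resultant P Q ρ ρ‖ ^ 2 * (∑ i, ‖P.eval (t i)‖) ^ a ≤
        C * (∏ i, ‖P.eval (t i)‖) *
          wVar (fun i => ‖P.eval (t i)‖) (fun i => Q.eval (t i) / P.eval (t i)) ^ ρ := by
  classical
  obtain ⟨c, hc0, hc1, hc⟩ := exists_small_card_le t ht ρ
  -- constants
  obtain ⟨D, hD1, hD⟩ : ∃ D : ℝ, 1 ≤ D ∧ ∀ e : Fin (ρ + ρ) → ι,
      (‖(Matrix.vandermonde (fun k => t (e k))).det‖ ^ 2)⁻¹ ≤ D := by
    obtain ⟨B, hB⟩ := (Set.finite_range (fun e : Fin (ρ + ρ) → ι =>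
      (‖(Matrix.vandermonde (fun k => t (e k))).det‖ ^ 2)⁻¹)).bddAbove
    exact ⟨max 1 B, le_max_left _ _, fun e => le_trans (hB ⟨e, rfl⟩) (le_max_right _ _)⟩
  obtain ⟨T, hT1, hT⟩ : ∃ T : ℝ, 1 ≤ T ∧ ∀ (i : ι) (j : Fin ρ), ‖t i ^ (j : ℕ)‖ ≤ T := by
    obtain ⟨B, hB⟩ := (Set.finite_range (fun q : ι × Fin ρ => ‖t q.1 ^ (q.2 : ℕ)‖)).bddAbove
    exact ⟨max 1 B, le_max_left _ _, fun i j => le_trans (hB ⟨(i, j), rfl⟩) (le_max_right _ _)⟩
  set κ : ℝ := ((ρ + ρ).factorial : ℝ) * T ^ (ρ + ρ) with hκ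
  refine ⟨D * κ ^ 2 * (c ^ (2 * ρ + a))⁻¹, by positivity, ?_⟩
  intro P Q hP hQ hne
  obtain ⟨i₀⟩ := ‹Nonempty ι›
  set w : ι → ℝ := fun i => ‖P.eval (t i)‖ with hw
  set x : ι → ℂ := fun i => Q.eval (t i) / P.eval (t i) with hx
  set U : ℝ := ∑ i, w i with hU
  have hwpos : ∀ i, 0 < w i := fun i => norm_pos_iff.mpr (hne i)
  have hUpos : 0 < U := Finset.sum_pos (fun i _ => hwpos i) ⟨i₀, Finset.mem_univ _⟩
  obtain ⟨ℓ, hℓ⟩ := exists_center w x (fun i => (hwpos i).le) hUpos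
  set V : ℝ := wVar w x with hV
  have hVnn : 0 ≤ V := wVar_nonneg x (fun i => (hwpos i).le) hUpos
  -- the new second polynomial
  set Q' : ℂ[X] := Q + P * C (-ℓ) with hQ'
  have hQ'deg : Q'.natDegree ≤ ρ := by
    refine (natDegree_add_le _ _).trans (max_le hQ ?_)
    refine (natDegree_mul_le).trans ?_
    rw [natDegree_C, add_zero]
    exact hP
  have hres : resultant P Q' ρ ρ = resultant P Q ρ ρ := by
    rw [hQ']
    apply resultant_add_mul_right
    · rw [natDegree_C, zero_add]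
    · exact hP
  have hQ'eval : ∀ i, Q'.eval (t i) = P.eval (t i) * (x i - ℓ) := by
    intro i
    have : P.eval (t i) * x i = Q.eval (t i) := by
      simp only [hx]
      rw [mul_div_cancel₀ _ (hne i)]
    rw [hQ', eval_add, eval_mul, eval_C, mul_sub, this]
    ring
  have hw2 : ∀ i, w i ≤ Real.sqrt (w i) * Real.sqrt U := by
    intro i
    have h1 : w i ≤ U := Finset.single_le_sum (f := w) (fun i _ => (hwpos i).le) (Finset.mem_univ i)
    calc w i = Real.sqrt (w i) * Real.sqrt (w i) := (Real.mul_self_sqrt (hwpos i).le).symm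
      _ ≤ Real.sqrt (w i) * Real.sqrt U := by gcongr
  have hq2 : ∀ i, ‖Q'.eval (t i)‖ ≤ Real.sqrt (w i) * Real.sqrt (U * V) := by
    intro i
    rw [hQ'eval, norm_mul]
    have h1 : Real.sqrt (w i) * ‖x i - ℓ‖ ≤ Real.sqrt (U * V) := by
      apply Real.le_sqrt_of_sq_le
      rw [mul_pow, Real.sq_sqrt (hwpos i).le]
      exact hℓ i
    calc ‖P.eval (t i)‖ * ‖x i - ℓ‖
        = Real.sqrt (w i) * (Real.sqrt (w i) * ‖x i - ℓ‖) := by
          rw [← mul_assoc, Real.mul_self_sqrt (hwpos i).le]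
      _ ≤ _ := by gcongr
  -- the choice of the nodes
  obtain ⟨I, hIsub, hIcard⟩ : ∃ I : Finset ι,
      (Finset.univ.filter fun i => ‖P.eval (t i)‖ < c * ∑ j, ‖P.eval (t j)‖) ⊆ I ∧
        I.card = ρ + ρ := by
    have h1 := hc P hP ⟨i₀, hne i₀⟩
    obtain ⟨I, h2, h3⟩ := Finset.exists_superset_card_eq (n := ρ + ρ) (h1.trans (by omega))
      (by rw [hcard]; omega)
    exact ⟨I, h2, h3⟩
  set e : Fin (ρ + ρ) → ι := fun k => ((I.equivFinOfCardEq hIcard).symm k : ι) with he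
  have heinj : Function.Injective e := by
    intro k l hkl
    exact (I.equivFinOfCardEq hIcard).symm.injective (Subtype.ext hkl)
  have hVdM : (Matrix.vandermonde (fun k => t (e k))).det ≠ 0 :=
    Matrix.det_vandermonde_ne_zero_iff.mpr (ht.comp heinj)
  have hprodI : ∏ k, w (e k) = ∏ i ∈ I, w i := by
    rw [← Finset.prod_coe_sort I]
    exact Equiv.prod_comp (I.equivFinOfCardEq hIcard).symm (fun i : I => w i)
  -- the determinant identity
  have hdet : (Matrix.vandermonde (fun k => t (e k))).det * resultant P Q ρ ρ =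
      (Matrix.of fun i j => Fin.addCases (motive := fun _ => ℂ)
        (fun j₁ : Fin ρ => t (e i) ^ (j₁ : ℕ) * Q'.eval (t (e i)))
        (fun j₁ : Fin ρ => t (e i) ^ (j₁ : ℕ) * P.eval (t (e i))) j :
          Matrix (Fin (ρ + ρ)) (Fin (ρ + ρ)) ℂ).det := by
    rw [← vandermonde_mul_sylvester P Q' hP hQ'deg, Matrix.det_mul, ← hres]
    rfl
  have hEbound := norm_det_le_of_le (Matrix.of fun i j => Fin.addCases (motive := fun _ => ℂ)
        (fun j₁ : Fin ρ => t (e i) ^ (j₁ : ℕ) * Q'.eval (t (e i)))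
        (fun j₁ : Fin ρ => t (e i) ^ (j₁ : ℕ) * P.eval (t (e i))) j :
          Matrix (Fin (ρ + ρ)) (Fin (ρ + ρ)) ℂ) (fun i => T * Real.sqrt (w (e i)))
        (fun j => Fin.addCases (motive := fun _ => ℝ) (fun _ : Fin ρ => Real.sqrt (U * V))
          (fun _ : Fin ρ => Real.sqrt U) j) (by
      intro i j
      induction j using Fin.addCases with
      | left j =>
        simp only [Matrix.of_apply, Fin.addCases_left]
        rw [norm_mul]
        have h1 := hT (e i) j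
        have h2 := hq2 (e i)
        calc ‖t (e i) ^ (j : ℕ)‖ * ‖Q'.eval (t (e i))‖
            ≤ T * (Real.sqrt (w (e i)) * Real.sqrt (U * V)) := by gcongr
          _ = _ := by ring
      | right j =>
        simp only [Matrix.of_apply, Fin.addCases_right]
        rw [norm_mul]
        have h1 := hT (e i) j
        have h2 := hw2 (e i)
        calc ‖t (e i) ^ (j : ℕ)‖ * ‖P.eval (t (e i))‖
            ≤ T * (Real.sqrt (w (e i)) * Real.sqrt U) := by gcongr
          _ = _ := by ring)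
  rw [← hdet, prod_natCard_pow, Finset.prod_mul_distrib, Finset.prod_const, Finset.card_univ,
    Fintype.card_fin, norm_mul] at hEbound
  have hsq : ‖(Matrix.vandermonde (fun k => t (e k))).det‖ ^ 2 * ‖resultant P Q ρ ρ‖ ^ 2 ≤
      κ ^ 2 * (∏ i ∈ I, w i) * (U ^ (2 * ρ) * V ^ ρ) := by
    have h1 : (‖(Matrix.vandermonde (fun k => t (e k))).det‖ * ‖resultant P Q ρ ρ‖) ^ 2 ≤
        (((ρ + ρ).factorial : ℝ) * ((T ^ (ρ + ρ) * ∏ i, Real.sqrt (w (e i))) *
          (Real.sqrt (U * V) ^ ρ * Real.sqrt U ^ ρ))) ^ 2 := by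
      gcongr
    rw [mul_pow] at h1
    refine h1.trans (le_of_eq ?_)
    have h2 : (∏ i, Real.sqrt (w (e i))) ^ 2 = ∏ i ∈ I, w i := by
      rw [← hprodI, ← Finset.prod_pow]
      exact Finset.prod_congr rfl fun i _ => Real.sq_sqrt (hwpos _).le
    have h3 : (Real.sqrt (U * V) ^ ρ) ^ 2 = U ^ ρ * V ^ ρ := by
      rw [pow_right_comm, Real.sq_sqrt (by positivity), mul_pow]
    have h4 : (Real.sqrt U ^ ρ) ^ 2 = U ^ ρ := by
      rw [pow_right_comm, Real.sq_sqrt hUpos.le]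
    calc (((ρ + ρ).factorial : ℝ) * ((T ^ (ρ + ρ) * ∏ i, Real.sqrt (w (e i))) *
          (Real.sqrt (U * V) ^ ρ * Real.sqrt U ^ ρ))) ^ 2
        = κ ^ 2 * (∏ i, Real.sqrt (w (e i))) ^ 2 *
          ((Real.sqrt (U * V) ^ ρ) ^ 2 * (Real.sqrt U ^ ρ) ^ 2) := by rw [hκ]; ring
      _ = _ := by rw [h2, h3, h4]; ring
  have hres2 : ‖resultant P Q ρ ρ‖ ^ 2 ≤ D * (κ ^ 2 * (∏ i ∈ I, w i) * (U ^ (2 * ρ) * V ^ ρ)) := by
    have h1 : 0 < ‖(Matrix.vandermonde (fun k => t (e k))).det‖ ^ 2 := by positivity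
    have h2 := hD e
    have h3 : 0 ≤ κ ^ 2 * (∏ i ∈ I, w i) * (U ^ (2 * ρ) * V ^ ρ) := by
      have : 0 ≤ ∏ i ∈ I, w i := Finset.prod_nonneg fun i _ => (hwpos i).le
      positivity
    calc ‖resultant P Q ρ ρ‖ ^ 2
        = (‖(Matrix.vandermonde (fun k => t (e k))).det‖ ^ 2)⁻¹ *
          (‖(Matrix.vandermonde (fun k => t (e k))).det‖ ^ 2 * ‖resultant P Q ρ ρ‖ ^ 2) := by
          rw [← mul_assoc, inv_mul_cancel₀ h1.ne', one_mul]
      _ ≤ (‖(Matrix.vandermonde (fun k => t (e k))).det‖ ^ 2)⁻¹ *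
          (κ ^ 2 * (∏ i ∈ I, w i) * (U ^ (2 * ρ) * V ^ ρ)) := by gcongr
      _ ≤ _ := by gcongr
  -- the remaining nodes
  have hrest : (c * U) ^ (2 * ρ + a) ≤ ∏ i ∈ Iᶜ, w i := by
    have h1 : Iᶜ.card = 2 * ρ + a := by
      rw [Finset.card_compl, hIcard, hcard]
      omega
    rw [← h1, ← Finset.prod_const]
    refine Finset.prod_le_prod (fun i _ => by positivity) fun i hi => ?_
    by_contra h
    push Not at h
    exact (Finset.mem_compl.mp hi) (hIsub (Finset.mem_filter.mpr ⟨Finset.mem_univ i, h⟩))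
  have hall : (∏ i ∈ I, w i) * ∏ i ∈ Iᶜ, w i = ∏ i, w i := Finset.prod_mul_prod_compl I w
  have hIpos : 0 < ∏ i ∈ I, w i := Finset.prod_pos fun i _ => hwpos i
  have hfinal : (∏ i ∈ I, w i) * U ^ (2 * ρ + a) ≤ (c ^ (2 * ρ + a))⁻¹ * ∏ i, w i := by
    rw [← hall]
    calc (∏ i ∈ I, w i) * U ^ (2 * ρ + a)
        = (c ^ (2 * ρ + a))⁻¹ * ((∏ i ∈ I, w i) * (c * U) ^ (2 * ρ + a)) := by
          rw [mul_pow]
          field_simp
      _ ≤ _ := by gcongr
  calc ‖resultant P Q ρ ρ‖ ^ 2 * U ^ a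
      ≤ D * (κ ^ 2 * (∏ i ∈ I, w i) * (U ^ (2 * ρ) * V ^ ρ)) * U ^ a := by gcongr
    _ = D * κ ^ 2 * ((∏ i ∈ I, w i) * U ^ (2 * ρ + a)) * V ^ ρ := by
        rw [pow_add]; ring
    _ ≤ D * κ ^ 2 * ((c ^ (2 * ρ + a))⁻¹ * ∏ i, w i) * V ^ ρ := by gcongr
    _ = _ := by ring

end Pool.Agent.H17
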