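import Mathlib

/-!
# Fewer equations than unknowns

A system of `m` complex polynomials without constant term in more than `m` unknowns has a common
zero other than the origin (Krull's height theorem and the Nullstellensatz).
-/

open MvPolynomial

namespace Pool.Agent.H17

/-- The vanishing ideal of the origin in affine space has height at least the dimension. -/
lemma le_height_vanishingIdeal_zero (σ : Type) [Finite σ] :
    (Nat.card σ : ℕ∞) ≤ (vanishingIdeal ℂ ({0} : Set (σ → ℂ))).height := by
  classical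
  have hdim : ringKrullDim (MvPolynomial σ ℂ) = (Nat.card σ : WithBot ℕ∞) := by
    rw [MvPolynomial.ringKrullDim_of_isNoetherianRing]
    simp
  have : FiniteRingKrullDim (MvPolynomial σ ℂ) := by
    rw [finiteRingKrullDim_iff_ne_bot_and_top, hdim]
    constructor
    · exact WithBot.coe_ne_bot
    · intro h
      have := WithBot.coe_injective h
      exact absurd this (by simp)
  obtain ⟨p, hp, hh⟩ := Ideal.exists_isMaximal_height (R := MvPolynomial σ ℂ)
  obtain ⟨x, hx⟩ := isMaximal_iff_eq_vanishingIdeal_singleton.mp hp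
  -- translation
  let e : MvPolynomial σ ℂ ≃ₐ[ℂ] MvPolynomial σ ℂ :=
    AlgEquiv.ofAlgHom (aeval (fun i => X i + C (x i))) (aeval (fun i => X i - C (x i)))
      (by ext i; simp) (by ext i; simp)
  have hcomap : Ideal.comap (e : MvPolynomial σ ℂ ≃+* MvPolynomial σ ℂ)
      (vanishingIdeal ℂ ({0} : Set (σ → ℂ))) = p := by
    rw [hx]
    ext q
    rw [Ideal.mem_comap, mem_vanishingIdeal_singleton_iff, mem_vanishingIdeal_singleton_iff]
    have : aeval (0 : σ → ℂ) ((e : MvPolynomial σ ℂ ≃+* MvPolynomial σ ℂ) q) = aeval x q := by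
      have h1 : (aeval (0 : σ → ℂ)).comp (e : MvPolynomial σ ℂ →ₐ[ℂ] MvPolynomial σ ℂ)
          = aeval x := by
        ext i
        simp [e]
      exact DFunLike.congr_fun h1 q
    rw [this]
  have h2 := RingEquiv.height_comap (e : MvPolynomial σ ℂ ≃+* MvPolynomial σ ℂ)
    (vanishingIdeal ℂ ({0} : Set (σ → ℂ)))
  rw [hcomap] at h2
  rw [← h2]
  have h3 : ((p.height : ℕ∞) : WithBot ℕ∞) = (Nat.card σ : WithBot ℕ∞) := by
    rw [hh, hdim]
  have h4 : p.height = (Nat.card σ : ℕ∞) := by
    exact_mod_cast h3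
  rw [h4]

/-- Fewer equations than unknowns: polynomials without constant term have a common zero other
than the origin. -/
theorem exists_ne_zero_common_zero (σ : Type) [Finite σ] (κ : Type) [Finite κ]
    (hcard : Nat.card κ < Nat.card σ) (f : κ → MvPolynomial σ ℂ)
    (hf : ∀ k, eval (0 : σ → ℂ) (f k) = 0) :
    ∃ x : σ → ℂ, x ≠ 0 ∧ ∀ k, eval x (f k) = 0 := by
  classical
  by_contra hcon
  push Not at hcon
  have : Fintype κ := Fintype.ofFinite κ
  set s : Finset (MvPolynomial σ ℂ) := Finset.univ.image f with hs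
  set I : Ideal (MvPolynomial σ ℂ) := Ideal.span (s : Set (MvPolynomial σ ℂ)) with hI
  have hzero : zeroLocus ℂ I = {(0 : σ → ℂ)} := by
    ext x
    rw [hI, zeroLocus_span]
    constructor
    · intro hx
      by_contra hne
      obtain ⟨k, hk⟩ := hcon x hne
      apply hk
      have := hx (f k) (by simp [hs])
      simpa [MvPolynomial.aeval_eq_eval] using this
    · rintro rfl
      intro p hp
      simp only [hs, Finset.coe_image, Finset.coe_univ, Set.image_univ, Set.mem_range] at hp
      obtain ⟨k, rfl⟩ := hp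
      simpa [MvPolynomial.aeval_eq_eval] using hf k
  have hrad : I.radical = vanishingIdeal ℂ ({0} : Set (σ → ℂ)) := by
    rw [← vanishingIdeal_zeroLocus_eq_radical (K := ℂ) I, hzero]
  have hmax : (vanishingIdeal ℂ ({0} : Set (σ → ℂ))).IsMaximal :=
    isMaximal_iff_eq_vanishingIdeal_singleton.mpr ⟨0, rfl⟩
  have hmin : vanishingIdeal ℂ ({0} : Set (σ → ℂ)) ∈ I.minimalPrimes := by
    refine ⟨⟨hmax.isPrime, ?_⟩, ?_⟩
    · rw [← hrad]; exact Ideal.le_radical
    · rintro J ⟨hJ, hIJ⟩ _
      rw [← hrad]
      exact (Ideal.IsPrime.radical_le_iff hJ).mpr hIJ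
  have h1 := Ideal.height_le_card_of_mem_minimalPrimes_span_finset (s := s) hmin
  have h2 := le_height_vanishingIdeal_zero σ
  have h3 : s.card ≤ Nat.card κ := by
    rw [hs, Nat.card_eq_fintype_card]
    exact Finset.card_image_le
  have h4 : (Nat.card σ : ℕ∞) ≤ (s.card : ℕ∞) := h2.trans h1
  have h5 : Nat.card σ ≤ s.card := by exact_mod_cast h4
  omega

end Pool.Agent.H17
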