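import Pool.Agent.H17.Openness
import Pool.Agent.H17.PicardExt
import Pool.Agent.H17.ZeroLemma
import Pool.Agent.H17S.SmoothNear

/-!
# Open sets of smooth hyperbolic complete intersections
-/

open Topology Filter

namespace Pool.Agent.H17

/-- The forms `G l` satisfy the Jacobian criterion at every point of their common zero locus: their
gradients are linearly independent there, so that the zero locus is a smooth complete
intersection. -/
def SmoothIntersection {N c : ℕ} (G : Fin c → MvPolynomial (Fin (N + 1)) ℂ) : Prop :=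
  ∀ x : Fin (N + 1) → ℂ, x ≠ 0 → (∀ l, MvPolynomial.eval x (G l) = 0) →
    LinearIndependent ℂ fun (l : Fin c) (j : Fin (N + 1)) =>
      MvPolynomial.eval x (MvPolynomial.pderiv j (G l))

/-- Every holomorphic map `ℂ → X` is constant. -/
def BrodyHyperbolic {N : ℕ} (X : Set (PN N)) : Prop :=
  ∀ f : ℂ → PN N, HolomorphicInto f Set.univ → (∀ z, f z ∈ X) → ∀ z w, f z = f w

/-- Every holomorphic map from the punctured unit disc to `X` extends to a holomorphic map from the
unit disc to `ℙ^N`. -/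
def PicardHyperbolic {N : ℕ} (X : Set (PN N)) : Prop :=
  ∀ f : ℂ → PN N, HolomorphicInto f puncturedDisc → (∀ z ∈ puncturedDisc, f z ∈ X) →
    ∃ g : ℂ → PN N, HolomorphicInto g (Metric.ball 0 1) ∧ ∀ z ∈ puncturedDisc, g z = f z

/-- The zero locus of sufficiently few forms is not empty. -/
lemma zeroLocus_nonempty {N c : ℕ} (hc : c < N + 1) {d : Fin c → ℕ} (hd : ∀ l, 1 ≤ d l)
    {G : Fin c → MvPolynomial (Fin (N + 1)) ℂ} (hG : ∀ l, (G l).IsHomogeneous (d l)) :
    (zeroLocus G).Nonempty := by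
  obtain ⟨x, hx, hxG⟩ := exists_ne_zero_common_zero (Fin (N + 1)) (Fin c) (by simpa using hc) G
    (fun l => by
      have h1 := eval_smul_of_isHomogeneous (hG l) 0 0
      have h2 : d l ≠ 0 := by have := hd l; omega
      simpa [h2] using h1)
  exact ⟨Projectivization.mk ℂ x hx, fun l => (vanishesAt_mk_iff (hG l) x hx).mpr (hxG l)⟩

/-- A Brody hyperbolic intersection of forms can be approximated by open sets of smooth
hyperbolic complete intersections. -/
theorem open_of_brody {n c : ℕ} {d : Fin c → ℕ} (hd : ∀ l, 1 ≤ d l)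
    (h : ∃ G : Fin c → MvPolynomial (Fin (n + c + 1)) ℂ, (∀ l, (G l).IsHomogeneous (d l)) ∧
      ∀ f : ℂ → PN (n + c), HolomorphicInto f Set.univ → (∀ z, f z ∈ zeroLocus G) →
        ∀ z w, f z = f w) :
    ∃ G₀ : Fin c → MvPolynomial (Fin (n + c + 1)) ℂ, (∀ l, (G₀ l).IsHomogeneous (d l)) ∧
      ∃ ε > 0, ∀ G : Fin c → MvPolynomial (Fin (n + c + 1)) ℂ,
        (∀ l, (G l).IsHomogeneous (d l)) → (∀ l m, ‖(G l).coeff m - (G₀ l).coeff m‖ < ε) →
        (zeroLocus G).Nonempty ∧ SmoothIntersection G ∧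
          BrodyHyperbolic (zeroLocus G) ∧ PicardHyperbolic (zeroLocus G) := by
  obtain ⟨G', hG', hbr⟩ := h
  obtain ⟨ε₂, hε₂, hopen₂⟩ := brody_open hG' hbr
  obtain ⟨G₀, hG₀, hnear, hsm⟩ := H17S.exists_smooth_near hd hG' (half_pos hε₂)
  obtain ⟨ε₁, hε₁, hopen₁⟩ := smooth_open hG₀ hsm
  refine ⟨G₀, hG₀, min ε₁ (ε₂ / 2), lt_min hε₁ (half_pos hε₂), ?_⟩
  intro G hG hclose
  have hbrG := hopen₂ G hG fun l m => by
    have h1 := (hclose l m).trans_le (min_le_right _ _)
    have h2 := hnear l m
    have h3 : (G l).coeff m - (G' l).coeff m =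
        ((G l).coeff m - (G₀ l).coeff m) + ((G₀ l).coeff m - (G' l).coeff m) := by ring
    rw [h3]
    refine (norm_add_le _ _).trans_lt ?_
    linarith
  refine ⟨zeroLocus_nonempty (by omega) hd hG, ?_, hbrG, ?_⟩
  · intro x hx hxG
    rw [Fintype.linearIndependent_iff]
    intro α hα l
    have h1 := hopen₁ G hG (fun l m => (hclose l m).trans_le (min_le_left _ _)) x hx hxG α
      (fun j => by
        have h2 := congrFun hα j
        simpa [Finset.sum_apply] using h2)
    rw [h1]
    rfl
  · intro f hf hfX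
    exact picard_of_brody hG hbrG hf hfX

end Pool.Agent.H17
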