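import Pool.Agent.H17.Modulus

/-!
# Stability under small perturbations of the equations
-/

open Topology Filter

namespace Pool.Agent.H17

variable {N : ℕ}

/-- An entire curve which stays close to a point is constant. -/
lemma const_of_sep_le {f : ℂ → PN N} (hf : HolomorphicInto f Set.univ)
    (h : ∀ z, sep (f z) (f 0) ≤ 1 / 2) (z w : ℂ) : f z = f w := by
  obtain ⟨i, hi⟩ := exists_norm_eq (f 0).rep
  have h1 : ∀ z, ‖(f z).rep‖ ≤ 2 * ‖(f z).rep i‖ := by
    intro z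
    refine norm_le_two_mul (f z).rep_nonzero hi (f 0).rep_nonzero ?_
    have h2 := h z
    rw [sep_comm] at h2
    exact h2
  have h2 : Differentiable ℂ (fun z => chart i (f z)) := by
    intro z
    obtain ⟨φ, hφ, he⟩ := hf z (Set.mem_univ z)
    exact (analyticAt_chart hφ he (rep_ne_zero_of_norm_le (h1 z))).differentiableAt
  have h3 : Bornology.IsBounded (Set.range fun z => chart i (f z)) := by
    rw [Metric.isBounded_iff_subset_closedBall 0]
    refine ⟨2, ?_⟩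
    rintro _ ⟨z, rfl⟩
    rw [mem_closedBall_zero_iff]
    exact norm_chart_le (h1 z)
  have h4 := h2.apply_eq_apply_of_bounded h3 z w
  rw [← mk_chart (rep_ne_zero_of_norm_le (h1 z)), ← mk_chart (rep_ne_zero_of_norm_le (h1 w))]
  simp only [h4]

/-- Rescaling of an entire curve. -/
lemma const_of_modulus {κ : Type} {G : κ → MvPolynomial (Fin (N + 1)) ℂ} {ρ : ℝ} (hρ : 0 < ρ)
    (hmod : ∀ f : ℂ → PN N, HolomorphicInto f (Metric.ball 0 1) →
      (∀ z ∈ Metric.ball (0 : ℂ) 1, f z ∈ zeroLocus G) →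
      ∀ z ∈ Metric.ball (0 : ℂ) ρ, sep (f z) (f 0) ≤ 1 / 2)
    {f : ℂ → PN N} (hf : HolomorphicInto f Set.univ) (hfX : ∀ z, f z ∈ zeroLocus G) (z w : ℂ) :
    f z = f w := by
  refine const_of_sep_le hf (fun z => ?_) z w
  set R : ℝ := 2 * (‖z‖ + 1) / ρ with hR
  have hRpos : 0 < R := by positivity
  have h1 := hmod (fun y => f (R * y)) (hf.comp (fun z _ => by fun_prop) fun z _ => Set.mem_univ _)
    (fun y _ => hfX _) (z / R) (by
      rw [mem_ball_zero_iff, norm_div, Complex.norm_real, Real.norm_of_nonneg hRpos.le,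
        div_lt_iff₀ hRpos, hR]
      have := norm_nonneg z
      field_simp
      linarith)
  have h2 : (R : ℂ) ≠ 0 := by exact_mod_cast hRpos.ne'
  have h3 : (R : ℂ) * (z / R) = z := by field_simp
  simp only [h3, mul_zero] at h1
  exact h1

/-- From a sequence of perturbations to convergence of the coefficients. -/
lemma tendsto_coeff_of_norm_le {κ : Type} {G : κ → MvPolynomial (Fin (N + 1)) ℂ}
    {Gk : ℕ → κ → MvPolynomial (Fin (N + 1)) ℂ}
    (h : ∀ (k : ℕ) l m, ‖(Gk k l).coeff m - (G l).coeff m‖ < 1 / ((k : ℝ) + 1)) (l : κ)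
    (m : Fin (N + 1) →₀ ℕ) : Tendsto (fun k => (Gk k l).coeff m) atTop (𝓝 ((G l).coeff m)) := by
  rw [tendsto_iff_norm_sub_tendsto_zero]
  exact squeeze_zero (fun k => norm_nonneg _) (fun k => (h k l m).le)
    tendsto_one_div_add_atTop_nhds_zero_nat

/-- **Openness of Brody hyperbolicity.** -/
theorem brody_open {κ : Type} {d : κ → ℕ} {G : κ → MvPolynomial (Fin (N + 1)) ℂ}
    (hG : ∀ l, (G l).IsHomogeneous (d l))
    (hX : ∀ f : ℂ → PN N, HolomorphicInto f Set.univ → (∀ z, f z ∈ zeroLocus G) →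
      ∀ z w, f z = f w) :
    ∃ ε > 0, ∀ G' : κ → MvPolynomial (Fin (N + 1)) ℂ, (∀ l, (G' l).IsHomogeneous (d l)) →
      (∀ l m, ‖(G' l).coeff m - (G l).coeff m‖ < ε) →
      ∀ f : ℂ → PN N, HolomorphicInto f Set.univ → (∀ z, f z ∈ zeroLocus G') →
      ∀ z w, f z = f w := by
  by_contra hcon
  push Not at hcon
  choose Gk hGk hGk2 f hf hfX z w hzw using fun k : ℕ => hcon (1 / ((k : ℝ) + 1)) (by positivity)
  obtain ⟨ρ, hρ, hev⟩ := uniform_modulus hGk hG (tendsto_coeff_of_norm_le hGk2) hX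
    (δ := 1 / 2) (by norm_num) le_rfl
  obtain ⟨k, hk⟩ := hev.exists
  exact hzw k (const_of_modulus hρ hk (hf k) (hfX k) (z k) (w k))

/-- Normalisation of a singular point. -/
lemma exists_normalized {κ : Type} [Fintype κ] {d : κ → ℕ}
    {G : κ → MvPolynomial (Fin (N + 1)) ℂ} (hG : ∀ l, (G l).IsHomogeneous (d l))
    {x : Fin (N + 1) → ℂ} (hx : x ≠ 0) (hxG : ∀ l, MvPolynomial.eval x (G l) = 0) {α : κ → ℂ}
    (hα : ∀ j, ∑ l, α l * MvPolynomial.eval x (MvPolynomial.pderiv j (G l)) = 0) (hα0 : α ≠ 0) :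
    ∃ (y : Fin (N + 1) → ℂ) (β : κ → ℂ), ‖y‖ = 1 ∧ ‖β‖ = 1 ∧
      (∀ l, MvPolynomial.eval y (G l) = 0) ∧
      ∀ j, ∑ l, β l * MvPolynomial.eval y (MvPolynomial.pderiv j (G l)) = 0 := by
  set c : ℂ := ((‖x‖ : ℂ))⁻¹ with hc
  have hxn := norm_ne_zero_iff.mpr hx
  have hc0 : c ≠ 0 := inv_ne_zero (by exact_mod_cast hxn)
  set α' : κ → ℂ := fun l => (c ^ (d l - 1))⁻¹ * α l with hα'
  have hα'0 : α' ≠ 0 := by
    intro h
    apply hα0
    funext l
    have h1 := congrFun h l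
    simp only [hα', Pi.zero_apply] at h1
    exact (mul_eq_zero.mp h1).resolve_left (inv_ne_zero (pow_ne_zero _ hc0))
  have hα'n := norm_ne_zero_iff.mpr hα'0
  refine ⟨fun j => c * x j, fun l => ((‖α'‖ : ℂ))⁻¹ * α' l, ?_, ?_, ?_, ?_⟩
  · have : (fun j => c * x j) = c • x := by funext j; simp
    rw [this, norm_smul, hc, norm_inv, Complex.norm_real, norm_norm, inv_mul_cancel₀ hxn]
  · have : (fun l => ((‖α'‖ : ℂ))⁻¹ * α' l) = ((‖α'‖ : ℂ))⁻¹ • α' := by funext j; simp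
    rw [this, norm_smul, norm_inv, Complex.norm_real, norm_norm, inv_mul_cancel₀ hα'n]
  · intro l
    rw [eval_smul_of_isHomogeneous (hG l), hxG, mul_zero]
  · intro j
    have h1 : ∀ l, ((‖α'‖ : ℂ))⁻¹ * α' l *
        MvPolynomial.eval (fun j => c * x j) (MvPolynomial.pderiv j (G l)) =
        ((‖α'‖ : ℂ))⁻¹ * (α l * MvPolynomial.eval x (MvPolynomial.pderiv j (G l))) := by
      intro l
      rw [eval_smul_of_isHomogeneous (hG l).pderiv]
      simp only [hα']
      have := pow_ne_zero (d l - 1) hc0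
      field_simp
    simp_rw [h1]
    rw [← Finset.mul_sum, hα, mul_zero]

/-- **Openness of smoothness.** -/
theorem smooth_open {κ : Type} [Fintype κ] {d : κ → ℕ} {G : κ → MvPolynomial (Fin (N + 1)) ℂ}
    (hG : ∀ l, (G l).IsHomogeneous (d l))
    (hX : ∀ x : Fin (N + 1) → ℂ, x ≠ 0 → (∀ l, MvPolynomial.eval x (G l) = 0) →
      ∀ α : κ → ℂ, (∀ j, ∑ l, α l * MvPolynomial.eval x (MvPolynomial.pderiv j (G l)) = 0) →
        α = 0) :
    ∃ ε > 0, ∀ G' : κ → MvPolynomial (Fin (N + 1)) ℂ, (∀ l, (G' l).IsHomogeneous (d l)) →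
      (∀ l m, ‖(G' l).coeff m - (G l).coeff m‖ < ε) →
      ∀ x : Fin (N + 1) → ℂ, x ≠ 0 → (∀ l, MvPolynomial.eval x (G' l) = 0) →
      ∀ α : κ → ℂ, (∀ j, ∑ l, α l * MvPolynomial.eval x (MvPolynomial.pderiv j (G' l)) = 0) →
        α = 0 := by
  by_contra hcon
  push Not at hcon
  choose Gk hGk hGk2 x hx hxX α hα hα0 using fun k : ℕ => hcon (1 / ((k : ℝ) + 1)) (by positivity)
  have hlim := tendsto_coeff_of_norm_le hGk2
  set 𝒰 : Ultrafilter ℕ := hyperfilter ℕ with h𝒰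
  have h𝒰top : (𝒰 : Filter ℕ) ≤ atTop := by
    rw [← Nat.cofinite_eq_atTop]
    exact hyperfilter_le_cofinite
  choose y β hynorm hβnorm hyX hyβ using fun k =>
    exists_normalized (hGk k) (hx k) (hxX k) (hα k) (hα0 k)
  obtain ⟨Y, hYmem, hY⟩ : ∃ Y ∈ Metric.sphere (0 : Fin (N + 1) → ℂ) 1,
      Tendsto y (𝒰 : Filter ℕ) (𝓝 Y) := by
    have hmemc : ∀ᶠ k in (𝒰 : Filter ℕ), y k ∈ Metric.sphere (0 : Fin (N + 1) → ℂ) 1 :=
      Eventually.of_forall fun k => by rw [mem_sphere_zero_iff_norm]; exact hynorm k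
    obtain ⟨l, hl1, hl2⟩ := (isCompact_sphere (0 : Fin (N + 1) → ℂ) 1).ultrafilter_le_nhds
      (𝒰.map y) (by rw [le_principal_iff]; exact hmemc)
    exact ⟨l, hl1, hl2⟩
  obtain ⟨B, hBmem, hB⟩ : ∃ B ∈ Metric.sphere (0 : κ → ℂ) 1,
      Tendsto β (𝒰 : Filter ℕ) (𝓝 B) := by
    have hmemc : ∀ᶠ k in (𝒰 : Filter ℕ), β k ∈ Metric.sphere (0 : κ → ℂ) 1 :=
      Eventually.of_forall fun k => by rw [mem_sphere_zero_iff_norm]; exact hβnorm k
    obtain ⟨l, hl1, hl2⟩ := (isCompact_sphere (0 : κ → ℂ) 1).ultrafilter_le_nhds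
      (𝒰.map β) (by rw [le_principal_iff]; exact hmemc)
    exact ⟨l, hl1, hl2⟩
  rw [mem_sphere_zero_iff_norm] at hYmem hBmem
  have hY0 : Y ≠ 0 := by
    rintro rfl
    rw [norm_zero] at hYmem
    norm_num at hYmem
  have hB0 : B ≠ 0 := by
    rintro rfl
    rw [norm_zero] at hBmem
    norm_num at hBmem
  apply hB0
  apply hX Y hY0
  · intro l
    have h1 := tendsto_eval (fun k => hGk k l) (hG l) (fun m => (hlim l m).mono_left h𝒰top) hY
    simp only [hyX] at h1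
    exact tendsto_nhds_unique h1 tendsto_const_nhds
  · intro j
    have hpd : ∀ l, Tendsto (fun k => MvPolynomial.eval (y k) (MvPolynomial.pderiv j (Gk k l)))
        (𝒰 : Filter ℕ) (𝓝 (MvPolynomial.eval Y (MvPolynomial.pderiv j (G l)))) := by
      intro l
      refine tendsto_eval (fun k => (hGk k l).pderiv) (hG l).pderiv (fun m => ?_) hY
      simp_rw [MvPolynomial.coeff_pderiv]
      exact ((hlim l _).mono_left h𝒰top).mul_const _
    have h1 : Tendsto (fun k => ∑ l, β k l *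
        MvPolynomial.eval (y k) (MvPolynomial.pderiv j (Gk k l))) (𝒰 : Filter ℕ)
        (𝓝 (∑ l, B l * MvPolynomial.eval Y (MvPolynomial.pderiv j (G l)))) :=
      tendsto_finsetSum _ fun l _ => (((continuous_apply l).tendsto B).comp hB).mul (hpd l)
    simp only [hyβ] at h1
    exact tendsto_nhds_unique h1 tendsto_const_nhds

end Pool.Agent.H17
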