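import Pool.Agent.H17.MultiplicityMain

/-!
# Rigidity

If `F (t i)` and `(t F)' (τ k)` are `d`-th powers of entire functions for sufficiently many nodes
`t i` and `τ k`, then `F` is the product of an entire function and a polynomial with constant
coefficients.
-/

open Polynomial Topology Filter

namespace Pool.Agent.H17

open EntFun Differential

/-- The operator `F ↦ (X F)'`. -/
noncomputable def eulerOp {A : Type*} [CommRing A] (F : A[X]) : A[X] := derivative (X * F)

lemma eulerOp_eq {A : Type*} [CommRing A] (F : A[X]) : eulerOp F = F + X * derivative F := by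
  unfold eulerOp
  rw [derivative_mul, derivative_X, one_mul]

lemma eulerOp_map {A B : Type*} [CommRing A] [CommRing B] (φ : A →+* B) (F : A[X]) :
    eulerOp (F.map φ) = (eulerOp F).map φ := by
  rw [eulerOp_eq, eulerOp_eq, Polynomial.map_add, Polynomial.map_mul, map_X, derivative_map]

lemma natDegree_eulerOp_le {A : Type*} [CommRing A] (F : A[X]) :
    (eulerOp F).natDegree ≤ F.natDegree := by
  rw [eulerOp_eq]
  refine (natDegree_add_le _ _).trans (max_le le_rfl ?_)
  by_cases h : F.natDegree = 0
  · obtain ⟨a, ha⟩ := natDegree_eq_zero.mp h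
    rw [← ha]
    simp
  · refine natDegree_mul_le.trans ?_
    have h1 := natDegree_derivative_lt h
    have h2 := natDegree_X_le (R := A)
    omega

variable {K : Type} [Field K] [Algebra EntFun K] [IsFractionRing EntFun K]

omit [Algebra EntFun K] [IsFractionRing EntFun K] in
/-- The multiplicity of a factor different from `X` drops by one. -/
lemma eulerOp_factor [CharZero K] {F p G : K[X]} {k : ℕ} (hp : Irreducible p)
    (hpX : p.eval 0 ≠ 0) (hk : 0 < k) (hG : F = p ^ k * G) (hpG : ¬ p ∣ G) :
    ∃ H, eulerOp F = p ^ (k - 1) * H ∧ ¬ p ∣ H := by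
  obtain ⟨j, rfl⟩ : ∃ j, k = j + 1 := ⟨k - 1, by omega⟩
  refine ⟨p * G + X * (C ((j + 1 : ℕ) : K) * derivative p * G + p * derivative G), ?_, ?_⟩
  · rw [eulerOp_eq, hG, derivative_mul, derivative_pow_succ, Nat.add_sub_cancel]
    push_cast
    ring
  · intro h
    have h1 : p ∣ X * (C ((j + 1 : ℕ) : K) * derivative p * G) := by
      have h2 : X * (C ((j + 1 : ℕ) : K) * derivative p * G) =
          (p * G + X * (C ((j + 1 : ℕ) : K) * derivative p * G + p * derivative G)) -
            p * (G + X * derivative G) := by ring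
      rw [h2]
      exact dvd_sub h (Dvd.intro _ rfl)
    rcases hp.prime.dvd_or_dvd h1 with h2 | h2
    · have h3 : Associated p X := hp.associated_of_dvd irreducible_X h2
      obtain ⟨u, hu⟩ := h3
      apply hpX
      have h4 : (p * u).eval 0 = 0 := by rw [hu]; simp
      rw [eval_mul] at h4
      rcases mul_eq_zero.mp h4 with h | h
      · exact h
      · exact absurd h ((u.isUnit).map (evalRingHom (0 : K))).ne_zero
    · rcases hp.prime.dvd_or_dvd h2 with h3 | h3
      · rcases hp.prime.dvd_or_dvd h3 with h4 | h4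
        · have h5 : IsUnit (C ((j + 1 : ℕ) : K)) :=
            isUnit_C.mpr (isUnit_iff_ne_zero.mpr (by exact_mod_cast Nat.succ_ne_zero j))
          exact hp.not_isUnit (isUnit_of_dvd_unit h4 h5)
        · have h5 : derivative p ≠ 0 := by
            intro h0
            have := derivative_eq_zero.mp h0
            exact hp.natDegree_pos.ne' this
          have h6 := natDegree_le_of_dvd h4 h5
          have h7 := natDegree_derivative_lt hp.natDegree_pos.ne'
          omega
      · exact hpG h3

omit [IsFractionRing EntFun K] in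
variable (K) in
lemma charZero_of_algebra : CharZero K := by
  have h : Function.Injective ((algebraMap EntFun K).comp (algebraMap ℂ EntFun)) :=
    RingHom.injective _
  exact (RingHom.charZero_iff h).mp inferInstance

lemma eulerOp_ne_zero {F : EntFun[X]} (hF : F ≠ 0) : eulerOp F ≠ 0 := by
  intro h
  have : CharZero EntFun := (RingHom.charZero_iff (algebraMap ℂ EntFun).injective).mp inferInstance
  unfold eulerOp at h
  have h1 := derivative_eq_zero.mp h
  rw [natDegree_X_mul hF] at h1
  omega

/-- Rigidity, with an auxiliary field of fractions. -/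
theorem exists_eq_C_mul_map_aux (K : Type) [Field K] [Algebra EntFun K] [IsFractionRing EntFun K]
    {ι κ : Type} [Fintype ι] [Fintype κ] (t : ι → ℂ)
    (ht : Function.Injective t) (τ : κ → ℂ) (hτ : Function.Injective τ) {n d : ℕ} (hd : 2 ≤ d)
    (hι : 4 * n + 1 ≤ Fintype.card ι) (hκ : 4 * n + 1 ≤ Fintype.card κ) (F : EntFun[X])
    (hF : F ≠ 0) (hn : F.natDegree ≤ n) (x : ι → EntFun) (hx : ∀ i, evC (t i) F = x i ^ d)
    (y : κ → EntFun) (hy : ∀ k, evC (τ k) (eulerOp F) = y k ^ d) :
    ∃ (u : EntFun) (P : ℂ[X]), F = C u * P.map (algebraMap ℂ EntFun) := by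
  classical
  have : CharZero K := charZero_of_algebra K
  have hFK : toK K F ≠ 0 := toK_ne_zero hF
  -- no irreducible factor without complex root
  have key : ∀ p : K[X], Irreducible p → p ∣ toK K F → ∃ a : ℂ, p.eval (cK K a) = 0 := by
    intro p hp hpF
    by_contra hmov
    push Not at hmov
    obtain ⟨k, G, hpG, hG⟩ : ∃ (k : ℕ) (G : K[X]), ¬ p ∣ G ∧ toK K F = p ^ k * G := by
      obtain ⟨k, G, h1, h2⟩ := WfDvdMonoid.max_power_factor hFK hp
      exact ⟨k, G, h1, h2⟩
    have hk : 0 < k := by
      rcases Nat.eq_zero_or_pos k with rfl | h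
      · rw [pow_zero, one_mul] at hG
        rw [hG] at hpF
        exact absurd hpF hpG
      · exact h
    have h1 : d ∣ k := dvd_multiplicity t ht (by omega) hι F hF hn x hx hp hmov hk hG hpG
    have hk2 : 2 ≤ k := hd.trans (Nat.le_of_dvd hk h1)
    have hp0 : p.eval 0 ≠ 0 := by
      have := hmov 0
      simpa [cK] using this
    obtain ⟨H, hH, hpH⟩ := eulerOp_factor hp hp0 hk hG hpG
    have hH' : toK K (eulerOp F) = p ^ (k - 1) * H := by
      rw [← hH]
      unfold toK
      rw [eulerOp_map]
    have h2 : d ∣ k - 1 := dvd_multiplicity τ hτ (by omega) hκ (eulerOp F) (eulerOp_ne_zero hF)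
      ((natDegree_eulerOp_le F).trans hn) y hy hp hmov (by omega) hH' hpH
    have h3 : d ∣ 1 := by
      have h4 : k = (k - 1) + 1 := by omega
      rw [h4] at h1
      exact (Nat.dvd_add_right h2).mp h1
    have := Nat.le_of_dvd one_pos h3
    omega
  obtain ⟨S, m, hS, hfac⟩ := exists_monic_factorization (toK K F) hFK
  have hroot : ∀ q, ∃ a : ℂ, q ∈ S → q = X - C (cK K a) := by
    intro q
    by_cases hq : q ∈ S
    · have h5 : q ∣ q ^ m q := dvd_pow_self q (hS q hq).2.2.ne'
      have h6 : q ^ m q ∣ ∏ q ∈ S, q ^ m q := Finset.dvd_prod_of_mem (fun q => q ^ m q) hq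
      have hdvd : q ∣ toK K F := by
        rw [hfac]
        exact dvd_mul_of_dvd_right (h5.trans h6) _
      obtain ⟨a, ha⟩ := key q (hS q hq).2.1 hdvd
      exact ⟨a, fun _ => eq_X_sub_C_of_root (hS q hq).1 (hS q hq).2.1 ha⟩
    · exact ⟨0, fun h => absurd h hq⟩
  choose a ha using hroot
  refine ⟨F.leadingCoeff, ∏ q ∈ S, (X - C (a q)) ^ m q, ?_⟩
  apply toK_injective (K := K)
  rw [toK_mul, toK_C, hfac]
  have h2 : (toK K F).leadingCoeff = algebraMap EntFun K F.leadingCoeff :=
    leadingCoeff_map_of_injective (IsFractionRing.injective EntFun K) F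
  rw [h2]
  congr 1
  unfold toK
  rw [Polynomial.map_prod, Polynomial.map_prod]
  refine Finset.prod_congr rfl fun q hq => ?_
  rw [Polynomial.map_pow, Polynomial.map_pow, Polynomial.map_sub, Polynomial.map_sub, map_X, map_X,
    map_C, map_C]
  exact congrArg (fun p => p ^ m q) (ha q hq)

/-- **Rigidity theorem.** -/
theorem exists_eq_C_mul_map {ι κ : Type} [Fintype ι] [Fintype κ] (t : ι → ℂ)
    (ht : Function.Injective t) (τ : κ → ℂ) (hτ : Function.Injective τ) {n d : ℕ} (hd : 2 ≤ d)
    (hι : 4 * n + 1 ≤ Fintype.card ι) (hκ : 4 * n + 1 ≤ Fintype.card κ) (F : EntFun[X])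
    (hF : F ≠ 0) (hn : F.natDegree ≤ n) (x : ι → EntFun) (hx : ∀ i, evC (t i) F = x i ^ d)
    (y : κ → EntFun) (hy : ∀ k, evC (τ k) (eulerOp F) = y k ^ d) :
    ∃ (u : EntFun) (P : ℂ[X]), F = C u * P.map (algebraMap ℂ EntFun) :=
  exists_eq_C_mul_map_aux (FractionRing EntFun) t ht τ hτ hd hι hκ F hF hn x hx y hy

end Pool.Agent.H17
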