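import Pool.Agent.H17.EntireRing
import Pool.Agent.H17.ResultantBound

/-!
# Vanishing of the resultant of `R` and `∂R/∂z`

`R` is a polynomial in `t` whose coefficients are entire functions of `z`.
-/

open Polynomial Topology Filter

namespace Pool.Agent.H17

/-- If the order of `f` at `s` is not `1` then `|f'|^2 = O(|f|)`. -/
lemma exists_sq_deriv_bound {f : ℂ → ℂ} {s : ℂ} (hf : AnalyticAt ℂ f s)
    (h1 : analyticOrderAt f s ≠ 1) :
    ∃ B : ℝ, 0 ≤ B ∧ ∀ᶠ z in 𝓝 s, ‖deriv f z‖ ^ 2 ≤ B * ‖f z‖ := by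
  by_cases htop : analyticOrderAt f s = ⊤
  · refine ⟨0, le_rfl, ?_⟩
    rw [analyticOrderAt_eq_top] at htop
    have h2 : f =ᶠ[𝓝 s] fun _ => 0 := htop
    have h3 := h2.deriv
    filter_upwards [h3] with z hz
    rw [hz]
    simp
  obtain ⟨n, hn⟩ : ∃ n : ℕ, analyticOrderAt f s = n :=
    ⟨_, (Nat.cast_analyticOrderNatAt htop).symm⟩
  rw [hf.analyticOrderAt_eq_natCast] at hn
  obtain ⟨u, hu, hu0, hfu⟩ := hn
  have hn1 : n ≠ 1 := by
    rintro rfl
    apply h1
    have := (hf.analyticOrderAt_eq_natCast (n := 1)).mpr ⟨u, hu, hu0, hfu⟩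
    simpa using this
  -- the lower bound for `u`
  obtain ⟨ε, hε0, hε⟩ : ∃ ε : ℝ, 0 < ε ∧ ∀ᶠ z in 𝓝 s, ε ≤ ‖u z‖ := by
    refine ⟨‖u s‖ / 2, half_pos (norm_pos_iff.mpr hu0), ?_⟩
    have h2 : ContinuousAt (fun z => ‖u z‖) s := hu.continuousAt.norm
    have h3 := h2.eventually (lt_mem_nhds (half_lt_self (norm_pos_iff.mpr hu0)))
    filter_upwards [h3] with z hz using hz.le
  rcases Nat.eq_zero_or_pos n with rfl | hnpos
  · -- order zero
    obtain ⟨K, hK0, hK⟩ : ∃ K : ℝ, 0 ≤ K ∧ ∀ᶠ z in 𝓝 s, ‖deriv f z‖ ≤ K := by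
      refine ⟨‖deriv f s‖ + 1, by positivity, ?_⟩
      have h2 : ContinuousAt (fun z => ‖deriv f z‖) s := hf.deriv.continuousAt.norm
      have h3 := h2.eventually (gt_mem_nhds (lt_add_one _))
      filter_upwards [h3] with z hz using hz.le
    refine ⟨K ^ 2 / ε, by positivity, ?_⟩
    filter_upwards [hfu, hε, hK] with z h2 h3 h4
    have h5 : ‖f z‖ = ‖u z‖ := by rw [h2]; simp
    rw [h5]
    calc ‖deriv f z‖ ^ 2 ≤ K ^ 2 := by gcongr
      _ = K ^ 2 / ε * ε := by field_simp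
      _ ≤ _ := by gcongr
  · -- order at least two
    have hn2 : 2 ≤ n := by omega
    obtain ⟨m, rfl⟩ : ∃ m, n = m + 2 := ⟨n - 2, by omega⟩
    set h : ℂ → ℂ := fun z => (m + 2 : ℕ) * u z + (z - s) * deriv u z with hh
    have hhan : AnalyticAt ℂ h s := by
      refine (analyticAt_const.mul hu).add ((analyticAt_id.sub analyticAt_const).mul hu.deriv)
    obtain ⟨K, hK0, hK⟩ : ∃ K : ℝ, 0 ≤ K ∧ ∀ᶠ z in 𝓝 s, ‖h z‖ ≤ K := by
      refine ⟨‖h s‖ + 1, by positivity, ?_⟩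
      have h2 : ContinuousAt (fun z => ‖h z‖) s := hhan.continuousAt.norm
      have h3 := h2.eventually (gt_mem_nhds (lt_add_one _))
      filter_upwards [h3] with z hz using hz.le
    have hderiv : ∀ᶠ z in 𝓝 s, deriv f z = (z - s) ^ (m + 1) * h z := by
      have h2 : f =ᶠ[𝓝 s] fun z => (z - s) ^ (m + 2) * u z := hfu
      filter_upwards [h2.deriv, hu.eventually_analyticAt] with z hz1 hz2
      rw [hz1]
      have h3 : HasDerivAt (fun z => (z - s) ^ (m + 2)) (((m + 2 : ℕ) : ℂ) * (z - s) ^ (m + 1)) z := by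
        have := ((hasDerivAt_id z).sub_const s).fun_pow (m + 2)
        simpa using this
      have h4 := (h3.fun_mul hz2.differentiableAt.hasDerivAt).deriv
      rw [h4, hh]
      push_cast
      ring
    have hball : ∀ᶠ z in 𝓝 s, ‖z - s‖ ≤ 1 := by
      have : ∀ᶠ z in 𝓝 s, z ∈ Metric.closedBall s 1 := Metric.closedBall_mem_nhds s one_pos
      filter_upwards [this] with z hz
      rwa [mem_closedBall_iff_norm] at hz
    refine ⟨K ^ 2 / ε, by positivity, ?_⟩
    filter_upwards [hfu, hε, hK, hderiv, hball] with z h2 h3 h4 h5 h6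
    rw [h5, h2, norm_mul, norm_smul, norm_pow, norm_pow, mul_pow, ← pow_mul]
    have h7 : ‖z - s‖ ^ ((m + 1) * 2) ≤ ‖z - s‖ ^ (m + 2) :=
      pow_le_pow_of_le_one (norm_nonneg _) h6 (by omega)
    calc ‖z - s‖ ^ ((m + 1) * 2) * ‖h z‖ ^ 2 ≤ ‖z - s‖ ^ (m + 2) * K ^ 2 := by gcongr
      _ = K ^ 2 / ε * (‖z - s‖ ^ (m + 2) * ε) := by field_simp
      _ ≤ _ := by gcongr

section

variable {ι : Type} [Fintype ι]

lemma logVar_eq_wVar (r : ι → ℂ → ℂ) (z : ℂ) :
    logVar r z = wVar (fun i => ‖r i z‖) (fun i => deriv (r i) z / r i z) := rfl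

/-- Local boundedness of the variance. -/
lemma logVar_locally_bounded {r r' : ι → ℂ → ℂ} {h : ℂ → ℂ} {s : ℂ}
    (hr' : ∀ i, AnalyticAt ℂ (r' i) s) (hh : AnalyticAt ℂ h s)
    (hh0 : ∀ᶠ z in 𝓝[≠] s, h z ≠ 0) (hne : ∀ᶠ z in 𝓝[≠] s, ∀ i, r' i z ≠ 0)
    (hr : ∀ i z, r i z = h z * r' i z) (i₀ : ι) (hi₀ : r' i₀ s ≠ 0)
    (hord : ∀ i, analyticOrderAt (r' i) s ≠ 1) :
    ∃ B, ∀ᶠ z in 𝓝[≠] s, logVar r z ≤ B := by
  choose B hB0 hB using fun i => exists_sq_deriv_bound (hr' i) (hord i)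
  obtain ⟨ε, hε0, hε⟩ : ∃ ε : ℝ, 0 < ε ∧ ∀ᶠ z in 𝓝 s, ε ≤ ‖r' i₀ z‖ := by
    refine ⟨‖r' i₀ s‖ / 2, half_pos (norm_pos_iff.mpr hi₀), ?_⟩
    have h2 : ContinuousAt (fun z => ‖r' i₀ z‖) s := (hr' i₀).continuousAt.norm
    have h3 := h2.eventually (lt_mem_nhds (half_lt_self (norm_pos_iff.mpr hi₀)))
    filter_upwards [h3] with z hz using hz.le
  refine ⟨(∑ i, B i) / ε, ?_⟩
  have e1 : ∀ᶠ z in 𝓝 s, ∀ i, ‖deriv (r' i) z‖ ^ 2 ≤ B i * ‖r' i z‖ := eventually_all.mpr hB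
  have e2 : ∀ᶠ z in 𝓝 s, ∀ i, AnalyticAt ℂ (r' i) z :=
    eventually_all.mpr fun i => (hr' i).eventually_analyticAt
  filter_upwards [hh0, hne, e1.filter_mono nhdsWithin_le_nhds,
    e2.filter_mono nhdsWithin_le_nhds, hε.filter_mono nhdsWithin_le_nhds,
    hh.eventually_analyticAt.filter_mono nhdsWithin_le_nhds] with z h1 h2 h3 h4 h5 h6
  have hrz : ∀ i, r i z ≠ 0 := fun i => by
    rw [hr]; exact mul_ne_zero h1 (h2 i)
  have hhpos : 0 < ‖h z‖ := norm_pos_iff.mpr h1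
  have hUpos : 0 < ∑ i, ‖r i z‖ :=
    Finset.sum_pos (fun i _ => norm_pos_iff.mpr (hrz i)) ⟨i₀, Finset.mem_univ _⟩
  have hder : ∀ i, deriv (r i) z / r i z - deriv h z / h z = deriv (r' i) z / r' i z := by
    intro i
    have : r i = fun z => h z * r' i z := funext (hr i)
    have h7 := (h6.differentiableAt.hasDerivAt.fun_mul (h4 i).differentiableAt.hasDerivAt).deriv
    rw [this, h7]
    have := h2 i
    field_simp
    ring
  rw [logVar_eq_wVar]
  refine (wVar_le _ hUpos (deriv h z / h z)).trans ?_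
  have h8 : ∑ i, ‖r i z‖ * ‖deriv (r i) z / r i z - deriv h z / h z‖ ^ 2 ≤
      ‖h z‖ * ∑ i, B i := by
    rw [Finset.mul_sum]
    refine Finset.sum_le_sum fun i _ => ?_
    rw [hder, hr, norm_mul, norm_div, div_pow]
    have h9 := norm_pos_iff.mpr (h2 i)
    rw [mul_assoc]
    gcongr
    rw [← mul_div_assoc, div_le_iff₀ (by positivity)]
    calc ‖r' i z‖ * ‖deriv (r' i) z‖ ^ 2 ≤ ‖r' i z‖ * (B i * ‖r' i z‖) := by
          gcongr
          exact h3 i
      _ = _ := by ring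
  have h9 : ‖h z‖ * ε ≤ ∑ i, ‖r i z‖ := by
    calc ‖h z‖ * ε ≤ ‖h z‖ * ‖r' i₀ z‖ := by gcongr
      _ = ‖r i₀ z‖ := by rw [hr, norm_mul]
      _ ≤ _ := Finset.single_le_sum (f := fun i => ‖r i z‖) (fun i _ => norm_nonneg _)
          (Finset.mem_univ i₀)
  have hBnn : 0 ≤ ∑ i, B i := Finset.sum_nonneg fun i _ => hB0 i
  rw [div_le_div_iff₀ hUpos hε0]
  calc (∑ i, ‖r i z‖ * ‖deriv (r i) z / r i z - deriv h z / h z‖ ^ 2) * ε
      ≤ (‖h z‖ * ∑ i, B i) * ε := by gcongr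
    _ = (∑ i, B i) * (‖h z‖ * ε) := by ring
    _ ≤ _ := by gcongr

open EntFun Differential

/-- Evaluation of a polynomial over the entire functions at a complex number. -/
noncomputable def evC (t : ℂ) (R : EntFun[X]) : EntFun := R.eval (algebraMap ℂ EntFun t)

lemma evC_apply (t z : ℂ) (R : EntFun[X]) :
    ((evC t R : EntFun) : ℂ → ℂ) z = (R.map (ev z)).eval t := by
  have h := Polynomial.eval_map_apply (f := ev z) (p := R) (algebraMap ℂ EntFun t)
  rw [ev_algebraMap] at h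
  rw [h]
  rfl

lemma evC_mul (t : ℂ) (P Q : EntFun[X]) : evC t (P * Q) = evC t P * evC t Q := eval_mul

lemma evC_pow (t : ℂ) (P : EntFun[X]) (n : ℕ) : evC t (P ^ n) = evC t P ^ n := eval_pow _

lemma evC_C (t : ℂ) (f : EntFun) : evC t (C f) = f := eval_C

lemma evC_prod {κ : Type*} (t : ℂ) (S : Finset κ) (P : κ → EntFun[X]) :
    evC t (∏ i ∈ S, P i) = ∏ i ∈ S, evC t (P i) := eval_prod _ _ _

lemma evC_deriv (t : ℂ) (R : EntFun[X]) : (evC t R)′ = evC t (mapCoeffs R) := by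
  have h := deriv_aeval_eq (A := EntFun) (R := EntFun) (algebraMap ℂ EntFun t) R
  rw [EntFun.deriv_algebraMap, mul_zero, add_zero] at h
  simpa [evC, aeval_def] using h

/-- **The main vanishing theorem for polynomials.** -/
theorem resultant_eq_zero [Nonempty ι] (t : ι → ℂ) (ht : Function.Injective t) {ρ : ℕ}
    (hρ : 0 < ρ) (hcard : 4 * ρ + 1 ≤ Fintype.card ι) (R : EntFun[X]) (hR : R.natDegree ≤ ρ)
    (hne : ∀ i, evC (t i) R ≠ 0)
    (hloc : ∀ s, ∃ (c : ℕ) (G : EntFun[X]), R = C (coord s ^ c) * G ∧ G.map (ev s) ≠ 0 ∧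
      ∀ i, analyticOrderAt ((evC (t i) G : EntFun) : ℂ → ℂ) s ≠ 1) :
    resultant R (mapCoeffs R) ρ ρ = 0 := by
  classical
  have hdR : (mapCoeffs R).natDegree ≤ ρ := by
    refine natDegree_le_iff_coeff_eq_zero.mpr fun k hk => ?_
    rw [coeff_mapCoeffs, coeff_eq_zero_of_natDegree_lt (hR.trans_lt hk), map_zero]
  obtain ⟨a, ha⟩ : ∃ a, Fintype.card ι = 4 * ρ + a := ⟨Fintype.card ι - 4 * ρ, by omega⟩
  have ha0 : 0 < a := by omega
  obtain ⟨C₀, hC0, hC⟩ := resultant_bound t ht ha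
  set r : ι → ℂ → ℂ := fun i => ((evC (t i) R : EntFun) : ℂ → ℂ) with hr
  set g : ℂ → ℂ := ((resultant R (mapCoeffs R) ρ ρ : EntFun) : ℂ → ℂ) with hg
  have hgz : ∀ z, g z = resultant (R.map (ev z)) ((mapCoeffs R).map (ev z)) ρ ρ := by
    intro z
    rw [resultant_map_map]
    rfl
  have hrz : ∀ i z, r i z = (R.map (ev z)).eval (t i) := fun i z => evC_apply _ _ _
  have hdrz : ∀ i z, deriv (r i) z = ((mapCoeffs R).map (ev z)).eval (t i) := by
    intro i z
    rw [← evC_apply, ← evC_deriv]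
    rfl
  have hvan := vanishing_of_bound (r := r) (g := g) (a := a) (ρ := ρ) ha0 hρ
    (fun i => (evC (t i) R).diff) (fun i => (ne_zero_iff _).mp (hne i))
    (resultant R (mapCoeffs R) ρ ρ).diff hC0 ?_ ?_
  · ext z
    exact hvan z
  · -- the bound
    intro z hz
    have h1 := hC (R.map (ev z)) ((mapCoeffs R).map (ev z)) (natDegree_map_le.trans hR)
      (natDegree_map_le.trans hdR) (fun i => by rw [← hrz]; exact hz i)
    rw [← hgz] at h1
    simp only [← hrz, ← hdrz] at h1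
    exact h1
  · -- local boundedness
    intro s
    obtain ⟨c, G, hRG, hG0, hGord⟩ := hloc s
    -- a node at which the reduced polynomial does not vanish
    obtain ⟨i₀, hi₀⟩ : ∃ i₀, (G.map (ev s)).eval (t i₀) ≠ 0 := by
      by_contra h
      push Not at h
      apply hG0
      apply eq_zero_of_natDegree_lt_card_of_eval_eq_zero _ ht h
      have hGdeg : G.natDegree ≤ ρ := by
        have h1 : R.natDegree = G.natDegree := by
          rw [hRG, natDegree_C_mul (pow_ne_zero _ (coord_ne_zero s))]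
        omega
      have := (natDegree_map_le (f := ev s) (p := G)).trans hGdeg
      omega
    have hfac : ∀ i, evC (t i) R = coord s ^ c * evC (t i) G := by
      intro i
      rw [hRG, evC_mul, evC_C]
    have hGne : ∀ i, evC (t i) G ≠ 0 := by
      intro i h
      apply hne i
      rw [hfac, h, mul_zero]
    refine logVar_locally_bounded (r' := fun i => ((evC (t i) G : EntFun) : ℂ → ℂ))
      (h := ((coord s ^ c : EntFun) : ℂ → ℂ)) (fun i => (evC (t i) G).analyticAt s)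
      ((coord s ^ c : EntFun).analyticAt s) ?_ ?_ ?_ i₀ ?_ hGord
    · exact eventually_ne_zero_of_entire (coord s ^ c : EntFun).diff
        ((ne_zero_iff _).mp (pow_ne_zero _ (coord_ne_zero s))) s
    · exact eventually_all.mpr fun i => eventually_ne_zero_of_entire (evC (t i) G).diff
        ((ne_zero_iff _).mp (hGne i)) s
    · intro i z
      simp only [hr]
      rw [hfac]
      rfl
    · rw [evC_apply]
      exact hi₀

end

end Pool.Agent.H17
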