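import Pool.Agent.H17.EntireRing

/-!
# Weierstrass' theorem: entire functions with prescribed zeros
-/

open Topology Filter

namespace Pool.Agent.H17

open EntFun

/-- The Taylor polynomial of the logarithm, as an entire function. -/
lemma differentiable_logTaylor (n : ℕ) : Differentiable ℂ (Complex.logTaylor n) := by
  have h : Complex.logTaylor n =
      fun z : ℂ => ∑ j ∈ Finset.range n, (-1 : ℂ) ^ (j + 1) * z ^ j / (j : ℂ) := rfl
  rw [h]
  fun_prop

/-- `1 - z / s`. -/
noncomputable def linFac (s : ℂ) : EntFun := ⟨fun z => 1 - z / s, by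
  change Differentiable ℂ fun z : ℂ => 1 - z / s
  fun_prop⟩

/-- The exponential factor. -/
noncomputable def expFac (m : ℕ) (s : ℂ) : EntFun :=
  ⟨fun z => Complex.exp (-Complex.logTaylor (m + 1) (-(z / s))), by
    change Differentiable ℂ fun z : ℂ => Complex.exp (-Complex.logTaylor (m + 1) (-(z / s)))
    have h := differentiable_logTaylor (m + 1)
    fun_prop⟩

lemma linFac_apply (s z : ℂ) : ((linFac s : EntFun) : ℂ → ℂ) z = 1 - z / s := rfl

lemma expFac_apply (m : ℕ) (s z : ℂ) : ((expFac m s : EntFun) : ℂ → ℂ) z =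
    Complex.exp (-Complex.logTaylor (m + 1) (-(z / s))) := rfl

lemma order_coord_of_ne {s z : ℂ} (h : s ≠ z) :
    analyticOrderAt ((coord s : EntFun) : ℂ → ℂ) z = 0 := by
  rw [order_eq_zero_iff, coord_apply]
  exact sub_ne_zero.mpr h.symm

lemma linFac_eq {s : ℂ} (hs : s ≠ 0) : linFac s = algebraMap ℂ EntFun (-s⁻¹) * coord s := by
  ext z
  have h1 : ((algebraMap ℂ EntFun (-s⁻¹) * coord s : EntFun) : ℂ → ℂ) z = -s⁻¹ * (z - s) := rfl
  rw [h1, linFac_apply]
  field_simp
  ring

lemma order_algebraMap {c : ℂ} (hc : c ≠ 0) (z : ℂ) :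
    analyticOrderAt ((algebraMap ℂ EntFun c : EntFun) : ℂ → ℂ) z = 0 := by
  rw [order_eq_zero_iff, coe_algebraMap]
  exact hc

lemma order_linFac {s : ℂ} (hs : s ≠ 0) (z : ℂ) :
    analyticOrderAt ((linFac s : EntFun) : ℂ → ℂ) z = if s = z then 1 else 0 := by
  rw [linFac_eq hs, order_mul, order_algebraMap (by simpa using hs), zero_add]
  split_ifs with h
  · rw [h, order_coord]
  · exact order_coord_of_ne h

lemma order_expFac (m : ℕ) (s z : ℂ) :
    analyticOrderAt ((expFac m s : EntFun) : ℂ → ℂ) z = 0 := by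
  rw [order_eq_zero_iff, expFac_apply]
  exact Complex.exp_ne_zero _

/-- The elementary estimate. -/
lemma norm_log_sub_logTaylor_le_half {u : ℂ} (hu : ‖u‖ ≤ 1 / 2) (m : ℕ) :
    ‖Complex.log (1 + u) - Complex.logTaylor (m + 1) u‖ ≤ (1 / 2) ^ m := by
  refine (Complex.norm_log_sub_logTaylor_le m (by linarith)).trans ?_
  have h0 := norm_nonneg u
  have h1 : ‖u‖ ^ (m + 1) ≤ (1 / 2) ^ (m + 1) := by gcongr
  have h2 : (1 - ‖u‖)⁻¹ ≤ 2 := by
    rw [inv_le_comm₀ (by linarith) (by norm_num)]
    linarith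
  have h3 : 0 ≤ (1 - ‖u‖)⁻¹ := by
    rw [inv_nonneg]
    linarith
  calc ‖u‖ ^ (m + 1) * (1 - ‖u‖)⁻¹ / (m + 1) ≤ (1 / 2) ^ (m + 1) * 2 / 1 := by
        gcongr
        · have : (0 : ℝ) ≤ m := by positivity
          linarith
    _ = (1 / 2) ^ m := by rw [pow_succ]; ring

section

variable (D : ℂ → ℕ) (hD : ∀ R : ℝ, {z ∈ Metric.closedBall (0 : ℂ) R | D z ≠ 0}.Finite)

open scoped Classical in
/-- The zeros with `k ≤ |s| < k + 1`. -/
noncomputable def shell (k : ℕ) : Finset ℂ :=
  (hD (k + 1)).toFinset.filter fun s => (k : ℝ) ≤ ‖s‖ ∧ ‖s‖ < k + 1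

lemma mem_shell {k : ℕ} {s : ℂ} :
    s ∈ shell D hD k ↔ D s ≠ 0 ∧ (k : ℝ) ≤ ‖s‖ ∧ ‖s‖ < k + 1 := by
  unfold shell
  rw [Finset.mem_filter, Set.Finite.mem_toFinset]
  constructor
  · rintro ⟨h1, h2⟩
    exact ⟨h1.2, h2⟩
  · rintro ⟨h1, h2⟩
    exact ⟨⟨by rw [mem_closedBall_zero_iff]; exact h2.2.le, h1⟩, h2⟩

/-- The number of zeros in a shell. -/
noncomputable def shellCard (k : ℕ) : ℕ := ∑ s ∈ shell D hD k, D s

/-- The partial product over a shell. -/
noncomputable def shellProd (k : ℕ) : EntFun :=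
  if k = 0 then ∏ s ∈ shell D hD k, coord s ^ D s
  else ∏ s ∈ shell D hD k, (linFac s * expFac (k + shellCard D hD k) s) ^ D s

/-- The logarithm of the partial product over a shell. -/
noncomputable def shellLog (k : ℕ) (z : ℂ) : ℂ :=
  ∑ s ∈ shell D hD k, (D s : ℂ) * (Complex.log (1 + -(z / s)) -
    Complex.logTaylor (k + shellCard D hD k + 1) (-(z / s)))

lemma shell_ne_zero {k : ℕ} (hk : k ≠ 0) {s : ℂ} (hs : s ∈ shell D hD k) : s ≠ 0 := by
  rintro rfl
  have h := ((mem_shell D hD).mp hs).2.1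
  rw [norm_zero] at h
  have : (k : ℝ) ≤ 0 := h
  exact hk (by exact_mod_cast le_antisymm (by exact_mod_cast this) (Nat.zero_le k))

lemma norm_div_le_half {k : ℕ} (hk : k ≠ 0) {s : ℂ} (hs : s ∈ shell D hD k) {z : ℂ}
    (hz : ‖z‖ < k / 2) : ‖-(z / s)‖ ≤ 1 / 2 := by
  have h := ((mem_shell D hD).mp hs).2.1
  have hkpos : (0 : ℝ) < k := by positivity
  rw [norm_neg, norm_div, div_le_iff₀ (hkpos.trans_le h)]
  linarith

lemma exp_shellLog {k : ℕ} (hk : k ≠ 0) {z : ℂ} (hz : ‖z‖ < k / 2) :
    Complex.exp (shellLog D hD k z) = ((shellProd D hD k : EntFun) : ℂ → ℂ) z := by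
  unfold shellLog shellProd
  rw [if_neg hk, Complex.exp_sum]
  have h1 : ((∏ s ∈ shell D hD k, (linFac s * expFac (k + shellCard D hD k) s) ^ D s : EntFun) :
      ℂ → ℂ) z = ev z (∏ s ∈ shell D hD k, (linFac s * expFac (k + shellCard D hD k) s) ^ D s) := rfl
  rw [h1, map_prod]
  refine Finset.prod_congr rfl fun s hs => ?_
  rw [map_pow, map_mul, ev_apply, ev_apply, linFac_apply, expFac_apply, Complex.exp_nat_mul,
    Complex.exp_sub, Complex.exp_log, Complex.exp_neg]
  · rfl
  · have h2 := norm_div_le_half D hD hk hs hz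
    intro h3
    have h4 : -(z / s) = -1 := by linear_combination h3
    rw [h4] at h2
    norm_num at h2

lemma norm_shellLog_le {k : ℕ} (hk : k ≠ 0) {z : ℂ} (hz : ‖z‖ < k / 2) :
    ‖shellLog D hD k z‖ ≤ (1 / 2) ^ k := by
  unfold shellLog
  refine (norm_sum_le _ _).trans ?_
  have h1 : ∀ s ∈ shell D hD k, ‖(D s : ℂ) * (Complex.log (1 + -(z / s)) -
      Complex.logTaylor (k + shellCard D hD k + 1) (-(z / s)))‖ ≤
      D s * (1 / 2) ^ (k + shellCard D hD k) := by
    intro s hs
    rw [norm_mul, Complex.norm_natCast]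
    gcongr
    exact norm_log_sub_logTaylor_le_half (norm_div_le_half D hD hk hs hz) _
  refine (Finset.sum_le_sum h1).trans ?_
  rw [← Finset.sum_mul]
  have h2 : (∑ s ∈ shell D hD k, (D s : ℝ)) = (shellCard D hD k : ℝ) := by
    unfold shellCard
    push_cast
    rfl
  rw [h2, pow_add]
  have h3 : (shellCard D hD k : ℝ) ≤ 2 ^ shellCard D hD k := by
    exact_mod_cast Nat.lt_two_pow_self.le
  have h4 : (shellCard D hD k : ℝ) * (1 / 2) ^ shellCard D hD k ≤ 1 := by
    rw [one_div, inv_pow, ← div_eq_mul_inv, div_le_one (by positivity)]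
    exact h3
  calc (shellCard D hD k : ℝ) * ((1 / 2) ^ k * (1 / 2) ^ shellCard D hD k)
      = ((shellCard D hD k : ℝ) * (1 / 2) ^ shellCard D hD k) * (1 / 2) ^ k := by ring
    _ ≤ 1 * (1 / 2) ^ k := by gcongr
    _ = _ := one_mul _

lemma differentiableOn_shellLog {k : ℕ} (hk : k ≠ 0) :
    DifferentiableOn ℂ (shellLog D hD k) (Metric.ball 0 (k / 2)) := by
  intro z hz
  rw [mem_ball_zero_iff] at hz
  apply DifferentiableAt.differentiableWithinAt
  unfold shellLog
  refine DifferentiableAt.fun_sum fun s hs => ?_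
  refine DifferentiableAt.const_mul ?_ _
  have h1 : DifferentiableAt ℂ (fun z : ℂ => 1 + -(z / s)) z := by fun_prop
  have h2 : DifferentiableAt ℂ (fun z : ℂ => -(z / s)) z := by fun_prop
  refine DifferentiableAt.sub ?_ ?_
  · refine h1.clog ?_
    apply Complex.mem_slitPlane_of_norm_lt_one
    have := norm_div_le_half D hD hk hs hz
    linarith
  · exact (differentiable_logTaylor _ _).comp z h2

/-- The partial products. -/
noncomputable def partProd (K : ℕ) : EntFun := ∏ k ∈ Finset.range K, shellProd D hD k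

/-- The remainder. -/
noncomputable def remLog (K : ℕ) (z : ℂ) : ℂ := ∑' k, shellLog D hD (K + k) z

lemma remLog_bound {K : ℕ} (hK : K ≠ 0) (k : ℕ) {z : ℂ} (hz : z ∈ Metric.ball (0 : ℂ) (K / 2)) :
    ‖shellLog D hD (K + k) z‖ ≤ (1 / 2) ^ k := by
  rw [mem_ball_zero_iff] at hz
  refine (norm_shellLog_le D hD (by omega) (hz.trans_le ?_)).trans ?_
  · push_cast
    have : (0 : ℝ) ≤ k := by positivity
    linarith
  · exact pow_le_pow_of_le_one (by norm_num) (by norm_num) (by omega)

lemma summable_half : Summable fun k : ℕ => (1 / 2 : ℝ) ^ k :=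
  summable_geometric_of_lt_one (by norm_num) (by norm_num)

lemma differentiableOn_remLog {K : ℕ} (hK : K ≠ 0) :
    DifferentiableOn ℂ (remLog D hD K) (Metric.ball 0 (K / 2)) := by
  refine Complex.differentiableOn_tsum_of_summable_norm summable_half (fun k => ?_)
    Metric.isOpen_ball (fun k z hz => remLog_bound D hD hK k hz)
  refine (differentiableOn_shellLog D hD (k := K + k) (by omega)).mono ?_
  apply Metric.ball_subset_ball
  push_cast
  have : (0 : ℝ) ≤ k := by positivity
  linarith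

lemma tendsto_partProd {K : ℕ} (hK : K ≠ 0) {z : ℂ} (hz : z ∈ Metric.ball (0 : ℂ) (K / 2)) :
    Tendsto (fun m => ((partProd D hD m : EntFun) : ℂ → ℂ) z) atTop
      (𝓝 (((partProd D hD K : EntFun) : ℂ → ℂ) z * Complex.exp (remLog D hD K z))) := by
  have hsum : Summable fun k => shellLog D hD (K + k) z :=
    Summable.of_norm_bounded summable_half fun k => remLog_bound D hD hK k hz
  have h1 := hsum.hasSum.tendsto_sum_nat
  have h2 : Tendsto (fun m => ((partProd D hD K : EntFun) : ℂ → ℂ) z *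
      Complex.exp (∑ k ∈ Finset.range m, shellLog D hD (K + k) z)) atTop
      (𝓝 (((partProd D hD K : EntFun) : ℂ → ℂ) z * Complex.exp (remLog D hD K z))) :=
    (h1.cexp).const_mul _
  have h3 : ∀ m, ((partProd D hD (m + K) : EntFun) : ℂ → ℂ) z =
      ((partProd D hD K : EntFun) : ℂ → ℂ) z *
      Complex.exp (∑ k ∈ Finset.range m, shellLog D hD (K + k) z) := by
    intro m
    rw [mem_ball_zero_iff] at hz
    have h4 : partProd D hD (m + K) = partProd D hD K *
        ∏ k ∈ Finset.range m, shellProd D hD (K + k) := by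
      unfold partProd
      rw [add_comm m K, Finset.prod_range_add]
    rw [h4, Complex.exp_sum]
    have h5 : ((partProd D hD K * ∏ k ∈ Finset.range m, shellProd D hD (K + k) : EntFun) :
        ℂ → ℂ) z = ((partProd D hD K : EntFun) : ℂ → ℂ) z *
        ev z (∏ k ∈ Finset.range m, shellProd D hD (K + k)) := rfl
    rw [h5, map_prod]
    congr 1
    refine Finset.prod_congr rfl fun k _ => ?_
    rw [exp_shellLog D hD (by omega)]
    · rfl
    · refine hz.trans_le ?_
      push_cast
      have : (0 : ℝ) ≤ k := by positivity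
      linarith
  rw [← tendsto_add_atTop_iff_nat K]
  exact h2.congr fun m => (h3 m).symm

include hD in
/-- **Weierstrass' theorem.** -/
theorem exists_entire_with_orders : ∃ w : EntFun, ∀ z, analyticOrderAt (w : ℂ → ℂ) z = D z := by
  classical
  set Kz : ℂ → ℕ := fun z => ⌈2 * ‖z‖⌉₊ + 1 with hKz
  have hKz0 : ∀ z, Kz z ≠ 0 := fun z => by simp [hKz]
  have hKzball : ∀ z, z ∈ Metric.ball (0 : ℂ) (Kz z / 2) := by
    intro z
    rw [mem_ball_zero_iff, hKz]
    push_cast
    have := Nat.le_ceil (2 * ‖z‖)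
    linarith
  set w : ℂ → ℂ := fun z => ((partProd D hD (Kz z) : EntFun) : ℂ → ℂ) z *
    Complex.exp (remLog D hD (Kz z) z) with hw
  have hweq : ∀ (K : ℕ), K ≠ 0 → ∀ z ∈ Metric.ball (0 : ℂ) (K / 2),
      w z = ((partProd D hD K : EntFun) : ℂ → ℂ) z * Complex.exp (remLog D hD K z) := by
    intro K hK z hz
    exact tendsto_nhds_unique (tendsto_partProd D hD (hKz0 z) (hKzball z))
      (tendsto_partProd D hD hK hz)
  have hlocal : ∀ z, w =ᶠ[𝓝 z] fun y => ((partProd D hD (Kz z) : EntFun) : ℂ → ℂ) y *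
      Complex.exp (remLog D hD (Kz z) y) := by
    intro z
    filter_upwards [Metric.isOpen_ball.mem_nhds (hKzball z)] with y hy
    exact hweq (Kz z) (hKz0 z) y hy
  have hremAn : ∀ z, AnalyticAt ℂ (remLog D hD (Kz z)) z := fun z =>
    (differentiableOn_remLog D hD (hKz0 z)).analyticAt
      (Metric.isOpen_ball.mem_nhds (hKzball z))
  have hexpAn : ∀ z, AnalyticAt ℂ (fun y => Complex.exp (remLog D hD (Kz z) y)) z := fun z =>
    (hremAn z).cexp
  have hwdiff : Differentiable ℂ w := by
    intro z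
    have h1 := (((partProd D hD (Kz z)).analyticAt z).mul (hexpAn z)).differentiableAt
    exact (hlocal z).differentiableAt_iff.mpr h1
  refine ⟨⟨w, hwdiff⟩, fun z => ?_⟩
  change analyticOrderAt w z = D z
  rw [analyticOrderAt_congr (hlocal z)]
  have h1 : analyticOrderAt (fun y => ((partProd D hD (Kz z) : EntFun) : ℂ → ℂ) y *
      Complex.exp (remLog D hD (Kz z) y)) z =
      analyticOrderAt ((partProd D hD (Kz z) : EntFun) : ℂ → ℂ) z +
        analyticOrderAt (fun y => Complex.exp (remLog D hD (Kz z) y)) z :=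
    analyticOrderAt_mul ((partProd D hD (Kz z)).analyticAt z) (hexpAn z)
  have h2 : analyticOrderAt (fun y => Complex.exp (remLog D hD (Kz z) y)) z = 0 := by
    rw [(hexpAn z).analyticOrderAt_eq_zero]
    exact Complex.exp_ne_zero _
  rw [h1, h2, add_zero]
  have h3 : ∀ k, analyticOrderAt ((shellProd D hD k : EntFun) : ℂ → ℂ) z =
      if z ∈ shell D hD k then (D z : ℕ∞) else 0 := by
    intro k
    unfold shellProd
    split_ifs with hk hz hz
    · rw [order_prod, Finset.sum_eq_single z]
      · rw [order_pow, order_coord, mul_one]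
      · intro s _ hs
        rw [order_pow, order_coord_of_ne hs, mul_zero]
      · intro h
        exact absurd hz h
    · rw [order_prod, Finset.sum_eq_zero]
      intro s hs
      rw [order_pow, order_coord_of_ne, mul_zero]
      rintro rfl
      exact hz hs
    · rw [order_prod, Finset.sum_eq_single z]
      · rw [order_pow, order_mul, order_expFac, order_linFac (shell_ne_zero D hD hk hz),
          if_pos rfl, add_zero, mul_one]
      · intro s hs' hs
        rw [order_pow, order_mul, order_expFac, order_linFac (shell_ne_zero D hD hk hs'),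
          if_neg hs, add_zero, mul_zero]
      · intro h
        exact absurd hz h
    · rw [order_prod, Finset.sum_eq_zero]
      intro s hs
      rw [order_pow, order_mul, order_expFac, order_linFac (shell_ne_zero D hD hk hs),
        if_neg, add_zero, mul_zero]
      rintro rfl
      exact hz hs
  unfold partProd
  rw [order_prod, Finset.sum_congr rfl fun k _ => h3 k]
  by_cases hDz : D z = 0
  · rw [hDz, Finset.sum_eq_zero]
    · rfl
    · intro k _
      rw [if_neg]
      intro h
      exact ((mem_shell D hD).mp h).1 hDz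
  · rw [Finset.sum_eq_single ⌊‖z‖⌋₊]
    · rw [if_pos]
      exact (mem_shell D hD).mpr ⟨hDz, Nat.floor_le (norm_nonneg z), Nat.lt_floor_add_one _⟩
    · intro k _ hk
      rw [if_neg]
      intro h
      obtain ⟨-, h1, h2⟩ := (mem_shell D hD).mp h
      apply hk
      exact ((Nat.floor_eq_iff (norm_nonneg z)).mpr ⟨h1, h2⟩).symm
    · intro h
      exfalso
      apply h
      rw [Finset.mem_range]
      have h5 : ⌊‖z‖⌋₊ ≤ ⌈2 * ‖z‖⌉₊ := by
        refine (Nat.floor_le_ceil _).trans (Nat.ceil_mono ?_)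
        have := norm_nonneg z
        linarith
      simp only [hKz]
      omega

end

end Pool.Agent.H17
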